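import Pool.Agent.Lib.MP_fc51f7_nt.BV
import Pool.Agent.Lib.MP_fc51f7_nt.Tens

-- part Pool.Agent.Lib.MP_c702b2_nt.Loc
section

/-! Local identities and correlation sums for the one-form sieve sums. -/

set_option autoImplicit false
set_option linter.unusedSectionVars false

namespace Pool.Agent.Lib.MP_c702b2_nt

open Finset Pool.Agent.Lib.MP_fc51f7_nt

noncomputable section

def ww (p : ℕ) : ℝ := ((p : ℝ) - 1)⁻¹

section Local

variable {p : ℕ}

lemma ww_nonneg (hp : 2 ≤ p) : 0 ≤ ww p := BV.inv_pred_nonneg hp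

lemma ww_le_one (hp : 2 ≤ p) : ww p ≤ 1 := BV.inv_pred_le_one hp

lemma mul_ww (hp : 2 ≤ p) : p * ww p = 1 + ww p := by
  have : (2 : ℝ) ≤ p := by exact_mod_cast hp
  have h : (p : ℝ) - 1 ≠ 0 := by linarith
  unfold ww; field_simp; ring

lemma ww_le (hp : 2 ≤ p) : ww p ≤ 2 / p := by
  have : (2 : ℝ) ≤ p := by exact_mod_cast hp
  rw [le_div_iff₀ (by linarith), mul_comm, mul_ww hp]
  linarith [ww_le_one hp]

lemma xi_eq (m : ℤ) : xi p m = ww p - (1 + ww p) * if (p : ℤ) ∣ m then 1 else 0 := by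
  unfold xi ww; split_ifs <;> ring

lemma xi_neg (m : ℤ) : xi p (-m) = xi p m := by simp [xi]

lemma abs_xi_le' (hp : 2 ≤ p) (m : ℤ) : |xi p m| ≤ ww p + if (p : ℤ) ∣ m then 1 else 0 := by
  have := ww_nonneg hp
  unfold xi; split_ifs
  · simpa using this
  · rw [add_zero]; exact (abs_of_nonneg this).le

lemma xi_sq (m : ℤ) : xi p m * xi p m = ww p - (1 - ww p) * xi p m := by
  unfold xi; split_ifs
  · ring
  · change ww p * ww p = ww p - (1 - ww p) * ww p; ring

lemma sum_xi (hp : 2 ≤ p) (a : ℤ) : ∑ r ∈ range p, xi p (r + a) = 0 := by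
  simp only [xi_eq, sum_sub_distrib, ← mul_sum, sum_dvd_one (show 0 < p by omega), sum_const,
    card_range, nsmul_eq_mul, mul_ww hp]
  ring

lemma sum_xi_xi (hp : 2 ≤ p) (a b : ℤ) :
    ∑ r ∈ range p, xi p (r + a) * xi p (r + b) = -(p * (ww p * xi p (a - b))) := by
  have h : ∀ r : ℕ, xi p (r + a) * xi p (r + b) = ww p * xi p (r + b) - (1 + ww p) * xi p (a - b) *
      if (p : ℤ) ∣ (r : ℤ) + a then 1 else 0 := fun r => by
    rw [xi_eq (r + a)]
    split_ifs with h
    · have : ((p : ℤ) ∣ (r : ℤ) + b) ↔ (p : ℤ) ∣ a - b := by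
        rw [show a - b = ((r : ℤ) + a) - (r + b) by ring]
        exact (dvd_sub_right h).symm
      simp only [xi, this]; ring
    · ring
  simp only [h, sum_sub_distrib, ← mul_sum, sum_dvd_one (show 0 < p by omega), sum_xi hp,
    ← mul_ww hp]
  ring

end Local

section Comb

variable {ι : Type} [Fintype ι] [DecidableEq ι]

lemma sum_prod_ite (f g : ι → ℝ) :
    ∑ T : Finset ι, ∏ i, (if i ∈ T then f i else g i) = ∏ i, (f i + g i) := by
  rw [prod_add, powerset_univ]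
  refine sum_congr rfl fun T _ => ?_
  rw [prod_ite]
  congr 2
  · ext i; simp
  · ext i; simp

lemma sum_pair (F : ι → Bool → Bool → ℝ) :
    ∑ T : Finset ι, ∑ U : Finset ι, ∏ i, F i (decide (i ∈ T)) (decide (i ∈ U)) =
      ∏ i, (F i false false + F i true false + F i false true + F i true true) := by
  have h1 : ∀ T : Finset ι, ∑ U : Finset ι, ∏ i, F i (decide (i ∈ T)) (decide (i ∈ U)) =
      ∏ i, (if i ∈ T then F i true true + F i true false else F i false true + F i false false) :=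
    fun T => by
      have := sum_prod_ite (fun i => F i (decide (i ∈ T)) true) fun i => F i (decide (i ∈ T)) false
      refine Eq.trans (sum_congr rfl fun U _ => prod_congr rfl fun i _ => ?_)
        (this.trans (prod_congr rfl fun i _ => ?_))
      · by_cases h : i ∈ U <;> simp [h]
      · by_cases h : i ∈ T <;> simp [h]
  simp only [h1, sum_prod_ite]
  exact prod_congr rfl fun i _ => by ring

/-- the diagonal local matrix -/
def dg (a : ℝ) : Bool → Bool → ℝ
  | false, false => 1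
  | true, true => a
  | _, _ => 0

lemma prod_dg (a : ι → ℝ) (T U : Finset ι) :
    ∏ i, dg (a i) (decide (i ∈ T)) (decide (i ∈ U)) = if T = U then ∏ i ∈ T, a i else 0 := by
  split_ifs with h
  · subst h
    rw [← prod_ite_mem_eq T a]
    exact prod_congr rfl fun i _ => by by_cases h : i ∈ T <;> simp [h, dg]
  · obtain ⟨i, hi⟩ : ∃ i, ¬ (i ∈ T ↔ i ∈ U) := by
      by_contra h0; push Not at h0; exact h (Finset.ext h0)
    refine prod_eq_zero (mem_univ i) ?_
    by_cases h1 : i ∈ T <;> by_cases h2 : i ∈ U <;> simp_all [dg]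

lemma pair_le (y y' : Finset ι → ℝ) (u : ι → ℝ) {M : ℝ}
    (h : ∀ T U, |y T * y' U| ≤ M * ((∏ i ∈ T, u i) * ∏ i ∈ U, u i))
    (G : ι → Bool → Bool → ℝ) (hG : ∀ i a b, 0 ≤ G i a b) :
    ∑ T : Finset ι, ∑ U : Finset ι, |y T * y' U| * ∏ i, G i (decide (i ∈ T)) (decide (i ∈ U)) ≤
      M * ∏ i, (G i false false + u i * G i true false + u i * G i false true +
        u i ^ 2 * G i true true) := by
  have := sum_pair fun i a b => (if a then u i else 1) * (if b then u i else 1) * G i a b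
  simp only [Bool.false_eq_true, if_false, if_true, one_mul, mul_one, decide_eq_true_eq] at this
  simp only [sq]
  rw [← this, mul_sum]
  refine sum_le_sum fun T _ => ?_
  rw [mul_sum]
  refine sum_le_sum fun U _ => ?_
  rw [prod_mul_distrib, prod_mul_distrib, prod_ite_mem_eq, prod_ite_mem_eq, ← mul_assoc]
  exact mul_le_mul_of_nonneg_right (h T U) (prod_nonneg fun i _ => hG _ _ _)

variable {q : ι → ℕ} [hq : ∀ i, Fact (q i).Prime]

lemma two_le (i : ι) : 2 ≤ q i := (hq i).out.two_le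

lemma exp_lg (T : Finset ι) : Real.exp (lg q T) = ∏ i ∈ T, (q i : ℝ) := by
  rw [lg, Real.exp_sum]
  exact prod_congr rfl fun i _ => Real.exp_log (by exact_mod_cast (hq i).out.pos)

lemma exp_mul_lg (s : ℝ) (T : Finset ι) :
    Real.exp (s * lg q T) = ∏ i ∈ T, Real.exp (s * Real.log (q i)) := by
  rw [lg, mul_sum, Real.exp_sum]

lemma prodSum (hi : Function.Injective q) (θ : ι → ℕ → ℝ) (hθ : ∀ i n, θ i (n % q i) = θ i n)
    (h1 : ∀ i n, |θ i n| ≤ 1) (E : Finset ι) {N1 N2 : ℕ} (hN : N1 ≤ N2) :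
    |∑ m ∈ Ioc N1 N2, ∏ i ∈ E, θ i m -
      ((N2 : ℝ) - N1) * ∏ i ∈ E, ((q i : ℝ)⁻¹ * ∑ r ∈ range (q i), θ i r)| ≤
      4 * ∏ i ∈ E, (q i : ℝ) := by
  obtain ⟨c1, c2⟩ := crt_prod q (fun i => (hq i).out) hi one_ne_zero (fun i => by simp)
    (fun _ => 1) (fun _ => rfl) θ hθ E
  simp only [one_mul, range_one, sum_singleton] at c1 c2
  have h := periodic_Ioc (prod_ne_zero_iff.2 fun i (_ : i ∈ E) => (hq i).out.ne_zero)
    (fun n => ∏ i ∈ E, θ i n) c1 hN
  rw [c2] at h
  rw [prod_mul_distrib, prod_inv_distrib, ← mul_assoc, ← div_eq_mul_inv, ← Nat.cast_prod]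
  refine h.trans (mul_le_mul_of_nonneg_left ?_ (by norm_num))
  refine (sum_le_card_nsmul _ _ 1 fun n _ => ?_).trans (by simp)
  rw [abs_prod]
  exact prod_le_one (fun _ _ => abs_nonneg _) fun i _ => h1 i n

lemma corr (hi : Function.Injective q) (a b : ℤ) (T U : Finset ι) {N1 N2 : ℕ} (hN : N1 ≤ N2) :
    |∑ m ∈ Ioc N1 N2, Xi q T (m + a) * Xi q U (m + b) -
      ((N2 : ℝ) - N1) * if T = U then ∏ i ∈ T, -(ww (q i) * xi (q i) (a - b)) else 0| ≤
      4 * (Real.exp (lg q T) * Real.exp (lg q U)) := by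
  set θ : ι → ℕ → ℝ := fun i m => (if i ∈ T then xi (q i) (m + a) else 1) *
    if i ∈ U then xi (q i) (m + b) else 1 with hθ
  have h := prodSum hi θ (fun i n => by simp only [hθ, xi_mod]) (fun i n => by
    simp only [hθ, abs_mul]
    refine mul_le_one₀ ?_ (abs_nonneg _) ?_ <;> split_ifs <;>
      first | exact abs_xi_le (two_le i) _ | simp) (T ∪ U) hN
  have e1 : ∀ m : ℕ, ∏ i ∈ T ∪ U, θ i m = Xi q T (m + a) * Xi q U (m + b) := fun m => by
    simp only [hθ, prod_mul_distrib, prod_ite_mem, Xi]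
    simp
  have e2 : ∏ i ∈ T ∪ U, ((q i : ℝ)⁻¹ * ∑ r ∈ range (q i), θ i r) =
      if T = U then ∏ i ∈ T, -(ww (q i) * xi (q i) (a - b)) else 0 := by
    rw [← prod_dg, ← prod_subset (subset_univ (T ∪ U)) fun i _ h => by
      simp only [mem_union, not_or] at h; simp [h.1, h.2, dg]]
    refine prod_congr rfl fun i h => ?_
    have h0 : (q i : ℝ) ≠ 0 := by exact_mod_cast (hq i).out.ne_zero
    by_cases h1 : i ∈ T <;> by_cases h2 : i ∈ U
    · simp only [hθ, h1, h2, if_true, sum_xi_xi (two_le i), decide_true, dg]; field_simp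
    · simp [hθ, h1, h2, sum_xi (two_le i), dg]
    · simp [hθ, h1, h2, sum_xi (two_le i), dg]
    · simp [h1, h2] at h
  simp only [e1, e2] at h
  refine h.trans (mul_le_mul_of_nonneg_left ?_ (by norm_num))
  rw [exp_lg, exp_lg, ← prod_union_inter]
  exact le_mul_of_one_le_right (by positivity)
    (one_le_prod fun i _ => by exact_mod_cast (hq i).out.one_le)

lemma card_lg (hi : Function.Injective q) (Λ : ℝ) :
    ((univ.filter fun T => lg q T ≤ Λ).card : ℝ) ≤ Real.exp Λ := by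
  have hinj : Function.Injective fun T : Finset ι => ∏ i ∈ T, q i := fun T U h => by
    have e : ∀ T : Finset ι, (∏ i ∈ T, q i).primeFactors = T.image q := fun T => by
      rw [← prod_image (f := fun n : ℕ => n) hi.injOn]
      exact Nat.primeFactors_prod fun p hp => by
        obtain ⟨i, -, rfl⟩ := mem_image.1 hp; exact (hq i).out
    have := congrArg Nat.primeFactors h
    simp only [e] at this
    exact image_injective hi this
  rw [← card_image_of_injective _ hinj]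
  refine BV.card_le_real (Real.exp_pos _).le fun n hn => ?_
  obtain ⟨T, hT, rfl⟩ := mem_image.1 hn
  refine ⟨prod_pos fun i _ => (hq i).out.pos, ?_⟩
  rw [Nat.cast_prod, ← exp_lg]
  exact Real.exp_le_exp.2 (mem_filter.1 hT).2

lemma sum_exp_lg (hi : Function.Injective q) {y : Finset ι → ℝ} (hy : ∀ T, |y T| ≤ 1) {Λ : ℝ}
    (hs : ∀ T, y T ≠ 0 → lg q T ≤ Λ) :
    ∑ T, |y T| * Real.exp (lg q T) ≤ Real.exp (2 * Λ) := by
  rw [← sum_filter_of_ne (p := fun T => lg q T ≤ Λ) fun T _ h => hs T fun h0 => h (by simp [h0])]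
  refine (sum_le_card_nsmul _ _ (Real.exp Λ) fun T hT => ?_).trans ?_
  · exact (mul_le_of_le_one_left (Real.exp_pos _).le (hy T)).trans
      (Real.exp_le_exp.2 (mem_filter.1 hT).2)
  · rw [nsmul_eq_mul, two_mul, Real.exp_add]
    exact mul_le_mul_of_nonneg_right (card_lg hi Λ) (Real.exp_pos _).le

lemma corr_sum (hi : Function.Injective q) (a b : ℤ) {y y' : Finset ι → ℝ} (hy : ∀ T, |y T| ≤ 1)
    (hy' : ∀ T, |y' T| ≤ 1) {Λ : ℝ} (hs : ∀ T, y T ≠ 0 → lg q T ≤ Λ)
    (hs' : ∀ T, y' T ≠ 0 → lg q T ≤ Λ) {N1 N2 : ℕ} (hN : N1 ≤ N2) :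
    |∑ m ∈ Ioc N1 N2, S0 q y (m + a) * S0 q y' (m + b) -
      ((N2 : ℝ) - N1) * ∑ T, y T * y' T * ∏ i ∈ T, -(ww (q i) * xi (q i) (a - b))| ≤
      4 * Real.exp (4 * Λ) := by
  have e : ∑ m ∈ Ioc N1 N2, S0 q y (m + a) * S0 q y' (m + b) -
      ((N2 : ℝ) - N1) * ∑ T, y T * y' T * ∏ i ∈ T, -(ww (q i) * xi (q i) (a - b)) =
      ∑ T, ∑ U, y T * y' U * (∑ m ∈ Ioc N1 N2, Xi q T (m + a) * Xi q U (m + b) -
        ((N2 : ℝ) - N1) * if T = U then ∏ i ∈ T, -(ww (q i) * xi (q i) (a - b)) else 0) := by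
    simp only [S0, sum_mul_sum]
    simp only [mul_sub, sum_sub_distrib, mul_ite, mul_zero, sum_ite_eq, mem_univ, if_true, mul_sum]
    congr 1
    · rw [sum_comm]
      refine sum_congr rfl fun T _ => ?_
      rw [sum_comm]
      exact sum_congr rfl fun U _ => sum_congr rfl fun m _ => by ring
    · exact sum_congr rfl fun T _ => by ring
  rw [e]
  calc _ ≤ ∑ T, ∑ U, 4 * ((|y T| * Real.exp (lg q T)) * (|y' U| * Real.exp (lg q U))) := by
        refine (abs_sum_le_sum_abs _ _).trans (sum_le_sum fun T _ =>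
          (abs_sum_le_sum_abs _ _).trans (sum_le_sum fun U _ => ?_))
        rw [abs_mul, abs_mul]
        exact (mul_le_mul_of_nonneg_left (corr hi a b T U hN) (by positivity)).trans_eq (by ring)
    _ ≤ _ := by
        simp only [← mul_sum, ← sum_mul]
        rw [show 4 * Λ = 2 * Λ + 2 * Λ by ring, Real.exp_add]
        gcongr
        exacts [sum_exp_lg hi hy hs, sum_exp_lg hi hy' hs']

lemma sq_sum (hi : Function.Injective q) {y : Finset ι → ℝ} (hy : ∀ T, |y T| ≤ 1)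
    {Λ : ℝ} (hs : ∀ T, y T ≠ 0 → lg q T ≤ Λ) {N1 N2 : ℕ} (hN : N1 ≤ N2) :
    ∑ m ∈ Ioc N1 N2, S0 q y m ^ 2 ≤
      ((N2 : ℝ) - N1) * ∑ T, y T ^ 2 * wt q T + 4 * Real.exp (4 * Λ) := by
  have h := (le_abs_self _).trans (corr_sum hi 0 0 hy hy hs hs hN)
  simp only [add_zero, sub_zero, xi, dvd_zero, if_true, mul_neg, mul_one, neg_neg, ← sq] at h
  exact sub_le_iff_le_add'.1 h

/-- local majorant -/
def mj (p : ℕ) (d : ℤ) : ℝ := 1 + 3 * ww p * √p * |xi p d|

/-- global majorant -/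
def Pm (q : ι → ℕ) (d : ℤ) : ℝ := ∏ i, mj (q i) d

lemma one_le_mj {p : ℕ} (hp : 2 ≤ p) (d : ℤ) : 1 ≤ mj p d := by
  have := ww_nonneg hp
  exact le_add_of_nonneg_right (by positivity)

lemma one_le_Pm (d : ℤ) : 1 ≤ Pm q d := one_le_prod fun i _ => one_le_mj (two_le i) d

/-- the constant of the convergent Euler products -/
def CE : ℝ := Real.exp (12 * ∑' n : ℕ, (n : ℝ) ^ (-(3 / 2) : ℝ))

lemma CE_pos : 0 < CE := Real.exp_pos _

lemma prod_le_CE (hi : Function.Injective q) (a : ι → ℝ) (h0 : ∀ i, 0 ≤ a i)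
    (h : ∀ i, a i ≤ 12 * √(q i) / (q i : ℝ) ^ 2) : ∏ i, (1 + a i) ≤ CE := by
  have hs : Summable fun n : ℕ => (n : ℝ) ^ (-(3 / 2) : ℝ) := Real.summable_nat_rpow.2 (by norm_num)
  calc _ ≤ ∏ i, Real.exp (12 * (q i : ℝ) ^ (-(3 / 2) : ℝ)) := by
        refine prod_le_prod (fun i _ => by linarith [h0 i]) fun i _ => ?_
        have h1 : (0 : ℝ) < q i := by exact_mod_cast (hq i).out.pos
        have e : √(q i) / (q i : ℝ) ^ 2 = (q i : ℝ) ^ (-(3 / 2) : ℝ) := by
          rw [Real.sqrt_eq_rpow, ← Real.rpow_natCast, ← Real.rpow_sub h1]; norm_num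
        have := h i
        rw [mul_div_assoc, e] at this
        linarith [Real.add_one_le_exp (12 * (q i : ℝ) ^ (-(3 / 2) : ℝ))]
    _ ≤ _ := by
        rw [← Real.exp_sum, ← mul_sum, CE]
        gcongr
        rw [← sum_image (s := univ) (g := q) (f := fun n : ℕ => (n : ℝ) ^ (-(3 / 2) : ℝ)) hi.injOn]
        exact hs.sum_le_tsum _ fun _ _ => by positivity

lemma card_dvd_int {P K : ℕ} (hP : 0 < P) {H : Finset ℤ} (hH : ∀ d ∈ H, d ≠ 0 ∧ |d| ≤ K) :
    ((H.filter fun d => (P : ℤ) ∣ d).card : ℝ) ≤ 2 * K / P := by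
  have h1 : (H.filter fun d => (P : ℤ) ∣ d) ⊆
      ((Icc (-((K / P : ℕ) : ℤ)) (K / P : ℕ)).erase 0).image fun k => P * k := fun d hd => by
    obtain ⟨h1, k, rfl⟩ := mem_filter.1 hd
    obtain ⟨h2, h3⟩ := hH _ h1
    refine mem_image.2 ⟨k, mem_erase.2 ⟨right_ne_zero_of_mul h2, ?_⟩, rfl⟩
    rw [mem_Icc, ← abs_le, Int.natCast_div, Int.le_ediv_iff_mul_le (by exact_mod_cast hP)]
    rwa [abs_mul, Nat.abs_cast, mul_comm] at h3
  have h2 := (card_le_card h1).trans card_image_le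
  have h3 : (H.filter fun d => (P : ℤ) ∣ d).card ≤ 2 * (K / P) := by
    generalize K / P = k at h2 ⊢
    rw [card_erase_of_mem (by simp), Int.card_Icc] at h2
    omega
  calc _ ≤ ((2 * (K / P) : ℕ) : ℝ) := by exact_mod_cast h3
    _ ≤ _ := by rw [Nat.cast_mul, mul_div_assoc]; gcongr; exacts [by norm_num, Nat.cast_div_le]

lemma sum_Pm (hi : Function.Injective q) {K : ℕ} {H : Finset ℤ} (hH : ∀ d ∈ H, d ≠ 0 ∧ |d| ≤ K) :
    ∑ d ∈ H, Pm q d ≤ 2 * CE ^ 2 * K := by
  set a : ι → ℝ := fun i => 3 * ww (q i) * √(q i) with ha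
  have hw := fun i => ww_nonneg (two_le (q := q) i)
  have ha0 : ∀ i, 0 ≤ a i := fun i => by have := hw i; positivity
  have hq0 : ∀ i, (0 : ℝ) < q i := fun i => by exact_mod_cast (hq i).out.pos
  have h1 : ∀ d : ℤ, Pm q d ≤ CE * ∑ E : Finset ι,
      (∏ i ∈ E, a i) * if ((∏ i ∈ E, q i : ℕ) : ℤ) ∣ d then 1 else 0 := fun d => by
    calc _ ≤ ∏ i, (1 + a i * ww (q i)) * (1 + a i * if (q i : ℤ) ∣ d then 1 else 0) := by
          refine prod_le_prod (fun i _ => zero_le_one.trans (one_le_mj (two_le i) d)) fun i _ => ?_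
          have h1 := mul_le_mul_of_nonneg_left (abs_xi_le' (two_le (q := q) i) d) (ha0 i)
          have h2 : 0 ≤ a i * ww (q i) * (a i * if (q i : ℤ) ∣ d then 1 else 0) := by
            have := ha0 i; have := hw i; positivity
          change 1 + a i * _ ≤ _
          nlinarith
      _ ≤ _ := by
          rw [prod_mul_distrib, prod_one_add (f := fun i => a i * if (q i : ℤ) ∣ d then 1 else 0),
            powerset_univ]
          refine mul_le_mul (prod_le_CE hi _ (fun i => mul_nonneg (ha0 i) (hw i)) fun i => ?_)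
            (sum_le_sum fun E _ => ?_) (sum_nonneg fun E _ => prod_nonneg fun i _ => by
              have := ha0 i; positivity) CE_pos.le
          · have := ww_le (two_le (q := q) i)
            have := hw i
            calc a i * ww (q i) ≤ 3 * (2 / q i) * √(q i) * (2 / q i) := by simp only [ha]; gcongr
              _ = _ := by ring
          · rw [prod_mul_distrib, prod_boole]
            refine mul_le_mul_of_nonneg_left ?_ (prod_nonneg fun i _ => ha0 i)
            split_ifs with h1 h2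
            · rfl
            · refine absurd ?_ h2
              rw [Nat.cast_prod]
              exact prod_dvd_of_coprime (fun i _ j _ hne => Nat.isCoprime_iff_coprime.2
                ((Nat.coprime_primes (hq i).out (hq j).out).2 (hi.ne hne))) h1
            all_goals norm_num
  refine (sum_le_sum fun d _ => h1 d).trans ?_
  rw [← mul_sum, sum_comm]
  have h2 : ∑ E : Finset ι, ∑ d ∈ H,
      (∏ i ∈ E, a i) * (if ((∏ i ∈ E, q i : ℕ) : ℤ) ∣ d then 1 else 0) ≤
      2 * K * ∏ i, (1 + a i / q i) := by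
    rw [prod_one_add, powerset_univ, mul_sum]
    refine sum_le_sum fun E _ => ?_
    rw [← mul_sum, sum_boole, prod_div_distrib, ← Nat.cast_prod]
    exact (mul_le_mul_of_nonneg_left (card_dvd_int (prod_pos fun i _ => (hq i).out.pos) hH)
      (prod_nonneg fun i _ => ha0 i)).trans_eq (by ring)
  have h3 := prod_le_CE hi (fun i => a i / q i) (fun i => div_nonneg (ha0 i) (hq0 i).le) fun i => by
    have := ww_le (two_le (q := q) i)
    have := hq0 i
    calc a i / q i ≤ 3 * (2 / q i) * √(q i) / q i := by simp only [ha]; gcongr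
      _ = 6 * √(q i) / (q i : ℝ) ^ 2 := by field_simp; ring
      _ ≤ _ := by gcongr; norm_num
  have := CE_pos
  calc _ ≤ CE * (2 * K * CE) := by gcongr; exact h2.trans (by gcongr)
    _ = _ := by ring

lemma Pm_le (hi : Function.Injective q) {K : ℕ} {d : ℤ} (h0 : d ≠ 0) (h : |d| ≤ K) :
    Pm q d ≤ 2 * CE ^ 2 * K := by
  simpa using sum_Pm hi (H := {d}) (K := K) (by simp [h0, h])

end Comb

end

end Pool.Agent.Lib.MP_c702b2_nt
end

-- part Pool.Agent.Lib.MP_c702b2_nt.Nu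
section

/-! A Selberg majorant of the rough numbers. -/

set_option autoImplicit false
set_option linter.unusedSectionVars false

namespace Pool.Agent.Lib.MP_c702b2_nt

open Finset Filter Topology Pool.Agent.Lib.MP_fc51f7_nt

noncomputable section

/-- all prime factors have logarithm above `l` -/
def Rg (l : ℝ) (n : ℕ) : Prop := ∀ p : ℕ, p.Prime → p ∣ n → l < Real.log p

def cl (u : ℝ) : ℝ := max 0 (min 1 u)

lemma cl_mem (u : ℝ) : 0 ≤ cl u ∧ cl u ≤ 1 :=
  ⟨le_max_left _ _, max_le zero_le_one (min_le_left _ _)⟩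

lemma cl_one {u : ℝ} (h : 1 ≤ u) : cl u = 1 := by simp [cl, min_eq_left h]

lemma cl_zero {u : ℝ} (h : u ≤ 0) : cl u = 0 := max_eq_left ((min_le_right _ _).trans h)

lemma cl_lip (u v : ℝ) : |cl u - cl v| ≤ |u - v| := by
  unfold cl
  refine (abs_max_sub_max_le_max _ _ _ _).trans (max_le (by simp) ?_)
  exact (abs_min_sub_min_le_max _ _ _ _).trans (max_le (by simp) le_rfl)

section

variable {ι : Type} [Fintype ι] [DecidableEq ι] {q : ι → ℕ} [hq : ∀ i, Fact (q i).Prime]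

open Classical in
/-- the sieve weights -/
def gn (q : ι → ℕ) (l s : ℝ) (T : Finset ι) : ℝ :=
  if ∀ i ∈ T, Real.log (q i) ≤ l then cl (s - lg q T / l) else 0

variable {l s : ℝ}

lemma gn_mem (T : Finset ι) : 0 ≤ gn q l s T ∧ gn q l s T ≤ 1 := by
  unfold gn; split_ifs; exacts [cl_mem _, ⟨le_rfl, zero_le_one⟩]

lemma abs_gn (T : Finset ι) : |gn q l s T| ≤ 1 := by
  rw [abs_of_nonneg (gn_mem T).1]; exact (gn_mem T).2

lemma gn_supp (hl : 0 < l) (T : Finset ι) (h : gn q l s T ≠ 0) :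
    (∀ i ∈ T, Real.log (q i) ≤ l) ∧ lg q T ≤ s * l := by
  unfold gn at h
  split_ifs at h with h1
  · refine ⟨h1, (div_le_iff₀ hl).1 ?_⟩
    by_contra h2
    exact h (cl_zero (by linarith [not_le.1 h2]))
  · exact absurd rfl h

lemma S0_cop {y : Finset ι → ℝ} {n : ℕ} (h : ∀ T, y T ≠ 0 → ∀ i ∈ T, ¬ q i ∣ n) :
    S0 q y n = ∑ T, y T * wt q T := by
  refine sum_congr rfl fun T _ => ?_
  by_cases h0 : y T = 0
  · simp [h0]
  congr 1
  exact prod_congr rfl fun i hi => if_neg (by exact_mod_cast h T h0 i hi)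

lemma S0_rough (hl : 0 < l) {n : ℕ} (h : Rg l n) : S0 q (gn q l s) n = ∑ T, gn q l s T * wt q T :=
  S0_cop fun T h0 i hi hd => (h _ (hq i).out hd).not_ge ((gn_supp hl T h0).1 i hi)

lemma nu_sum (hi : Function.Injective q) (hl : 0 < l) {N1 N2 : ℕ} (hN : N1 ≤ N2) :
    ∑ m ∈ Ioc N1 N2, S0 q (gn q l s) m ^ 2 ≤
      ((N2 : ℝ) - N1) * ∑ T, gn q l s T * wt q T + 4 * Real.exp (4 * (s * l)) := by
  refine (sq_sum hi abs_gn (fun T h => (gn_supp hl T h).2) hN).trans ?_
  have : (0 : ℝ) ≤ N2 - N1 := sub_nonneg.2 (by exact_mod_cast hN)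
  gcongr with T
  · exact wt_nonneg q two_le T
  · exact pow_le_of_le_one (gn_mem T).1 (gn_mem T).2 two_ne_zero

lemma tail_le (hl : 0 < l)
    (hM : ∑ i with Real.log (q i) ≤ l, Real.log (q i) / q i ≤ 2 * l) :
    ∑ T with (∀ i ∈ T, Real.log (q i) ≤ l) ∧ (s - 2) * l ≤ lg q T, wt q T ≤
      Real.exp (26 - s) * Zf q l⁻¹ := by
  classical
  set a : ι → ℝ := fun i =>
    if Real.log (q i) ≤ l then Real.exp (l⁻¹ * Real.log (q i)) * ww (q i) else 0 with ha
  have hw := fun i => ww_nonneg (two_le (q := q) i)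
  have ha0 : ∀ i, 0 ≤ a i := fun i => by
    have := hw i; simp only [ha]; split_ifs <;> positivity
  calc _ ≤ ∑ T : Finset ι, Real.exp (2 - s) * ∏ i ∈ T, a i := by
        rw [sum_filter]
        refine sum_le_sum fun T _ => ?_
        split_ifs with h
        · rw [prod_congr rfl fun i hi => if_pos (h.1 i hi), prod_mul_distrib, ← exp_mul_lg,
            ← mul_assoc, ← Real.exp_add]
          refine le_mul_of_one_le_left (wt_nonneg q two_le T) (Real.one_le_exp ?_)
          have := (le_inv_mul_iff₀' hl).2 h.2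
          linarith
        · exact mul_nonneg (Real.exp_pos _).le (prod_nonneg fun i _ => ha0 i)
    _ ≤ Real.exp (2 - s) * ∏ i, ((1 + Real.exp (-(l⁻¹ * Real.log (q i))) * ww (q i)) *
          Real.exp (if Real.log (q i) ≤ l then 12 / l * (Real.log (q i) / q i) else 0)) := by
        rw [← mul_sum, ← powerset_univ, ← prod_one_add]
        refine mul_le_mul_of_nonneg_left (prod_le_prod (fun i _ => by linarith [ha0 i])
          fun i _ => ?_) (Real.exp_pos _).le
        have h1 := hw i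
        have h2 := ww_le (two_le (q := q) i)
        have h3 := Real.log_natCast_nonneg (q i)
        simp only [ha]
        split_ifs with h
        · set u := l⁻¹ * Real.log (q i) with hu
          have u0 : 0 ≤ u := by positivity
          have u1 : u ≤ 1 := by rw [hu, inv_mul_le_iff₀ hl]; linarith
          have b1 : Real.exp u ≤ 3 := (Real.exp_le_exp.2 u1).trans Real.exp_one_lt_three.le
          have b2 := Real.add_one_le_exp (-(2 * u))
          have b3 : Real.exp u * Real.exp (-(2 * u)) = Real.exp (-u) := by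
            rw [← Real.exp_add]; congr 1; ring
          have b4 : Real.exp u ≤ Real.exp (-u) + 6 * u := by
            nlinarith [Real.exp_pos u]
          have b5 := Real.add_one_le_exp (12 / l * (Real.log (q i) / q i))
          have b6 : 6 * u * ww (q i) ≤ 12 / l * (Real.log (q i) / q i) :=
            (mul_le_mul_of_nonneg_left h2 (by positivity)).trans_eq (by rw [hu]; ring)
          have b7 : 0 ≤ Real.exp (-u) * ww (q i) := by positivity
          have b8 : 0 ≤ 12 / l * (Real.log (q i) / q i) := by positivity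
          nlinarith [mul_le_mul_of_nonneg_right b4 h1, mul_le_mul_of_nonneg_left b5 b7,
            mul_nonneg b7 b8]
        · simp only [Real.exp_zero, mul_one, add_zero]
          exact le_add_of_nonneg_right (by positivity)
    _ ≤ _ := by
        rw [prod_mul_distrib, ← Real.exp_sum, ← sum_filter, ← mul_sum, mul_comm (∏ i, _),
          ← mul_assoc, ← Real.exp_add]
        refine mul_le_mul (Real.exp_le_exp.2 ?_) le_rfl
          (zero_le_one.trans (one_le_Zf q two_le l⁻¹)) (Real.exp_pos _).le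
        have : 12 / l * ∑ i with Real.log (q i) ≤ l, Real.log (q i) / q i ≤ 12 / l * (2 * l) := by
          gcongr
        rw [show 12 / l * (2 * l) = 24 by field_simp; ring] at this
        linarith

lemma dif_gn (hl : 0 < l) {i : ι} (hi : Real.log (q i) ≤ l) (T : Finset ι) :
    dif (gn q l s) i T ^ 2 ≤ Real.log (q i) / l *
      if (∀ i ∈ T, Real.log (q i) ≤ l) ∧ (s - 2) * l ≤ lg q T then 1 else 0 := by
  have h0 : 0 ≤ Real.log (q i) / l := div_nonneg (Real.log_natCast_nonneg _) hl.le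
  have h1 : Real.log (q i) / l ≤ 1 := (div_le_one hl).2 hi
  unfold dif
  by_cases h2 : i ∈ T
  · rw [if_pos h2]; split_ifs <;> simp [h0]
  rw [if_neg h2]
  by_cases h3 : ∀ i ∈ T, Real.log (q i) ≤ l
  · have e : lg q (insert i T) / l = Real.log (q i) / l + lg q T / l := by
      rw [lg, sum_insert h2, add_div]; rfl
    rw [gn, gn, if_pos h3, if_pos (by simpa [hi] using h3), e]
    split_ifs with h4
    · have := cl_lip (s - lg q T / l) (s - (Real.log (q i) / l + lg q T / l))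
      rw [show s - lg q T / l - (s - (Real.log (q i) / l + lg q T / l)) = Real.log (q i) / l by ring,
        abs_of_nonneg h0] at this
      rw [← sq_abs]
      nlinarith [abs_nonneg (cl (s - lg q T / l) - cl (s - (Real.log (q i) / l + lg q T / l)))]
    · have h5 : lg q T / l < s - 2 := by
        rw [div_lt_iff₀ hl]; exact not_le.1 fun h => h4 ⟨h3, h⟩
      rw [cl_one (by linarith), cl_one (by linarith)]; simp
  · rw [gn, gn, if_neg h3, if_neg fun h => h3 fun j hj => h j (mem_insert_of_mem hj),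
      if_neg fun h => h3 h.1]
    simp

open Classical in
lemma nu_bad (hi : Function.Injective q) (hl : 0 < l)
    (hM : ∑ i with Real.log (q i) ≤ l, Real.log (q i) / q i ≤ 2 * l)
    (hall : ∀ p : ℕ, p.Prime → Real.log p ≤ l → ∃ i, q i = p) (N : ℕ) :
    ∑ m ∈ Ioc 0 N with ¬ Rg l m, S0 q (gn q l s) m ^ 2 ≤
      N * (2 * (Real.exp (26 - s) * Zf q l⁻¹)) + Real.exp l * (4 * Real.exp (4 * (s * l))) := by
  have ht := tail_le (s := s) hl hM
  set τ := ∑ T with (∀ i ∈ T, Real.log (q i) ≤ l) ∧ (s - 2) * l ≤ lg q T, wt q T with hτ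
  have hτ0 : 0 ≤ τ := sum_nonneg fun T _ => wt_nonneg q two_le T
  calc _ ≤ ∑ m ∈ Ioc 0 N, ∑ i with Real.log (q i) ≤ l,
          if q i ∣ m then S0 q (gn q l s) m ^ 2 else 0 := by
        rw [sum_filter]
        refine sum_le_sum fun m _ => ?_
        have h0 : ∀ i ∈ univ.filter fun i => Real.log (q i) ≤ l,
            0 ≤ if q i ∣ m then S0 q (gn q l s) m ^ 2 else 0 := fun i _ => by positivity
        split_ifs with h
        · exact sum_nonneg h0
        · simp only [Rg, not_forall, not_lt] at h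
          obtain ⟨p, h1, h2, h3⟩ := h
          obtain ⟨i, rfl⟩ := hall p h1 h3
          simpa [h2] using single_le_sum h0 (a := i) (by simpa using h3)
    _ ≤ ∑ i with Real.log (q i) ≤ l, (N * τ / l * (Real.log (q i) / q i) +
          4 * Real.exp (4 * (s * l))) := by
        rw [sum_comm]
        refine sum_le_sum fun i h => ?_
        have h1 := (mem_filter.1 h).2
        have h2 := (hq i).out.pos
        have e : ∑ m ∈ Ioc 0 N, (if q i ∣ m then S0 q (gn q l s) m ^ 2 else 0) =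
            ∑ k ∈ Ioc 0 (N / q i), S0 q (dif (gn q l s) i) k ^ 2 := by
          rw [← sum_filter]
          symm
          refine sum_bij (fun k _ => q i * k) (fun k hk => ?_) (fun a _ b _ h => ?_)
            (fun m hm => ?_) fun k _ => ?_
          · simp only [mem_filter, mem_Ioc, Nat.le_div_iff_mul_le h2] at hk ⊢
            exact ⟨⟨Nat.mul_pos h2 hk.1, by linarith [hk.2]⟩, dvd_mul_right _ _⟩
          · exact Nat.eq_of_mul_eq_mul_left h2 h
          · simp only [mem_filter, mem_Ioc] at hm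
            obtain ⟨h3, k, rfl⟩ := hm
            exact ⟨k, mem_Ioc.2 ⟨Nat.pos_of_mul_pos_left h3.1,
              (Nat.le_div_iff_mul_le h2).2 (by linarith [h3.2])⟩, rfl⟩
          · rw [S0_dif q _ i (m := (q i * k : ℕ)) (by simp)]
            congr 1
            refine sum_congr rfl fun T _ => ?_
            by_cases h3 : i ∈ T
            · simp [dif, h3]
            congr 1
            refine prod_congr rfl fun j hj => ?_
            have : ((q j : ℤ) ∣ (q i * k : ℕ)) ↔ (q j : ℤ) ∣ k := by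
              rw [Int.natCast_dvd_natCast, Int.natCast_dvd_natCast]
              exact ((Nat.coprime_primes (hq j).out (hq i).out).2
                (hi.ne fun h => h3 (h ▸ hj))).dvd_mul_left
            simp only [xi, this]
        rw [e]
        refine (sq_sum hi (Λ := s * l) (fun T => ?_) (fun T h => ?_) (Nat.zero_le _)).trans ?_
        · unfold dif; split_ifs
          · simp
          · have := gn_mem (q := q) (l := l) (s := s) T
            have := gn_mem (q := q) (l := l) (s := s) (insert i T)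
            rw [abs_le]; constructor <;> linarith
        · unfold dif at h
          split_ifs at h with h3
          · exact absurd rfl h
          by_cases h4 : gn q l s T = 0
          · have := (gn_supp hl _ fun h5 => h (by rw [h4, h5, sub_zero])).2
            rw [lg, sum_insert h3] at this
            exact le_trans (le_add_of_nonneg_left (Real.log_natCast_nonneg _)) this
          · exact (gn_supp hl _ h4).2
        · have h3 : ∑ T, dif (gn q l s) i T ^ 2 * wt q T ≤ Real.log (q i) / l * τ := by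
            rw [hτ, sum_filter, mul_sum]
            refine sum_le_sum fun T _ => (mul_le_mul_of_nonneg_right (dif_gn hl h1 T)
              (wt_nonneg q two_le T)).trans_eq ?_
            split_ifs <;> simp
          rw [Nat.cast_zero, sub_zero]
          refine add_le_add ((mul_le_mul Nat.cast_div_le h3 (sum_nonneg fun T _ =>
            mul_nonneg (sq_nonneg _) (wt_nonneg q two_le T)) (by positivity)).trans_eq ?_) le_rfl
          ring
    _ ≤ _ := by
        rw [sum_add_distrib, ← mul_sum, sum_const, nsmul_eq_mul]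
        refine add_le_add ((mul_le_mul_of_nonneg_left hM (by positivity)).trans ?_) ?_
        · rw [show N * τ / l * (2 * l) = N * (2 * τ) by field_simp]; gcongr
        · refine mul_le_mul_of_nonneg_right ?_ (by positivity)
          rw [← card_image_of_injective _ hi]
          refine BV.card_le_real (Real.exp_pos _).le fun n hn => ?_
          obtain ⟨i, h, rfl⟩ := mem_image.1 hn
          exact ⟨(hq i).out.pos, (Real.log_le_iff_le_exp (by exact_mod_cast (hq i).out.pos)).1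
            (mem_filter.1 h).2⟩

lemma exists_cop (hi : Function.Injective q) {χ : Ch q} (h : χ ≠ 1) :
    ∃ m : ℕ, (∀ j, m.Coprime (q j)) ∧ ev q χ m ≠ 1 := by
  obtain ⟨i, h1⟩ := Function.ne_iff.1 h
  obtain ⟨u, hu⟩ := MulChar.ne_one_iff.1 h1
  obtain ⟨m, h1, h2⟩ := Nat.chineseRemainder (LS.coprime_rest q hi i) (u : ZMod (q i)).val 1
  have m1 : (m : ZMod (q i)) = u := by
    rw [(ZMod.natCast_eq_natCast_iff _ _ _).2 h1, ZMod.natCast_zmod_val]
  have m2 : ∀ j, j ≠ i → (m : ZMod (q j)) = 1 := fun j hj => by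
    rw [(ZMod.natCast_eq_natCast_iff _ _ _).2
      (h2.of_dvd (dvd_prod_of_mem q (mem_erase.2 ⟨hj, mem_univ _⟩))), Nat.cast_one]
  refine ⟨m, fun j => ?_, ?_⟩
  · rw [← ZMod.isUnit_iff_coprime]
    by_cases hj : j = i
    · subst hj; rw [m1]; exact u.isUnit
    · rw [m2 j hj]; exact isUnit_one
  · rw [LS.ev_eq, prod_eq_single i (fun j _ hj => by simp [m2 j hj]) (by simp), m1,
      if_pos (by assumption)]
    exact hu

lemma twist (hi : Function.Injective q) {χ : Ch q} (h : χ ≠ 1) (T U : Finset ι) (A B : ℕ) :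
    ‖∑ n ∈ Ico A B, ((Xi q T n * Xi q U n : ℝ) : ℂ) * ev q χ n‖ ≤
      Real.exp (lg q T) * Real.exp (lg q U) * MP_fc51f7_nt.cond q χ := by
  set P := (∏ i ∈ T, q i) * (∏ i ∈ U, q i) * MP_fc51f7_nt.cond q χ with hP
  set g : ℕ → ℂ := fun n => ((Xi q T n * Xi q U n : ℝ) : ℂ) * ev q χ n with hg
  have P0 : 0 < P := Nat.mul_pos (Nat.mul_pos (prod_pos fun i _ => (hq i).out.pos)
    (prod_pos fun i _ => (hq i).out.pos)) (BV.cond_pos χ)
  have hX : ∀ (V : Finset ι) (a b : ℕ), (∀ i ∈ V, q i ∣ a ↔ q i ∣ b) → Xi q V a = Xi q V b :=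
    fun V a b h => prod_congr rfl fun i hi => by simp only [xi, Int.natCast_dvd_natCast, h i hi]
  have hp : ∀ n, g (n + P) = g n := fun n => by
    simp only [hg]
    rw [LS.ev_add q χ n (dvd_mul_left _ _), hX T _ n fun i hi => Nat.dvd_add_left
      (((dvd_prod_of_mem q hi).mul_right _).mul_right _), hX U _ n fun i hi => Nat.dvd_add_left
      (((dvd_prod_of_mem q hi).mul_left _).mul_right _)]
  have hX1 : ∀ (V : Finset ι) (a : ℤ), |Xi q V a| ≤ 1 := fun V a => by
    rw [Xi, abs_prod]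
    exact prod_le_one (fun _ _ => abs_nonneg _) fun i _ => abs_xi_le (two_le i) _
  have h1 : ∀ n, ‖g n‖ ≤ 1 := fun n => by
    simp only [hg, norm_mul, Complex.norm_real, Real.norm_eq_abs]
    exact mul_le_one₀ (mul_le_one₀ (hX1 _ _) (abs_nonneg _) (hX1 _ _)) (norm_nonneg _)
      (LS.norm_ev_le q χ n)
  obtain ⟨m, m1, m2⟩ := exists_cop hi h
  have hc : m.Coprime P := Nat.Coprime.mul_right (Nat.Coprime.mul_right
    (Nat.Coprime.prod_right fun j _ => m1 j) (Nat.Coprime.prod_right fun j _ => m1 j))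
    (Nat.Coprime.prod_right fun j _ => m1 j)
  have hmod : ∀ n, g (n % P) = g n := fun n => Function.Periodic.map_mod_nat hp n
  have hinj : Set.InjOn (fun n => m * n % P) (range P : Finset ℕ) := fun a ha b hb h =>
    Nat.ModEq.eq_of_lt_of_lt (Nat.ModEq.cancel_left_of_coprime hc.symm h)
      (mem_range.1 ha) (mem_range.1 hb)
  have him : (range P).image (fun n => m * n % P) = range P :=
    eq_of_subset_of_card_le (image_subset_iff.2 fun n _ => mem_range.2 (Nat.mod_lt _ P0))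
      (by rw [card_image_of_injOn hinj])
  have e : ∑ n ∈ range P, g n = ev q χ m * ∑ n ∈ range P, g n := by
    conv_lhs => rw [← him, sum_image hinj]
    rw [mul_sum]
    refine sum_congr rfl fun n _ => ?_
    rw [hmod]
    simp only [hg]
    rw [LS.ev_mul, hX T _ n fun i _ => (m1 i).symm.dvd_mul_left,
      hX U _ n fun i _ => (m1 i).symm.dvd_mul_left]
    ring
  have e2 : (1 - ev q χ m) * ∑ n ∈ range P, g n = 0 := by linear_combination e
  refine (LS.norm_sum_Ico_le P0 hp h1 ((mul_eq_zero.1 e2).resolve_left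
    (sub_ne_zero.2 m2.symm)) A B).trans_eq ?_
  rw [hP, exp_lg, exp_lg]; push_cast; rfl

lemma nu_twist (hi : Function.Injective q) (hl : 0 < l) {χ : Ch q} (h : χ ≠ 1) (N : ℕ) :
    ‖∑ n ∈ Ioc 0 N, ((S0 q (gn q l s) n ^ 2 : ℝ) : ℂ) * ev q χ n‖ ≤
      Real.exp (4 * (s * l)) * MP_fc51f7_nt.cond q χ := by
  have e : ∑ n ∈ Ioc 0 N, ((S0 q (gn q l s) n ^ 2 : ℝ) : ℂ) * ev q χ n = ∑ T, ∑ U,
      (gn q l s T * gn q l s U : ℝ) *
        ∑ n ∈ Ico 1 (N + 1), ((Xi q T n * Xi q U n : ℝ) : ℂ) * ev q χ n := by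
    simp only [S0, sq, Complex.ofReal_sum, sum_mul, mul_sum]
    rw [sum_comm]
    refine sum_congr rfl fun T _ => ?_
    rw [sum_comm]
    refine sum_congr rfl fun U _ => sum_congr (by ext n; simp only [mem_Ioc, mem_Ico]; omega)
      fun n _ => by push_cast; ring
  have h1 := sum_exp_lg hi (abs_gn (q := q) (l := l) (s := s)) fun T h => (gn_supp hl T h).2
  rw [e]
  calc _ ≤ ∑ T, ∑ U, (|gn q l s T| * Real.exp (lg q T)) * (|gn q l s U| * Real.exp (lg q U)) *
          MP_fc51f7_nt.cond q χ := by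
        refine (norm_sum_le _ _).trans (sum_le_sum fun T _ =>
          (norm_sum_le _ _).trans (sum_le_sum fun U _ => ?_))
        rw [norm_mul, Complex.norm_real, Real.norm_eq_abs, abs_mul]
        exact (mul_le_mul_of_nonneg_left (twist hi h T U _ _) (by positivity)).trans_eq (by ring)
    _ ≤ _ := by
        simp only [← sum_mul, ← mul_sum]
        rw [show 4 * (s * l) = 2 * (s * l) + 2 * (s * l) by ring, Real.exp_add]
        gcongr

end

lemma BB_one (x : ℕ) : BB 1 x = Real.log x := by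
  simp [BB, show Nat.primesLE 1 = ∅ by decide]

lemma wt_Ioc {a b : ℝ} (ha : 0 < a) (hab : a ≤ b) :
    Tendsto (fun x : ℕ => (∑ T with a < lg (qq 1 x) T / Real.log x ∧
      lg (qq 1 x) T / Real.log x ≤ b, wt (qq 1 x) T) / Real.log x) atTop (𝓝 (b - a)) := by
  have h := (conv_nu 1).Ioc ha hab (g := fun _ => 1) continuousOn_const
  simpa [BB_one, sum_div] using h

lemma nu_ev {η s : ℝ} (hη : 0 < η) (hs : 2 ≤ s) : ∀ᶠ x : ℕ in atTop,
    η * Real.log x / 4 ≤ ∑ T, gn (qq 1 x) (η * Real.log x) s T * wt (qq 1 x) T ∧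
    ∑ i with Real.log (qq 1 x i) ≤ η * Real.log x, Real.log (qq 1 x i) / qq 1 x i ≤
      2 * (η * Real.log x) ∧
    Zf (qq 1 x) (η * Real.log x)⁻¹ ≤ 2 * (η * Real.log x) ∧
    ∀ p : ℕ, p.Prime → Real.log p ≤ η * Real.log x → ∃ i, qq 1 x i = p := by
  have h1 := (wt_Ioc (half_pos hη) (half_le_self hη.le)).eventually_const_le
    (show η / 4 < η - η / 2 by linarith)
  have h2 := ((conv_pi 1).le hη (g := fun _ => 1) continuousOn_const).eventually_le_const
    (u := 2 * η) (by simp; linarith)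
  have h3 := (Zf_tendsto 1 (inv_pos.2 hη)).eventually_le_const (u := 2 * η) (by simp; linarith)
  filter_upwards [h1, h2, h3, BV.log_ev, Meas.tendsto_L.eventually_ge_atTop η]
    with x h1 h2 h3 hL hL'
  have hL0 : 0 < Real.log x := by linarith
  refine ⟨?_, ?_, ?_, fun p hp h => ⟨⟨p, mem_filter.2 ⟨mem_Ioc.2 ⟨hp.one_lt, Nat.le_floor ?_⟩, hp⟩⟩,
    rfl⟩⟩
  · rw [le_div_iff₀ hL0, sum_filter] at h1
    refine le_trans (by linarith) (h1.trans (sum_le_sum fun T _ => ?_))
    split_ifs with h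
    · have h4 : lg (qq 1 x) T ≤ η * Real.log x := (div_le_iff₀ hL0).1 h.2
      rw [gn, if_pos fun i hi => (single_le_sum (f := fun i => Real.log (qq 1 x i))
        (fun _ _ => Real.log_natCast_nonneg _) hi).trans h4, cl_one, one_mul]
      linarith [(div_le_one (mul_pos hη hL0)).2 h4]
    · exact mul_nonneg (gn_mem T).1 (wt_nonneg _ two_le T)
  · simp only [mul_one, div_le_iff₀ hL0, ← div_div, ← sum_div] at h2
    linarith
  · rw [BB_one, div_le_iff₀ hL0] at h3
    rw [mul_inv, ← div_eq_mul_inv]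
    linarith
  · rw [← Real.log_le_iff_le_exp (by exact_mod_cast hp.pos)]
    nlinarith

end

end Pool.Agent.Lib.MP_c702b2_nt
end

-- part Pool.Agent.Lib.MP_c702b2_nt.Bil
section

/-! Bilinear sums of functions with a controlled character expansion. -/

set_option autoImplicit false
set_option linter.unusedSectionVars false

namespace Pool.Agent.Lib.MP_c702b2_nt

open Finset Filter Topology Pool.Agent.Lib.MP_fc51f7_nt BV

noncomputable section

/-- `F = c +` a combination of nontrivial characters with small coefficients and conductors -/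
def Ok (x : ℕ) (η0 κ A : ℝ) (F : ℕ → ℝ) (c : ℝ) : Prop :=
  ∃ C : Ch (qq 1 x) → ℂ,
    (∀ n, (F n : ℂ) = c + ∑ χ ∈ univ.erase (1 : Ch (qq 1 x)), C χ * ev (qq 1 x) χ n) ∧
    (∀ χ, ‖C χ‖ ≤ A * (MP_fc51f7_nt.cond (qq 1 x) χ : ℝ) ^ (κ - 1)) ∧
    ∀ χ, C χ ≠ 0 → (MP_fc51f7_nt.cond (qq 1 x) χ : ℝ) ≤ Real.exp ((1 / 2 - η0) * Real.log x)

lemma exp_ev {s : ℝ} (hs : 0 < s) (C : ℝ) :
    ∀ᶠ x : ℕ in atTop, C * Real.log x ^ 7 ≤ Real.exp (s * Real.log x) := by
  filter_upwards [log_pow_ev hs C, eventually_gt_atTop 0] with x h hx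
  rwa [Real.rpow_def_of_pos (by exact_mod_cast hx), mul_comm _ s] at h

lemma exp_ev' {s : ℝ} (hs : 0 < s) (C : ℝ) :
    ∀ᶠ x : ℕ in atTop, C ≤ Real.exp (s * Real.log x) :=
  (Real.tendsto_exp_atTop.comp (Meas.tendsto_L.const_mul_atTop hs)).eventually_ge_atTop C

lemma Rg.lt {l : ℝ} {m p : ℕ} (h : Rg l m) (hp : p.Prime) (hd : p ∣ m) : Real.exp l < p :=
  (Real.lt_log_iff_exp_lt (by exact_mod_cast hp.pos)).1 (h p hp hd)

lemma Rg.lt_self {l : ℝ} {m : ℕ} (h : Rg l m) (hm : 1 < m) : Real.exp l < m :=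
  (h.lt (Nat.minFac_prime hm.ne') (Nat.minFac_dvd m)).trans_le
    (by exact_mod_cast Nat.minFac_le (by omega))

lemma box1 {η0 η δ ε A : ℝ} (hη : 0 < η) (hη0 : η ≤ η0) (hη1 : η ≤ 1) (hδ : 0 < δ) (hε : 0 < ε)
    (hA : 0 < A) : ∀ᶠ x : ℕ in atTop, ∀ F c, Ok x η0 (η / 200) A F c → ∀ (j hi : ℕ) (S : Finset ℕ),
      (∀ m ∈ S, 1 < m ∧ Rg (η * Real.log x) m ∧ box δ m = j) →
      (hi : ℝ) ≤ x * Real.exp (-((j + 1) * δ)) →
      |∑ m ∈ S, ∑ p ∈ Ioc ⌊Real.exp (η * Real.log x)⌋₊ hi with p.Prime,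
        Real.log p * (F (p * m) - c)| ≤ ε * x / Real.log x := by
  classical
  set s := η / 200 with hs
  have hs0 : 0 < s := by positivity
  obtain ⟨Q, hQ1, hQ2⟩ : ∃ Q : ℕ, 1 ≤ Q ∧ 27 * A / (ε * s ^ 2) ≤ √Q := by
    obtain ⟨Q, h1, h2⟩ := ((eventually_ge_atTop 1).and
      ((Real.tendsto_sqrt_atTop.comp tendsto_natCast_atTop_atTop).eventually_ge_atTop
        (27 * A / (ε * s ^ 2)))).exists
    exact ⟨Q, h1, h2⟩
  set e1 := ε * s / (900 * A * (1 + (Q : ℝ) ^ 2)) with he1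
  have he10 : 0 < e1 := by positivity
  obtain ⟨t0, ht0⟩ := small_cond 1 Q 0 hQ1 he10
  filter_upwards [log_ev, exp_ev hs0 (9000 * A / ε), exp_ev' hs0 4, exp_ev' hη (t0 + 1),
    eventually_gt_atTop 0] with x hL hsm hY ht hx F c ⟨C, hC1, hC2, hC3⟩ j hi S hS hhi
  set L := Real.log x with hLdef
  set Y := Real.exp (s * L) with hYdef
  have hx0 : (0 : ℝ) < x := by exact_mod_cast hx
  have hxe : Real.exp L = x := Real.exp_log hx0
  have hL0 : 0 < L := by linarith
  have hY0 : 0 < Y := by linarith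
  have hη' : Real.exp (η * L) = Y ^ 200 := by
    rw [hYdef, ← Real.exp_nat_mul]; congr 1; rw [hs]; push_cast; ring
  have hlY : Real.log Y = s * L := Real.log_exp _
  set S' := (Ioc ⌊Real.exp (η * L)⌋₊ hi).filter Nat.Prime with hS'
  rcases S.eq_empty_or_nonempty with rfl | ⟨m0, hm0⟩
  · rw [sum_empty, abs_zero]; positivity
  rcases S'.eq_empty_or_nonempty with h0 | ⟨p0, hp0⟩
  · simp only [h0, sum_empty, sum_const_zero, abs_zero]; positivity
  obtain ⟨r1, r2, r3, r4, r5, r6⟩ := level hY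
  set R := ⌊Y ^ 2⌋₊ with hR
  set M := Real.exp ((j + 1) * δ) with hM
  set N := x * Real.exp (-((j + 1) * δ)) with hN
  have hMN : M * N = x := by rw [hM, hN, Real.exp_neg]; field_simp
  have hY1 : (1 : ℝ) ≤ Y := by linarith
  have hY2 : Y ^ 2 ≤ Y ^ 200 := pow_le_pow_right₀ hY1 (by norm_num)
  have a1 : ∀ m ∈ S, 1 ≤ m ∧ (m : ℝ) ≤ M := fun m hm => by
    have h0 : (1 : ℝ) < m := by exact_mod_cast (hS m hm).1
    refine ⟨(hS m hm).1.le, ?_⟩
    rw [hM, ← Real.log_le_iff_le_exp (by linarith), ← div_le_iff₀ hδ, ← (hS m hm).2.2]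
    exact (Nat.lt_floor_add_one _).le
  have a2 : ∀ p ∈ S', p.Prime ∧ Y ^ 200 < p ∧ (p : ℝ) ≤ N := fun p hp => by
    simp only [hS', mem_filter, mem_Ioc] at hp
    exact ⟨hp.2, hη' ▸ Nat.lt_of_floor_lt hp.1.1, le_trans (by exact_mod_cast hp.1.2) hhi⟩
  have a3 : ∀ p ∈ S', 1 ≤ p ∧ (p : ℝ) ≤ N := fun p hp => ⟨(a2 p hp).1.pos, (a2 p hp).2.2⟩
  have hM1 : Y ^ 200 ≤ M := (hη' ▸ (hS m0 hm0).2.1.lt_self (hS m0 hm0).1).le.trans (a1 m0 hm0).2
  have hN1 : Y ^ 200 ≤ N := (a2 p0 hp0).2.1.le.trans (a2 p0 hp0).2.2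
  have a4 : ∀ m ∈ S, ∀ l : ℕ, l.Prime → l ∣ m → Y ^ 200 < l := fun m hm l hl hd =>
    hη' ▸ (hS m hm).2.1.lt hl hd
  have a5 : ∀ p ∈ S', ∀ l : ℕ, l.Prime → l ∣ p → Y ^ 200 < l := fun p hp l hl hd =>
    (Nat.prime_dvd_prime_iff_eq hl (a2 p hp).1).1 hd ▸ (a2 p hp).2.1
  have a6 : ∀ p ∈ S', |Real.log p| ≤ L := fun p hp => by
    have h1 : N ≤ x := mul_le_of_le_one_right (by positivity)
      (Real.exp_le_one_iff.2 (neg_nonpos.2 (by positivity)))
    have h2 : (0 : ℝ) < p := by exact_mod_cast (a2 p hp).1.pos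
    rw [abs_of_nonneg (Real.log_natCast_nonneg p)]
    exact Real.log_le_log h2 ((a2 p hp).2.2.trans h1)
  set Fl := ⌊Real.exp ((1 / 2 - η0) * L)⌋₊ with hF
  have hF1 : (Fl : ℝ) ≤ Real.exp ((1 / 2 - η0) * L) := Nat.floor_le (by positivity)
  have hF2 : (Fl : ℝ) ≤ x := hF1.trans (hxe ▸ Real.exp_le_exp.2 (by nlinarith))
  have hcp : ∀ χ : Ch (qq 1 x), (1 : ℝ) ≤ MP_fc51f7_nt.cond (qq 1 x) χ := fun χ => by
    exact_mod_cast cond_pos χ
  have w3 : ∀ χ, Fl < MP_fc51f7_nt.cond (qq 1 x) χ → ‖C χ‖ = 0 := fun χ h => by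
    by_contra h0
    exact h.not_ge (Nat.le_floor (hC3 χ (norm_ne_zero_iff.1 h0)))
  have key := box_bound (BV.qq_inj 1 x) (R := R) (Q := Q) (F := Fl) (M := M) (N := N) (c := L)
    (ε := e1) (C := A) (V := A * Y) (S := S) (S' := S')
    (a := fun _ => 1) (b := fun p => Real.log p) r1 (by omega) hL0.le he10.le
    hA.le (by positivity) a1 a3
    (fun m hm l hl hd => by exact_mod_cast (r2.trans hY2).trans_lt (a4 m hm l hl hd))
    (fun m hm l hl hd => by exact_mod_cast (r2.trans hY2).trans_lt (a5 m hm l hl hd))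
    (fun m hm => by simp) (fun p hp => by rw [Complex.norm_real]; exact a6 p hp)
    (r6 M hM1) (r6 N hN1) (by
      have d1 : M * (2 * (R : ℝ) ^ 2) ≤ M * N := by gcongr; linarith
      have d2 : N * (2 * (R : ℝ) ^ 2) ≤ N * M := by gcongr; linarith
      linarith) (by
      calc _ ≤ Real.exp ((1 / 2 - η0) * L) ^ 2 * (Y ^ 200) ^ 2 := by gcongr; exact r2.trans hY2
        _ ≤ _ := by
          rw [hMN, ← hη', ← mul_pow, ← Real.exp_add, ← Real.exp_nat_mul, ← hxe]
          exact Real.exp_le_exp.2 (by push_cast; nlinarith))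
    (fun χ => ‖C χ‖) (fun χ => by
      refine (hC2 χ).trans ?_
      rw [Real.sqrt_eq_rpow, div_eq_mul_inv, ← Real.rpow_neg (Nat.cast_nonneg _)]
      exact mul_le_mul_of_nonneg_left (Real.rpow_le_rpow_of_exponent_le (hcp χ) (by linarith))
        hA.le) (fun χ => by
      rcases le_or_gt (MP_fc51f7_nt.cond (qq 1 x) χ) Fl with h | h
      · refine (hC2 χ).trans ?_
        have := hcp χ
        rw [Real.rpow_sub_one (by positivity), mul_div_assoc]
        gcongr
        rw [hYdef, mul_comm, ← Real.rpow_def_of_pos hx0]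
        exact Real.rpow_le_rpow (Nat.cast_nonneg _) ((Nat.cast_le.2 h).trans hF2) hs0.le
      · rw [w3 χ h]; positivity) w3 (fun χ h1 h2 => by
      have := ht0 _ _ (BV.qq_inj 1 x) (lt_qq 1 x) χ ⌊Real.exp (η * L)⌋₊ hi 0 h1 h2
        (by linarith [Nat.lt_floor_add_one (Real.exp (η * L))])
      simp only [mul_zero, Nat.ModEq.refl, and_true] at this
      exact this.trans (by gcongr))
  have e2 : ((∑ m ∈ S, ∑ p ∈ S', Real.log p * (F (p * m) - c) : ℝ) : ℂ) =
      ∑ χ ∈ univ.erase (1 : Ch (qq 1 x)), C χ * ((∑ m ∈ S, 1 * ev (qq 1 x) χ m) *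
        ∑ p ∈ S', (Real.log p : ℂ) * ev (qq 1 x) χ p) := by
    simp only [Complex.ofReal_sum, Complex.ofReal_mul, Complex.ofReal_sub, hC1, add_sub_cancel_left,
      ev_mul, sum_mul_sum]
    simp only [mul_sum]
    rw [sum_comm (s := univ.erase (1 : Ch (qq 1 x)))]
    refine sum_congr rfl fun m _ => ?_
    rw [sum_comm (s := univ.erase (1 : Ch (qq 1 x)))]
    exact sum_congr rfl fun p _ => sum_congr rfl fun χ _ => by ring
  rw [← Real.norm_eq_abs, ← Complex.norm_real, e2]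
  refine ((norm_sum_le _ _).trans (sum_le_sum fun χ _ => by rw [norm_mul, norm_mul])).trans
    (key.trans ?_)
  have hsl : 0 < s * L := by positivity
  rw [hlY] at r4
  have f2 : 300 * A * (1 + (Q : ℝ) ^ 2) * e1 / Real.log R ≤ ε / 3 / L := by
    calc _ ≤ 300 * A * (1 + (Q : ℝ) ^ 2) * e1 / (s * L) := by gcongr
      _ = _ := by rw [he1]; field_simp; ring
  have f3 : 9 * A * L / (√Q * Real.log R ^ 2) ≤ ε / 3 / L := by
    calc _ ≤ 9 * A * L / (27 * A / (ε * s ^ 2) * (s * L) ^ 2) := by gcongr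
      _ = _ := by field_simp; ring
  have f4 : ((Nat.log 2 Fl + 1 : ℕ) : ℝ) * (500 * (A * Y) * L / R) ≤ ε / 3 / L := by
    have d1 := log_two_le hF2 hL (by exact_mod_cast hx)
    have d2 : L ^ 3 ≤ L ^ 7 := pow_le_pow_right₀ hL (by norm_num)
    calc _ ≤ 3 * L * (500 * (A * Y) * L / (Y ^ 2 / 2)) := by gcongr
      _ = ε / 3 / L * (9000 * A / ε * L ^ 3 / Y) := by field_simp; ring
      _ ≤ _ := mul_le_of_le_one_right (by positivity)
          ((div_le_one hY0).2 (le_trans (by gcongr) hsm))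
  rw [hMN]
  calc _ ≤ x * (ε / 3 / L + ε / 3 / L + ε / 3 / L) := by gcongr
    _ = _ := by ring

lemma bil {η0 η δ ε A : ℝ} (hη : 0 < η) (hη0 : η ≤ η0) (hη1 : η ≤ 1) (hδ : 0 < δ) (hε : 0 < ε)
    (hA : 0 < A) : ∀ᶠ x : ℕ in atTop, ∀ F c, Ok x η0 (η / 200) A F c → ∀ (S : Finset ℕ),
      (∀ m ∈ S, 1 < m ∧ m ≤ x ∧ Rg (η * Real.log x) m) →
      |∑ m ∈ S, ∑ p ∈ Ioc ⌊Real.exp (η * Real.log x)⌋₊ ⌊x * Real.exp (-((box δ m + 1) * δ))⌋₊ with
        p.Prime, Real.log p * (F (p * m) - c)| ≤ ε * x := by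
  filter_upwards [box1 hη hη0 hη1 hδ (ε := ε / (δ⁻¹ + 1)) (by positivity) hA, log_ev]
    with x hx hL F c hF S hS
  rw [← sum_fiberwise_of_maps_to (t := range (box δ x + 1)) (g := box δ) fun m hm => ?_]
  · refine (abs_sum_le_sum_abs _ _).trans ((sum_le_card_nsmul _ _
      (ε / (δ⁻¹ + 1) * x / Real.log x) fun k _ => ?_).trans ?_)
    · refine le_trans (le_of_eq ?_) (hx F c hF k ⌊x * Real.exp (-((k + 1) * δ))⌋₊
        (S.filter fun m => box δ m = k) (fun m hm => ?_) (Nat.floor_le (by positivity)))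
      · congr 1
        exact sum_congr rfl fun m hm => by rw [(mem_filter.1 hm).2]
      · have h1 := hS m (mem_filter.1 hm).1
        exact ⟨h1.1, h1.2.2, (mem_filter.1 hm).2⟩
    · rw [card_range, nsmul_eq_mul]
      have h1 : (box δ x : ℝ) ≤ Real.log x / δ := Nat.floor_le (by positivity)
      have h2 : ((box δ x + 1 : ℕ) : ℝ) ≤ (δ⁻¹ + 1) * Real.log x := by
        rw [div_eq_inv_mul] at h1
        push_cast
        linarith
      calc _ ≤ (δ⁻¹ + 1) * Real.log x * (ε / (δ⁻¹ + 1) * x / Real.log x) := by gcongr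
        _ = _ := by field_simp
  · have h1 := hS m hm
    refine mem_range.2 (Nat.lt_succ_of_le (Nat.floor_le_floor ?_))
    have : (0 : ℝ) < m := by exact_mod_cast h1.1.le
    gcongr
    exact h1.2.1

end

end Pool.Agent.Lib.MP_c702b2_nt
end

-- part Pool.Agent.Lib.MP_c702b2_nt.Apl
section

/-! A Bombieri-Vinogradov type upper bound for prime sums of nonnegative functions. -/

set_option autoImplicit false
set_option linter.unusedSectionVars false

namespace Pool.Agent.Lib.MP_c702b2_nt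

open Finset Filter Topology Pool.Agent.Lib.MP_fc51f7_nt BV

noncomputable section

open Classical in
def RR (l : ℝ) (N : ℕ) : Finset ℕ := (Ioc 0 N).filter (Rg l)

def lam (n : ℕ) : ℝ := ∑ p ∈ n.primeFactors, Real.log p

lemma mem_RR {l : ℝ} {N n : ℕ} : n ∈ RR l N ↔ (0 < n ∧ n ≤ N) ∧ Rg l n := by simp [RR]

lemma lam_le {n : ℕ} (hn : 0 < n) : lam n ≤ Real.log n := by
  rw [lam, ← Real.log_prod fun p hp => by exact_mod_cast (Nat.prime_of_mem_primeFactors hp).ne_zero,
    ← Nat.cast_prod]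
  exact Real.log_le_log (by exact_mod_cast prod_pos fun p hp => Nat.pos_of_mem_primeFactors hp)
    (by exact_mod_cast Nat.le_of_dvd hn (Nat.prod_primeFactors_dvd n))

lemma lam_eq {n : ℕ} (hn : Squarefree n) : lam n = Real.log n := by
  rw [lam, ← Real.log_prod fun p hp => by exact_mod_cast (Nat.prime_of_mem_primeFactors hp).ne_zero,
    ← Nat.cast_prod, Nat.prod_primeFactors_of_squarefree hn]

lemma reindex (l : ℝ) (N : ℕ) (F : ℕ → ℝ) : ∑ n ∈ RR l N, lam n * F n =
    ∑ m ∈ RR l N, ∑ p ∈ Ioc ⌊Real.exp l⌋₊ (N / m) with p.Prime, Real.log p * F (p * m) := by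
  simp only [lam, sum_mul]
  rw [sum_sigma', sum_sigma']
  refine sum_bij' (fun a _ => ⟨a.1 / a.2, a.2⟩) (fun a _ => ⟨a.2 * a.1, a.2⟩) ?_ ?_ ?_ ?_ ?_
  · rintro ⟨n, p⟩ h
    simp only [mem_sigma, mem_RR, Nat.mem_primeFactors, mem_filter, mem_Ioc] at h ⊢
    obtain ⟨⟨⟨h1, h2⟩, h3⟩, h4, ⟨k, rfl⟩, -⟩ := h
    have hk := Nat.pos_of_mul_pos_left h1
    rw [Nat.mul_div_cancel_left _ h4.pos, Nat.le_div_iff_mul_le hk]
    exact ⟨⟨⟨hk, (Nat.le_mul_of_pos_left _ h4.pos).trans h2⟩, fun r a b => h3 r a (b.mul_left _)⟩,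
      ⟨(Nat.floor_lt (Real.exp_pos _).le).2 (h3.lt h4 (dvd_mul_right _ _)), h2⟩, h4⟩
  · rintro ⟨m, p⟩ h
    simp only [mem_sigma, mem_RR, Nat.mem_primeFactors, mem_filter, mem_Ioc] at h ⊢
    obtain ⟨⟨⟨h1, -⟩, h3⟩, ⟨h4, h5⟩, h6⟩ := h
    have h7 := Nat.mul_pos h6.pos h1
    refine ⟨⟨⟨h7, (Nat.le_div_iff_mul_le h1).1 h5⟩, fun r a b => ?_⟩, h6, dvd_mul_right _ _, h7.ne'⟩
    rcases (Nat.Prime.dvd_mul a).1 b with b | b
    · rw [(Nat.prime_dvd_prime_iff_eq a h6).1 b,
        Real.lt_log_iff_exp_lt (by exact_mod_cast h6.pos)]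
      exact Nat.lt_of_floor_lt h4
    · exact h3 r a b
  · rintro ⟨n, p⟩ h
    simp only [mem_sigma, Nat.mem_primeFactors] at h
    simp [Nat.mul_div_cancel' h.2.2.1]
  · rintro ⟨m, p⟩ h
    simp only [mem_sigma, mem_filter] at h
    simp [Nat.mul_div_cancel_left _ h.2.2.pos]
  · rintro ⟨n, p⟩ h
    simp only [mem_sigma, Nat.mem_primeFactors] at h
    simp [Nat.mul_div_cancel' h.2.2.1]

lemma one_mem_RR (l : ℝ) {N : ℕ} (h : 0 < N) : 1 ∈ RR l N :=
  mem_RR.2 ⟨⟨one_pos, h⟩, fun _ hp hd => absurd (Nat.dvd_one.1 hd) hp.ne_one⟩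

lemma box_mem {δ : ℝ} (hδ : 0 < δ) {m : ℕ} (hm : 0 < m) :
    Real.exp (box δ m * δ) ≤ m ∧ m ≤ Real.exp ((box δ m + 1) * δ) := by
  have h0 : (0 : ℝ) < m := by exact_mod_cast hm
  rw [← Real.le_log_iff_exp_le h0, ← Real.log_le_iff_le_exp h0, ← le_div_iff₀ hδ, ← div_le_iff₀ hδ]
  exact ⟨Nat.floor_le (div_nonneg (Real.log_natCast_nonneg _) hδ.le), (Nat.lt_floor_add_one _).le⟩

lemma up {l δ : ℝ} (hδ : 0 < δ) {x : ℕ} (hx : 0 < x) {F ν : ℕ → ℝ} (hF : ∀ n, 0 ≤ F n)
    (hν : ∀ n, 0 ≤ ν n) (hν1 : ∀ n, Rg l n → ν n = 1) :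
    ∑ p ∈ Ioc ⌊Real.exp l⌋₊ x with p.Prime, Real.log p * F p + ∑ m ∈ (RR l x).erase 1,
      ∑ p ∈ Ioc ⌊Real.exp l⌋₊ ⌊x * Real.exp (-((box δ m + 1) * δ))⌋₊ with p.Prime,
        Real.log p * F (p * m) ≤ Real.log x * ∑ n ∈ Ioc 0 x, ν n * F n := by
  classical
  have h1 : ∑ n ∈ RR l x, lam n * F n ≤ Real.log x * ∑ n ∈ Ioc 0 x, ν n * F n := by
    rw [RR, sum_filter, mul_sum]
    refine sum_le_sum fun n hn => ?_
    have h2 := mem_Ioc.1 hn
    have := hF n
    split_ifs with h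
    · rw [hν1 n h, one_mul]
      exact mul_le_mul_of_nonneg_right ((lam_le h2.1).trans (Real.log_le_log
        (by exact_mod_cast h2.1) (by exact_mod_cast h2.2))) this
    · have := hν n
      have := Real.log_natCast_nonneg x
      positivity
  refine le_trans ?_ h1
  rw [reindex, ← add_sum_erase _ _ (one_mem_RR l hx)]
  simp only [Nat.div_one, mul_one]
  refine add_le_add le_rfl (sum_le_sum fun m hm => sum_le_sum_of_subset_of_nonneg
    (filter_subset_filter _ (Ioc_subset_Ioc_right ?_)) fun p _ _ =>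
      mul_nonneg (Real.log_natCast_nonneg _) (hF _))
  have h2 := (mem_RR.1 (mem_of_mem_erase hm)).1.1
  rw [← Nat.floor_div_eq_div (K := ℝ), Real.exp_neg, ← div_eq_mul_inv]
  refine Nat.floor_le_floor ?_
  gcongr
  exact (box_mem hδ h2).2

lemma low {l δ : ℝ} (hδ : 0 < δ) {x : ℕ} : ∑ n ∈ RR l ⌊x * Real.exp (-δ)⌋₊, lam n ≤
    Chebyshev.theta x + ∑ m ∈ (RR l x).erase 1,
      ∑ p ∈ Ioc ⌊Real.exp l⌋₊ ⌊x * Real.exp (-((box δ m + 1) * δ))⌋₊ with p.Prime, Real.log p := by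
  set x' := ⌊x * Real.exp (-δ)⌋₊ with hx'
  have h1 : (x' : ℝ) ≤ x * Real.exp (-δ) := Nat.floor_le (by positivity)
  have h2 : x' ≤ x := by
    exact_mod_cast h1.trans (mul_le_of_le_one_right (Nat.cast_nonneg _)
      (Real.exp_le_one_iff.2 (by linarith)))
  have h3 := reindex l x' fun _ => 1
  simp only [mul_one] at h3
  have h0 : ∀ s : Finset ℕ, 0 ≤ ∑ p ∈ s, Real.log p := fun s =>
    sum_nonneg fun p _ => Real.log_natCast_nonneg p
  rw [h3]
  rcases Nat.eq_zero_or_pos x' with h | h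
  · rw [h, show RR l 0 = ∅ by simp [RR], sum_empty]
    exact add_nonneg (h0 _) (sum_nonneg fun m _ => h0 _)
  rw [← add_sum_erase _ _ (one_mem_RR l h)]
  refine add_le_add ?_ ((sum_le_sum fun m hm => ?_).trans (sum_le_sum_of_subset_of_nonneg
    (erase_subset_erase _ fun m hm => ?_) fun m _ _ => h0 _))
  · rw [Chebyshev.theta, Nat.floor_natCast, Nat.div_one]
    exact sum_le_sum_of_subset_of_nonneg (filter_subset_filter _ (Ioc_subset_Ioc (Nat.zero_le _) h2))
      fun p _ _ => Real.log_natCast_nonneg p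
  · refine sum_le_sum_of_subset_of_nonneg (filter_subset_filter _ (Ioc_subset_Ioc_right ?_))
      fun p _ _ => Real.log_natCast_nonneg p
    have h4 := (mem_RR.1 (mem_of_mem_erase hm)).1.1
    refine Nat.le_floor (Nat.cast_div_le.trans ?_)
    calc (x' : ℝ) / m ≤ x * Real.exp (-δ) / Real.exp (box δ m * δ) := by
          gcongr; exact (box_mem hδ h4).1
      _ = _ := by rw [mul_div_assoc, ← Real.exp_sub]; congr 2; ring
  · exact mem_RR.2 ⟨⟨(mem_RR.1 hm).1.1, (mem_RR.1 hm).1.2.trans h2⟩, (mem_RR.1 hm).2⟩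

lemma card_nsf {l : ℝ} (hl : 0 ≤ l) (N : ℕ) :
    (((RR l N).filter fun n => ¬ Squarefree n).card : ℝ) ≤ 2 * N * Real.exp (-l) := by
  set k := ⌊Real.exp l⌋₊ with hk
  have hk1 : 1 ≤ k := Nat.le_floor (by simpa using hl)
  have h1 : ((RR l N).filter fun n => ¬ Squarefree n) ⊆
      (Ioc k (max k N)).biUnion fun p => (Ioc 0 N).filter fun n => p * p ∣ n := fun n hn => by
    obtain ⟨h1, h2⟩ := mem_filter.1 hn
    obtain ⟨h3, h4⟩ := mem_RR.1 h1
    rw [Nat.squarefree_iff_prime_squarefree] at h2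
    push Not at h2
    obtain ⟨p, h5, h6⟩ := h2
    have h7 := (dvd_mul_right p p).trans h6
    exact mem_biUnion.2 ⟨p, mem_Ioc.2 ⟨(Nat.floor_lt (Real.exp_pos _).le).2 (h4.lt h5 h7),
      le_max_of_le_right ((Nat.le_of_dvd h3.1 h7).trans h3.2)⟩, mem_filter.2 ⟨mem_Ioc.2 h3, h6⟩⟩
  have h2 := (card_le_card h1).trans card_biUnion_le
  simp only [Nat.Ioc_filter_dvd_card_eq_div] at h2
  have h3 := sum_Ioc_inv_sq_le_sub (α := ℝ) (k := k) (by omega) (le_max_left k N)
  have h4 : (k : ℝ)⁻¹ ≤ 2 * Real.exp (-l) := by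
    have a1 := Nat.lt_floor_add_one (Real.exp l)
    have a2 : (1 : ℝ) ≤ k := by exact_mod_cast hk1
    rw [Real.exp_neg, ← div_eq_mul_inv, inv_eq_one_div, div_le_div_iff₀ (by linarith)
      (Real.exp_pos _)]
    linarith
  calc _ ≤ ∑ p ∈ Ioc k (max k N), ((N / (p * p) : ℕ) : ℝ) := by exact_mod_cast h2
    _ ≤ ∑ p ∈ Ioc k (max k N), N * ((p : ℝ) ^ 2)⁻¹ := sum_le_sum fun p _ =>
        Nat.cast_div_le.trans_eq (by push_cast; ring)
    _ ≤ N * (2 * Real.exp (-l)) := by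
        rw [← mul_sum]
        have : (0 : ℝ) ≤ ((max k N : ℕ) : ℝ)⁻¹ := by positivity
        gcongr; linarith
    _ = _ := by ring

lemma defect {l γ : ℝ} (hl : 0 ≤ l) (hγ : 0 ≤ γ) {x N : ℕ} (hx : 0 < x) (hN : N ≤ x) :
    Real.log x * (RR l N).card - ∑ n ∈ RR l N, lam n ≤ γ * (RR l N).card +
      Real.log x * (x * Real.exp (-γ) + 2 * x * Real.exp (-l)) := by
  have hL := Real.log_natCast_nonneg x
  have h1 : ∀ n ∈ RR l N, Real.log x - lam n ≤ γ + Real.log x *
      ((if (n : ℝ) ≤ x * Real.exp (-γ) then 1 else 0) + if ¬ Squarefree n then 1 else 0) := by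
    intro n hn
    have h2 : 0 ≤ lam n := sum_nonneg fun p _ => Real.log_natCast_nonneg p
    split_ifs with h3 h4 h4
    · linarith
    · linarith
    · have := Real.log_le_log (by positivity) (not_le.1 h3).le
      rw [Real.log_mul (by positivity) (Real.exp_pos _).ne', Real.log_exp] at this
      rw [lam_eq h4]; linarith
    · linarith
  have h2 := sum_le_sum h1
  rw [sum_sub_distrib, sum_add_distrib, ← mul_sum, sum_add_distrib, sum_boole, sum_boole, sum_const,
    sum_const, nsmul_eq_mul, nsmul_eq_mul] at h2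
  have h3 := card_nsf hl N
  have h4 : (((RR l N).filter fun n : ℕ => (n : ℝ) ≤ x * Real.exp (-γ)).card : ℝ) ≤
      x * Real.exp (-γ) := card_le_real (by positivity) fun n hn =>
    ⟨(mem_RR.1 (mem_filter.1 hn).1).1.1, (mem_filter.1 hn).2⟩
  have h5 : 2 * N * Real.exp (-l) ≤ 2 * x * Real.exp (-l) := by gcongr
  nlinarith [mul_le_mul_of_nonneg_left (add_le_add h4 (h3.trans h5)) hL]

lemma typeI {x : ℕ} {η0 κ A l s c : ℝ} {F : ℕ → ℝ} (h : Ok x η0 κ A F c) (hl : 0 < l) (hA : 0 ≤ A)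
    (hκ : 0 ≤ κ) (hκ1 : κ ≤ η0) (hη0 : η0 ≤ 1 / 2) :
    ∑ n ∈ Ioc 0 x, S0 (qq 1 x) (gn (qq 1 x) l s) n ^ 2 * F n ≤
      c * ∑ n ∈ Ioc 0 x, S0 (qq 1 x) (gn (qq 1 x) l s) n ^ 2 +
        200 * A * Real.exp (4 * (s * l) + (1 - η0) * Real.log x) := by
  classical
  obtain ⟨C, h1, h2, h3⟩ := h
  have hL := Real.log_natCast_nonneg x
  set L := Real.log x
  have e : ((∑ n ∈ Ioc 0 x, S0 (qq 1 x) (gn (qq 1 x) l s) n ^ 2 * F n -
      c * ∑ n ∈ Ioc 0 x, S0 (qq 1 x) (gn (qq 1 x) l s) n ^ 2 : ℝ) : ℂ) =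
      ∑ χ ∈ (univ.erase (1 : Ch (qq 1 x))).filter fun χ => C χ ≠ 0, C χ *
        ∑ n ∈ Ioc 0 x, ((S0 (qq 1 x) (gn (qq 1 x) l s) n ^ 2 : ℝ) : ℂ) * ev (qq 1 x) χ n := by
    rw [sum_filter_of_ne fun χ _ h => left_ne_zero_of_mul h]
    simp only [mul_sum, Complex.ofReal_sub, Complex.ofReal_sum, Complex.ofReal_mul, h1]
    rw [sum_comm, ← sum_sub_distrib]
    refine sum_congr rfl fun n _ => ?_
    rw [mul_add, mul_comm, add_sub_cancel_left, mul_sum]
    exact sum_congr rfl fun χ _ => by ring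
  rw [← sub_le_iff_le_add']
  refine (le_abs_self _).trans ?_
  rw [← Real.norm_eq_abs, ← Complex.norm_real, e]
  have hc := card_cond_le (BV.qq_inj 1 x) (F := ⌊Real.exp ((1 / 2 - η0) * L)⌋₊)
    (X := (univ.erase (1 : Ch (qq 1 x))).filter fun χ => C χ ≠ 0)
    fun χ hχ => Nat.le_floor (h3 χ (mem_filter.1 hχ).2)
  refine (norm_sum_le _ _).trans ((sum_le_card_nsmul _ _ (A * Real.exp (4 * (s * l) + η0 * L))
    fun χ hχ => ?_).trans ?_)
  · have a1 := h3 χ (mem_filter.1 hχ).2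
    have a2 : (1 : ℝ) ≤ MP_fc51f7_nt.cond (qq 1 x) χ := by exact_mod_cast cond_pos χ
    have a3 : (MP_fc51f7_nt.cond (qq 1 x) χ : ℝ) ^ κ ≤ Real.exp (η0 * L) := by
      refine (Real.rpow_le_rpow (by positivity) a1 hκ).trans ?_
      rw [← Real.exp_mul]
      exact Real.exp_le_exp.2 (by nlinarith [mul_nonneg hκ hL, mul_nonneg (hκ.trans hκ1) hL])
    rw [norm_mul, Real.exp_add]
    refine (mul_le_mul (h2 χ) (nu_twist (BV.qq_inj 1 x) hl
      (ne_of_mem_erase (mem_filter.1 hχ).1) x) (norm_nonneg _) (by positivity)).trans ?_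
    rw [Real.rpow_sub_one (by positivity)]
    calc _ = A * (Real.exp (4 * (s * l)) * (MP_fc51f7_nt.cond (qq 1 x) χ : ℝ) ^ κ) := by field_simp
      _ ≤ _ := by gcongr
  · have a1 : (⌊Real.exp ((1 / 2 - η0) * L)⌋₊ : ℝ) ≤ Real.exp ((1 / 2 - η0) * L) :=
      Nat.floor_le (by positivity)
    have a2 : 1 ≤ Real.exp ((1 / 2 - η0) * L) := Real.one_le_exp (by nlinarith)
    rw [nsmul_eq_mul]
    calc _ ≤ 100 * (Real.exp ((1 / 2 - η0) * L) ^ 2 + Real.exp ((1 / 2 - η0) * L) ^ 2) *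
          (A * Real.exp (4 * (s * l) + η0 * L)) := by
          gcongr; exact hc.trans (by gcongr; exact one_le_pow₀ a2)
      _ = 200 * A * (Real.exp ((1 / 2 - η0) * L) ^ 2 * Real.exp (4 * (s * l) + η0 * L)) := by ring
      _ = _ := by rw [← Real.exp_nat_mul, ← Real.exp_add]; congr 2; push_cast; ring

lemma small_ev {a : ℝ} (ha : 0 < a) {ε : ℝ} (hε : 0 < ε) : ∀ᶠ x : ℕ in atTop,
    Real.log x ^ 7 * Real.exp ((1 - a) * Real.log x) ≤ ε * x := by
  filter_upwards [exp_ev ha ε⁻¹, eventually_gt_atTop 0] with x h hx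
  rw [inv_mul_le_iff₀ hε] at h
  calc _ ≤ ε * Real.exp (a * Real.log x) * Real.exp ((1 - a) * Real.log x) := by gcongr
    _ = _ := by
      rw [mul_assoc, ← Real.exp_add, ← add_mul, add_sub_cancel, one_mul,
        Real.exp_log (by exact_mod_cast hx)]

/-- the normalising constant -/
def GG (x : ℕ) (l s : ℝ) : ℝ := ∑ T, gn (qq 1 x) l s T * wt (qq 1 x) T

/-- the majorant -/
def nu (x : ℕ) (l s : ℝ) (n : ℕ) : ℝ := S0 (qq 1 x) (gn (qq 1 x) l s) n ^ 2 / GG x l s ^ 2

lemma nu_nonneg (x : ℕ) (l s : ℝ) (n : ℕ) : 0 ≤ nu x l s n := by unfold nu; positivity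

lemma nu_one {x : ℕ} {l s : ℝ} (hl : 0 < l) (hG : 1 ≤ GG x l s) (n : ℕ) (h : Rg l n) :
    nu x l s n = 1 := by
  rw [nu, S0_rough hl h]; exact div_self (by positivity)

lemma GG_ev {η s : ℝ} (hη : 0 < η) (hs : 2 ≤ s) : ∀ᶠ x : ℕ in atTop,
    1 ≤ GG x (η * Real.log x) s := by
  filter_upwards [nu_ev hη hs, Meas.tendsto_L.eventually_ge_atTop (4 / η)] with x h h2
  rw [div_le_iff₀ hη] at h2
  exact le_trans (by linarith) h.1

lemma mass {η s ε : ℝ} (h0 : 0 < η) (hε : 0 < ε) (hs2 : 2 ≤ s) (h1 : η * (10 * s) ≤ 1)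
    (a3 : 64 * Real.exp (26 - s) / η ≤ ε / 10) : ∀ᶠ x : ℕ in atTop,
    Real.log x * ∑ n ∈ Ioc 0 x, nu x (η * Real.log x) s n -
      ∑ m ∈ (RR (η * Real.log x) x).erase 1, ∑ p ∈ Ioc ⌊Real.exp (η * Real.log x)⌋₊
        ⌊x * Real.exp (-((box (ε * η / 40) m + 1) * (ε * η / 40)))⌋₊ with p.Prime, Real.log p ≤
      (1 + ε) * x := by
  classical
  set δ := ε * η / 40 with hδ
  have hδ0 : 0 < δ := by positivity
  have hθ := (Pool.Agent.Shared.PNT.pnt_theta.comp tendsto_natCast_atTop_atTop).eventually_le_const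
    (show 1 < 1 + ε / 10 by linarith)
  filter_upwards [nu_ev h0 hs2, GG_ev h0 hs2, log_ev,
    Meas.tendsto_L.eventually_ge_atTop (4 / η), hθ, eventually_gt_atTop 0,
    small_ev one_half_pos (ε := ε / (10 * (9 + 4 * δ))) (by positivity),
    small_ev hδ0 (ε := ε / 10) (by positivity), small_ev h0 (ε := ε / 20) (by positivity)]
    with x ⟨n1, n2, n3, n4⟩ hG1 hL hL4 hθ hx s2 s3 s4
  have hx0 : (0 : ℝ) < x := by exact_mod_cast hx
  have d6 : Chebyshev.theta x ≤ (1 + ε / 10) * x := (div_le_iff₀ hx0).1 hθ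
  have hxe : Real.exp (Real.log x) = x := Real.exp_log hx0
  have b5 := @defect (η * Real.log x) (δ * Real.log x) (by positivity) (by positivity) x
    ⌊x * Real.exp (-δ)⌋₊ hx
  have b6 := low (l := η * Real.log x) (x := x) hδ0
  change _ ≤ GG x _ s at n1
  generalize Real.log x = L at *
  have hL0 : 0 < L := by linarith
  have hl0 : 0 < η * L := by positivity
  have hν1 := nu_one hl0 hG1
  have hG2 : 1 ≤ GG x (η * L) s ^ 2 := one_le_pow₀ hG1
  have hLG : L / GG x (η * L) s ≤ 4 / η := by rw [div_le_div_iff₀ (by linarith) h0]; linarith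
  have hL7 : L ≤ L ^ 7 := le_self_pow₀ hL (by norm_num)
  have hE1 : Real.exp (η * L) * Real.exp (4 * (s * (η * L))) ≤ Real.exp ((1 - 1 / 2) * L) := by
    rw [← Real.exp_add]
    refine Real.exp_le_exp.2 ?_
    have := mul_le_mul_of_nonneg_right h1 hL0.le
    have := mul_le_mul_of_nonneg_right hs2 hl0.le
    linarith
  have hE2 : Real.exp (4 * (s * (η * L))) ≤ Real.exp ((1 - 1 / 2) * L) :=
    (le_mul_of_one_le_left (by positivity) (Real.one_le_exp hl0.le)).trans hE1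
  have hE3 : 1 ≤ Real.exp ((1 - 1 / 2) * L) := Real.one_le_exp (by linarith)
  generalize Real.exp ((1 - 1 / 2) * L) = E at *
  have hLE : L * E ≤ ε / (10 * (9 + 4 * δ)) * x := le_trans (by gcongr) s2
  have b1 : ∀ N1 N2 : ℕ, N1 ≤ N2 → L * ∑ n ∈ Ioc N1 N2, nu x (η * L) s n ≤
      ((N2 : ℝ) - N1) * (4 / η) + 4 * (L * E) := fun N1 N2 h => by
    have a0 : (0 : ℝ) ≤ N2 - N1 := sub_nonneg.2 (by exact_mod_cast h)
    have a1 := nu_sum (s := s) (BV.qq_inj 1 x) hl0 h
    simp only [nu, ← sum_div]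
    change _ ≤ _ * GG x _ s + _ at a1
    generalize GG x (η * L) s = G at *
    calc _ ≤ L * ((((N2 : ℝ) - N1) * G + 4 * E) / G ^ 2) := by gcongr; linarith
      _ = ((N2 : ℝ) - N1) * (L / G) + 4 * (L * E) / G ^ 2 := by field_simp
      _ ≤ _ := by gcongr; exact div_le_self (by positivity) hG2
  have c1 : ⌊x * Real.exp (-δ)⌋₊ ≤ x := by
    exact_mod_cast (Nat.floor_le (by positivity)).trans (mul_le_of_le_one_right hx0.le
      (Real.exp_le_one_iff.2 (by linarith : -δ ≤ 0)))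
  have c2 : (x : ℝ) - ⌊x * Real.exp (-δ)⌋₊ ≤ δ * x + 1 := by
    have a1 := Nat.lt_floor_add_one (x * Real.exp (-δ))
    linarith [mul_le_mul_of_nonneg_left (Real.add_one_le_exp (-δ)) hx0.le]
  generalize ⌊x * Real.exp (-δ)⌋₊ = x' at *
  have a2 : (x' : ℝ) ≤ x := by exact_mod_cast c1
  have b2 : L * ∑ n ∈ Ioc 0 x' with ¬ Rg (η * L) n, nu x (η * L) s n ≤
      ε / 10 * x + 4 * (L * E) := by
    have a1 := nu_bad (s := s) (BV.qq_inj 1 x) hl0 n2 n4 x'
    simp only [nu, ← sum_div]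
    generalize GG x (η * L) s = G at *
    calc _ ≤ L * ((x * (2 * (Real.exp (26 - s) * (2 * (η * L)))) + 4 * E) / G ^ 2) := by
          gcongr
          have := one_le_Zf (qq 1 x) two_le (η * L)⁻¹
          exact a1.trans (add_le_add (by gcongr) (by linarith))
      _ = 4 * Real.exp (26 - s) * η * (L / G) ^ 2 * x + 4 * (L * E) / G ^ 2 := by
          field_simp; ring
      _ ≤ 4 * Real.exp (26 - s) * η * (4 / η) ^ 2 * x + 4 * (L * E) := by
          gcongr; exact div_le_self (by positivity) hG2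
      _ = 64 * Real.exp (26 - s) / η * x + 4 * (L * E) := by field_simp; ring
      _ ≤ _ := by gcongr
  have b3 : ∑ n ∈ Ioc 0 x', nu x (η * L) s n =
      (RR (η * L) x').card + ∑ n ∈ Ioc 0 x' with ¬ Rg (η * L) n, nu x (η * L) s n := by
    rw [← sum_filter_add_sum_filter_not _ (Rg (η * L)),
      sum_congr rfl fun n hn => hν1 n (mem_filter.1 hn).2]
    simp [RR]
  have b4 : L * (RR (η * L) x').card ≤ x * (4 / η) + 4 * (L * E) := by
    have a1 := b1 0 x' (Nat.zero_le _)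
    have a3 : 0 ≤ L * ∑ n ∈ Ioc 0 x' with ¬ Rg (η * L) n, nu x (η * L) s n :=
      mul_nonneg hL0.le (sum_nonneg fun n _ => nu_nonneg _ _ _ _)
    have a4 : (x' : ℝ) * (4 / η) ≤ x * (4 / η) := by gcongr
    rw [b3, mul_add, Nat.cast_zero, sub_zero] at a1
    linarith
  have b7 := b1 x' x c1
  have d1 : L * (x * Real.exp (-(δ * L))) ≤ ε / 10 * x := by
    rw [← hxe, ← Real.exp_add, hxe, show L + -(δ * L) = (1 - δ) * L by ring]
    exact le_trans (by gcongr) s3
  have d2 : L * (x * Real.exp (-(η * L))) ≤ ε / 20 * x := by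
    rw [← hxe, ← Real.exp_add, hxe, show L + -(η * L) = (1 - η) * L by ring]
    exact le_trans (by gcongr) s4
  have d3 : δ * (4 / η) * x = ε / 10 * x := by rw [hδ]; field_simp; ring
  have d4 : 4 / η ≤ L * E := hL4.trans (le_mul_of_one_le_right hL0.le hE3)
  have d5 : (9 + 4 * δ) * (L * E) ≤ ε / 10 * x :=
    (mul_le_mul_of_nonneg_left hLE (by positivity)).trans_eq (by field_simp)
  have d7 := mul_le_mul_of_nonneg_left b4 hδ0.le
  have d8 : ((x : ℝ) - x') * (4 / η) ≤ (δ * x + 1) * (4 / η) := by gcongr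
  rw [← sum_Ioc_consecutive _ (Nat.zero_le _) c1, b3]
  linarith [b5 c1, mul_pos hε hx0]

theorem apl {η0 ε : ℝ} (hη0 : 0 < η0) (hη1 : η0 ≤ 1 / 2) (hε : 0 < ε) :
    ∃ κ : ℝ, 0 < κ ∧ κ ≤ 1 / 2 ∧ ∀ A : ℝ, 0 < A → ∀ᶠ x : ℕ in atTop, ∀ F c, Ok x η0 κ A F c →
      (∀ n, 0 ≤ F n) → 0 ≤ c → ∀ N : ℕ, √x ≤ N →
      ∑ p ∈ Ioc N x with p.Prime, Real.log p * F p ≤ (c * (1 + ε) + ε) * x := by
  classical
  obtain ⟨s, hs2, hs⟩ : ∃ s : ℝ, 2 ≤ s ∧ s ^ 1 * Real.exp (-s) ≤ ε * η0 / (6400 * Real.exp 26) :=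
    ((eventually_ge_atTop 2).and ((Real.tendsto_pow_mul_exp_neg_atTop_nhds_zero 1).eventually_le_const
      (by positivity))).exists
  have hs0 : 0 < s := by linarith
  obtain ⟨η, h0, h1⟩ : ∃ η : ℝ, 0 < η ∧ η * (10 * s) = η0 :=
    ⟨η0 / (10 * s), by positivity, by field_simp⟩
  have h2 : η ≤ η0 / 20 := by nlinarith
  have a3 : 64 * Real.exp (26 - s) / η ≤ ε / 10 := by
    rw [pow_one, le_div_iff₀ (by positivity), ← h1] at hs
    rw [sub_eq_add_neg, Real.exp_add, div_le_iff₀ h0]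
    nlinarith
  have hδ0 : 0 < ε * η / 40 := by positivity
  refine ⟨η / 200, by positivity, by linarith, fun A hA => ?_⟩
  filter_upwards [bil (η0 := η0) h0 (by linarith) (by linarith) hδ0 (half_pos hε) hA,
    GG_ev h0 hs2, log_ev, mass h0 hε hs2 (by linarith) a3, eventually_gt_atTop 0,
    small_ev (half_pos hη0) (ε := ε / (400 * A)) (by positivity)]
    with x hb hG1 hL d9 hx s1 F c hF hF0 hc N hN
  have hx0 : (0 : ℝ) < x := by exact_mod_cast hx
  have hxe : Real.exp (Real.log x) = x := Real.exp_log hx0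
  have hl0 : 0 < η * Real.log x := by positivity
  have b8 := up hδ0 hx hF0 (nu_nonneg x _ s) (nu_one hl0 hG1)
  have b9 := typeI (l := η * Real.log x) (s := s) hF hl0 hA.le (by positivity) (by linarith) hη1
  have b10 := (neg_le_abs _).trans (hb F c hF ((RR (η * Real.log x) x).erase 1) fun m hm => by
    have h1 := mem_RR.1 (mem_of_mem_erase hm)
    have := ne_of_mem_erase hm
    exact ⟨by omega, h1.1.2, h1.2⟩)
  simp only [mul_sub, sum_sub_distrib, ← sum_mul] at b10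
  generalize Real.log x = L at *
  have hL7 : L ≤ L ^ 7 := le_self_pow₀ hL (by norm_num)
  have hL0 : 0 < L := by linarith
  have d10 : L * ∑ n ∈ Ioc 0 x, nu x (η * L) s n * F n ≤
      c * (L * ∑ n ∈ Ioc 0 x, nu x (η * L) s n) + ε / 2 * x := by
    have a1 : Real.exp (4 * (s * (η * L)) + (1 - η0) * L) ≤ Real.exp ((1 - η0 / 2) * L) := by
      refine Real.exp_le_exp.2 ?_
      rw [← h1]
      linarith [mul_pos hs0 hl0]
    have a2 : L * Real.exp (4 * (s * (η * L)) + (1 - η0) * L) ≤ ε / (400 * A) * x :=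
      le_trans (by gcongr) s1
    simp only [nu, div_mul_eq_mul_div, ← sum_div]
    have hG2 : 1 ≤ GG x (η * L) s ^ 2 := one_le_pow₀ hG1
    generalize GG x (η * L) s ^ 2 = G at *
    generalize Real.exp (4 * (s * (η * L)) + (1 - η0) * L) = E at *
    generalize ∑ n ∈ Ioc 0 x, S0 (qq 1 x) (gn (qq 1 x) (η * L) s) n ^ 2 = Z at *
    calc _ ≤ L * ((c * Z + 200 * A * E) / G) := by gcongr
      _ = c * (L * (Z / G)) + 200 * A * (L * E) / G := by ring
      _ ≤ c * (L * (Z / G)) + 200 * A * (ε / (400 * A) * x) / 1 := by gcongr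
      _ = _ := by field_simp; ring
  have d11 : ∑ p ∈ Ioc N x with p.Prime, Real.log p * F p ≤
      ∑ p ∈ Ioc ⌊Real.exp (η * L)⌋₊ x with p.Prime, Real.log p * F p := by
    refine sum_le_sum_of_subset_of_nonneg (filter_subset_filter _ (Ioc_subset_Ioc_left ?_))
      fun p _ _ => mul_nonneg (Real.log_natCast_nonneg _) (hF0 _)
    refine Nat.floor_le_of_le (le_trans ?_ hN)
    rw [← hxe, ← Real.exp_half]
    exact Real.exp_le_exp.2 (by nlinarith)
  linarith [mul_le_mul_of_nonneg_left d9 hc]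

end

end Pool.Agent.Lib.MP_c702b2_nt
end
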