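import Pool.Agent.Lib.MP_c702b2_nt.Apl
import Pool.Agent.Lib.MP_c702b2_nt.Num

-- part Pool.Agent.Lib.MP_c702b2_nt.Coef
section

/-! Character expansion of products of two shifted sieve sums. -/

set_option autoImplicit false
set_option linter.unusedSectionVars false

namespace Pool.Agent.Lib.MP_c702b2_nt

open Finset Pool.Agent.Lib.MP_fc51f7_nt BV

noncomputable section

def gg (h h' : ℤ) : Bool → ℤ := fun b => if b then h' else h

def sa (t : Bool) : Finset Bool := if t then {false} else ∅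

def sb (u : Bool) : Finset Bool := if u then {true} else ∅

section Local

variable {p : ℕ} {h h' : ℤ}

lemma th_eq (t u : Bool) (m : ℤ) : th p (gg h h') (sa t) (sb u) m =
    (if t then xi p (m + h) else 1) * if u then xi p (m + h') else 1 := by
  cases t <;> cases u <;> simp [th, loc, sa, sb, gg]

lemma ub_eq (hp : 2 ≤ p) (t u : Bool) : ubar p (gg h h') (sa t) (sb u) =
    ww p * (∑ r ∈ range p, th p (gg h h') (sa t) (sb u) r - th p (gg h h') (sa t) (sb u) 0) := by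
  rw [range_eq_Ico, sum_eq_sum_Ico_succ_bot (by omega)]
  simp only [ubar, th, ww, Nat.cast_zero, add_sub_cancel_left, zero_add]

lemma ub_tf (hp : 2 ≤ p) : ubar p (gg h h') (sa true) (sb false) = -(ww p * xi p h) := by
  simp [ub_eq hp, th_eq, sum_xi hp]

lemma ub_ft (hp : 2 ≤ p) : ubar p (gg h h') (sa false) (sb true) = -(ww p * xi p h') := by
  simp [ub_eq hp, th_eq, sum_xi hp]

lemma ub_tt (hp : 2 ≤ p) : ubar p (gg h h') (sa true) (sb true) =
    -(ww p * ((1 + ww p) * xi p (h - h') + xi p h * xi p h')) := by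
  simp only [ub_eq hp, th_eq, if_true, sum_xi_xi hp, zero_add, ← mul_ww hp]; ring

lemma norm_co_le4 (hp : 2 ≤ p) {A A' : Finset Bool} (hA : ¬ (A = ∅ ∧ A' = ∅))
    (χ : MulChar (ZMod p) ℂ) : ‖co p (gg h h') A A' χ‖ ≤ 4 / p := by
  have e : ((p : ℂ) - 1)⁻¹ = (ww p : ℝ) := by unfold ww; push_cast; rfl
  rw [co, norm_mul, e, Complex.norm_real, Real.norm_of_nonneg (ww_nonneg hp),
    show (4 : ℝ) / p = 2 / p * 2 by ring]
  refine mul_le_mul (ww_le hp) ?_ (norm_nonneg _) (by positivity)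
  refine (norm_sum_le _ _).trans (le_trans (sum_le_sum fun r _ => ?_)
    (sum_abs_th (g := gg h h') hp hA))
  rw [norm_mul, Complex.norm_real, Real.norm_eq_abs]
  exact mul_le_of_le_one_right (abs_nonneg _) (DirichletCharacter.norm_le_one χ _)

/-- the resampling measure -/
def mu (p n r : ℕ) : ℝ := if p ∣ n then (if r = 0 then 0 else ww p) else if r = n % p then 1 else 0

lemma th0_eq (hp : 2 ≤ p) (A A' : Finset Bool) (n : ℕ) : th0 p (gg h h') A A' n =
    ∑ r ∈ range p, mu p n r * th p (gg h h') A A' r := by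
  unfold th0 mu
  split_ifs with h1
  · rw [range_eq_Ico, sum_eq_sum_Ico_succ_bot (by omega), ubar, mul_sum]
    simp only [if_true, zero_mul, zero_add]
    exact sum_congr rfl fun r hr => by rw [if_neg (by have := (mem_Ico.1 hr).1; omega)]; rfl
  · simp only [ite_mul, one_mul, zero_mul, sum_ite_eq', mem_range, Nat.mod_lt _ (by omega : 0 < p),
      if_true, th_mod]

end Local

variable {ι : Type} [Fintype ι] [DecidableEq ι] (q : ι → ℕ) [hq : ∀ i, Fact (q i).Prime]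
  (h h' : ℤ) (y y' : Finset ι → ℝ)

/-- coefficient of a family of characters -/
def Dc (χ : Ch q) : ℂ := ∑ T : Finset ι, ∑ U : Finset ι, (y T * y' U : ℝ) *
  ∏ i, co (q i) (gg h h') (sa (decide (i ∈ T))) (sb (decide (i ∈ U))) (χ i)

/-- the resampled product -/
def T0 (n : ℕ) : ℝ := ∑ T : Finset ι, ∑ U : Finset ι, y T * y' U *
  ∏ i, th0 (q i) (gg h h') (sa (decide (i ∈ T))) (sb (decide (i ∈ U))) n

/-- the mean over the units -/
def Tb : ℝ := ∑ T : Finset ι, ∑ U : Finset ι, y T * y' U *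
  ∏ i, ubar (q i) (gg h h') (sa (decide (i ∈ T))) (sb (decide (i ∈ U)))

lemma Dc_one : Dc q h h' y y' 1 = Tb q h h' y y' := by
  simp only [Dc, Tb, Pi.one_apply, co_one]
  push_cast
  rfl

lemma T0_eq (n : ℕ) : (T0 q h h' y y' n : ℂ) =
    Tb q h h' y y' + ∑ χ ∈ univ.erase (1 : Ch q), Dc q h h' y y' χ * ev q χ n := by
  have h2 : ev q 1 n = 1 := by simp [ev_eq, e1]
  have h1 : (T0 q h h' y y' n : ℂ) = ∑ χ : Ch q, Dc q h h' y y' χ * ev q χ n := by
    simp only [Dc, sum_mul, T0, ev_eq, mul_assoc, ← prod_mul_distrib]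
    rw [Complex.ofReal_sum, sum_comm]
    refine sum_congr rfl fun T _ => ?_
    rw [Complex.ofReal_sum, sum_comm]
    refine sum_congr rfl fun U _ => ?_
    rw [← mul_sum, ← mul_assoc, Complex.ofReal_mul, Complex.ofReal_prod]
    simp only [← expand]
    rw [Fintype.prod_sum]
  rw [h1, ← add_sum_erase _ _ (mem_univ 1), Dc_one, h2, mul_one]

variable {q h h' y y'}

lemma Dc_support {Λ : ℝ} (hs : ∀ T U, y T ≠ 0 → y' U ≠ 0 → lg q T + lg q U ≤ Λ) {χ : Ch q}
    (h0 : Dc q h h' y y' χ ≠ 0) : (cond q χ : ℝ) ≤ Real.exp Λ := by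
  obtain ⟨T, -, h0⟩ := exists_ne_zero_of_sum_ne_zero h0
  obtain ⟨U, -, h0⟩ := exists_ne_zero_of_sum_ne_zero h0
  have h1 := left_ne_zero_of_mul h0
  have h2 := prod_ne_zero_iff.1 (right_ne_zero_of_mul h0)
  rw [Complex.ofReal_ne_zero] at h1
  refine le_trans ?_ (Real.exp_le_exp.2 (hs T U (left_ne_zero_of_mul h1) (right_ne_zero_of_mul h1)))
  have h3 : ∀ i, (1 : ℝ) ≤ q i := fun i => by exact_mod_cast (hq i).out.one_le
  rw [MP_fc51f7_nt.cond, Nat.cast_prod, Real.exp_add, exp_lg, exp_lg, ← prod_union_inter]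
  refine le_trans (prod_le_prod_of_subset_of_one_le (fun i hi => ?_) (fun i _ => by positivity)
    fun i _ _ => h3 i) (le_mul_of_one_le_right (by positivity) (one_le_prod fun i _ => h3 i))
  by_contra h4
  simp only [mem_union, not_or] at h4
  refine h2 i (mem_univ i) ?_
  simp only [h4.1, h4.2, decide_false, sa, sb, Bool.false_eq_true, if_false]
  exact co_empty (by simpa [supp] using hi)

lemma prod_th (T U : Finset ι) (r : ι → ℤ) :
    ∏ i, th (q i) (gg h h') (sa (decide (i ∈ T))) (sb (decide (i ∈ U))) (r i) =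
      (∏ i ∈ T, xi (q i) (r i + h)) * ∏ i ∈ U, xi (q i) (r i + h') := by
  simp only [th_eq, decide_eq_true_eq, prod_mul_distrib, prod_ite_mem_eq]

lemma T0_cop {n : ℕ} (hy : ∀ T, y T ≠ 0 → ∀ i ∈ T, ¬ q i ∣ n)
    (hy' : ∀ T, y' T ≠ 0 → ∀ i ∈ T, ¬ q i ∣ n) :
    T0 q h h' y y' n = S0 q y (n + h) * S0 q y' (n + h') := by
  simp only [T0, S0, sum_mul_sum]
  refine sum_congr rfl fun T _ => sum_congr rfl fun U _ => ?_
  by_cases h0 : y T = 0 ∨ y' U = 0
  · rcases h0 with h0 | h0 <;> simp [h0]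
  push Not at h0
  rw [mul_mul_mul_comm, Xi, Xi, ← prod_th T U fun _ => n]
  congr 1
  refine prod_congr rfl fun i _ => ?_
  unfold th0
  split_ifs with h1
  · have h2 : i ∉ T := fun h2 => hy T h0.1 i h2 h1
    have h3 : i ∉ U := fun h2 => hy' U h0.2 i h2 h1
    simp [h2, h3, sa, sb, ubar_empty, th_empty]
  · rfl

lemma sum_sq_aux {α β : Type} (J : Finset α) (R : Finset β) (a : α → ℝ) (m : β → ℝ)
    (Z : α → β → ℝ) : ∑ h ∈ J, ∑ h' ∈ J, a h * a h' * ∑ r ∈ R, m r * (Z h r * Z h' r) =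
      ∑ r ∈ R, m r * (∑ h ∈ J, a h * Z h r) ^ 2 := by
  simp only [sq, sum_mul_sum]
  simp only [mul_sum]
  rw [sum_comm (s := R)]
  refine sum_congr rfl fun h _ => ?_
  rw [sum_comm (s := R)]
  exact sum_congr rfl fun h' _ => sum_congr rfl fun r _ => by ring

lemma T0_pos (J : Finset ℤ) (a : ℤ → ℝ) (Y : ℤ → Finset ι → ℝ) (n : ℕ) :
    0 ≤ ∑ h ∈ J, ∑ h' ∈ J, a h * a h' * T0 q h h' (Y h) (Y h') n := by
  have e : ∀ h h', T0 q h h' (Y h) (Y h') n = ∑ r ∈ Fintype.piFinset fun i => range (q i),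
      (∏ i, mu (q i) n (r i)) * ((∑ T, Y h T * ∏ i ∈ T, xi (q i) (r i + h)) *
        ∑ T, Y h' T * ∏ i ∈ T, xi (q i) (r i + h')) := fun h h' => by
    simp only [T0, th0_eq (two_le _), prod_univ_sum, prod_mul_distrib, sum_mul_sum,
      prod_th _ _ fun i => ((_ : ι → ℕ) i : ℤ)]
    simp only [mul_sum]
    rw [sum_comm (s := Fintype.piFinset _)]
    refine sum_congr rfl fun T _ => ?_
    rw [sum_comm (s := Fintype.piFinset _)]
    exact sum_congr rfl fun U _ => sum_congr rfl fun r _ => by ring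
  have e2 : ∑ h ∈ J, ∑ h' ∈ J, a h * a h' * T0 q h h' (Y h) (Y h') n =
      ∑ r ∈ Fintype.piFinset fun i => range (q i), (∏ i, mu (q i) n (r i)) *
        (∑ h ∈ J, a h * ∑ T, Y h T * ∏ i ∈ T, xi (q i) (r i + h)) ^ 2 := by
    simp only [e]
    exact sum_sq_aux _ _ _ _ _
  rw [e2]
  refine sum_nonneg fun r _ => mul_nonneg (prod_nonneg fun i _ => ?_) (sq_nonneg _)
  have := ww_nonneg (two_le (q := q) i)
  unfold mu; split_ifs <;> positivity

lemma weight (hy : ∀ T, |y T| ≤ 1) (hy' : ∀ T, |y' T| ≤ 1) {A s : ℝ}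
    (hs : ∀ T U, y T ≠ 0 → y' U ≠ 0 → 0 ≤ A + s * (lg q T + lg q U)) (T U : Finset ι) :
    |y T * y' U| ≤ Real.exp A * ((∏ i ∈ T, Real.exp (s * Real.log (q i))) *
      ∏ i ∈ U, Real.exp (s * Real.log (q i))) := by
  rw [← exp_mul_lg, ← exp_mul_lg, ← Real.exp_add, ← Real.exp_add, ← mul_add]
  by_cases h0 : y T = 0 ∨ y' U = 0
  · rw [mul_eq_zero.2 h0, abs_zero]; positivity
  push Not at h0
  rw [abs_mul]
  exact (mul_le_one₀ (hy T) (abs_nonneg _) (hy' U)).trans (Real.one_le_exp (hs T U h0.1 h0.2))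

lemma Dc_le (u : ι → ℝ) (hu : ∀ i, 0 ≤ u i) {M : ℝ} (hM : 0 ≤ M)
    (hw : ∀ T U, |y T * y' U| ≤ M * ((∏ i ∈ T, u i) * ∏ i ∈ U, u i)) (B v : ι → ℝ)
    (hB : ∀ i, 1 + u i * (ww (q i) * |xi (q i) h|) + u i * (ww (q i) * |xi (q i) h'|) +
      u i ^ 2 * |ubar (q i) (gg h h') (sa true) (sb true)| ≤ B i)
    (hv : ∀ i, (2 * u i + u i ^ 2) * (4 / q i) ≤ v i) (χ : Ch q) :
    ‖Dc q h h' y y' χ‖ ≤ M * (∏ i, B i) * ∏ i ∈ supp q χ, v i := by
  classical
  have h1 : ‖Dc q h h' y y' χ‖ ≤ ∑ T : Finset ι, ∑ U : Finset ι, |y T * y' U| *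
      ∏ i, ‖co (q i) (gg h h') (sa (decide (i ∈ T))) (sb (decide (i ∈ U))) (χ i)‖ := by
    refine (norm_sum_le _ _).trans (sum_le_sum fun T _ => (norm_sum_le _ _).trans
      (sum_le_sum fun U _ => ?_))
    rw [norm_mul, norm_prod, Complex.norm_real, Real.norm_eq_abs]
  refine h1.trans ((pair_le y y' u hw
    (fun i a b => ‖co (q i) (gg h h') (sa a) (sb b) (χ i)‖) fun _ _ _ => norm_nonneg _).trans ?_)
  have e : ∏ i ∈ supp q χ, v i = ∏ i, if χ i ≠ 1 then v i else 1 := by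
    rw [← prod_filter]; congr 1; ext i; simp [supp]
  rw [mul_assoc, e, ← prod_mul_distrib]
  refine mul_le_mul_of_nonneg_left (prod_le_prod (fun i _ => by have := hu i; positivity)
    fun i _ => ?_) hM
  have h2 := two_le (q := q) i
  have h3 := ww_nonneg h2
  have h4 := hu i
  have h5 := hB i
  split_ifs with hχ
  · have h6 : 1 ≤ B i := le_trans (by
      have : 0 ≤ u i * (ww (q i) * |xi (q i) h|) + u i * (ww (q i) * |xi (q i) h'|) +
        u i ^ 2 * |ubar (q i) (gg h h') (sa true) (sb true)| := by positivity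
      linarith) h5
    have a1 := norm_co_le4 (h := h) (h' := h') h2 (A := sa true) (A' := sb false) (by simp [sa]) (χ i)
    have a2 := norm_co_le4 (h := h) (h' := h') h2 (A := sa false) (A' := sb true) (by simp [sb]) (χ i)
    have a3 := norm_co_le4 (h := h) (h' := h') h2 (A := sa true) (A' := sb true) (by simp [sa]) (χ i)
    have a4 : co (q i) (gg h h') (sa false) (sb false) (χ i) = 0 := co_empty hχ
    have a5 := hv i
    have a6 : 0 ≤ v i := le_trans (by positivity) a5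
    rw [a4, norm_zero]
    nlinarith [mul_le_mul_of_nonneg_left a1 h4, mul_le_mul_of_nonneg_left a2 h4,
      mul_le_mul_of_nonneg_left a3 (sq_nonneg (u i)), mul_le_mul_of_nonneg_right h6 a6]
  · have a4 : ubar (q i) (gg h h') (sa false) (sb false) = 1 := ubar_empty
    simp only [not_not.1 hχ, co_one, Complex.norm_real, Real.norm_eq_abs, a4, ub_tf h2, ub_ft h2,
      abs_neg, abs_mul, abs_of_nonneg h3, abs_one, mul_one]
    exact h5

lemma Dc_off (hy : ∀ T, |y T| ≤ 1) (hy' : ∀ T, |y' T| ≤ 1) {s Λ : ℝ} (hs0 : 0 ≤ s)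
    (hs1 : s ≤ 1 / 4) (hs : ∀ T U, y T ≠ 0 → y' U ≠ 0 → Λ ≤ lg q T + lg q U) (χ : Ch q) :
    ‖Dc q h h' y y' χ‖ ≤ Real.exp (-(s * Λ)) * (Pm q h * Pm q h' * Pm q (h - h')) *
      ∏ i ∈ supp q χ, 12 * (q i : ℝ) ^ (2 * s - 1) := by
  simp only [Pm, ← prod_mul_distrib]
  have hu : ∀ i, (1 : ℝ) ≤ Real.exp (s * Real.log (q i)) ∧
      Real.exp (s * Real.log (q i)) ^ 2 = (q i : ℝ) ^ (2 * s) := fun i =>
    ⟨Real.one_le_exp (mul_nonneg hs0 (Real.log_natCast_nonneg _)), by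
      rw [← Real.exp_nat_mul, Real.rpow_def_of_pos (by exact_mod_cast (hq i).out.pos)]
      congr 1; push_cast; ring⟩
  refine Dc_le _ (fun i => (Real.exp_pos _).le) (Real.exp_pos _).le (weight hy hy' fun T U a b =>
    by nlinarith [hs T U a b]) _ _ (fun i => ?_) (fun i => ?_) χ
  · have h2 := two_le (q := q) i
    have h3 := ww_nonneg h2
    have h4 := ww_le_one h2
    obtain ⟨h5, h6⟩ := hu i
    have h7 : Real.exp (s * Real.log (q i)) ^ 2 ≤ √(q i) := by
      rw [h6, Real.sqrt_eq_rpow]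
      exact Real.rpow_le_rpow_of_exponent_le (by exact_mod_cast (hq i).out.one_le) (by linarith)
    generalize Real.exp (s * Real.log (q i)) = u at h5 h7
    have h8 : u ≤ √(q i) := by nlinarith
    have h9 : |ubar (q i) (gg h h') (sa true) (sb true)| ≤
        ww (q i) * (2 * |xi (q i) (h - h')| + |xi (q i) h|) := by
      rw [ub_tt h2, abs_neg, abs_mul, abs_of_nonneg h3]
      refine mul_le_mul_of_nonneg_left ((abs_add_le _ _).trans ?_) h3
      rw [abs_mul, abs_mul, abs_of_nonneg (by linarith : 0 ≤ 1 + ww (q i))]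
      exact add_le_add (by gcongr; linarith)
        (mul_le_of_le_one_right (abs_nonneg _) (MP_fc51f7_nt.abs_xi_le h2 _))
    simp only [mj, mul_assoc]
    have b1 : 0 ≤ ww (q i) * (√(q i) * |xi (q i) h|) := by positivity
    have b2 : 0 ≤ ww (q i) * (√(q i) * |xi (q i) h'|) := by positivity
    have b3 : 0 ≤ ww (q i) * (√(q i) * |xi (q i) (h - h')|) := by positivity
    have b4 := mul_le_mul_of_nonneg_right h8 (by positivity : 0 ≤ ww (q i) * |xi (q i) h|)
    have b5 := mul_le_mul_of_nonneg_right h8 (by positivity : 0 ≤ ww (q i) * |xi (q i) h'|)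
    have b6 := mul_le_mul h7 h9 (abs_nonneg _) (Real.sqrt_nonneg _)
    nlinarith [mul_nonneg b1 b2, mul_nonneg b1 b3, mul_nonneg b2 b3,
      mul_nonneg (mul_nonneg b1 b2) b3]
  · obtain ⟨h5, h6⟩ := hu i
    have h1 : (0 : ℝ) < q i := by exact_mod_cast (hq i).out.pos
    rw [Real.rpow_sub_one h1.ne', ← h6]
    generalize Real.exp (s * Real.log (q i)) = u at h5
    calc _ ≤ (3 * u ^ 2) * (4 / q i) := by gcongr; nlinarith
      _ = _ := by ring

lemma exp_diag {L : ℝ} (hL : 0 < L) (i : ι) : Real.exp (-L⁻¹ * Real.log (q i)) ≤ 1 ∧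
    Real.exp (-L⁻¹ * Real.log (q i)) ^ 2 = Real.exp (-(2 * L⁻¹ * Real.log (q i))) := by
  have := Real.log_natCast_nonneg (q i)
  refine ⟨Real.exp_le_one_iff.2 (by rw [neg_mul, neg_nonpos]; positivity), ?_⟩
  rw [← Real.exp_nat_mul]; congr 1; push_cast; ring

lemma weight_diag (hy : ∀ T, |y T| ≤ 1) {L : ℝ} (hL : 0 < L)
    (hs : ∀ T, y T ≠ 0 → lg q T ≤ L / 2) (T U : Finset ι) :
    |y T * y U| ≤ 3 * ((∏ i ∈ T, Real.exp (-L⁻¹ * Real.log (q i))) *
      ∏ i ∈ U, Real.exp (-L⁻¹ * Real.log (q i))) := by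
  refine (weight (q := q) (A := 1) (s := -L⁻¹) hy hy (fun T U a b => ?_) T U).trans ?_
  · have : L⁻¹ * (lg q T + lg q U) ≤ 1 := by
      rw [inv_mul_le_iff₀ hL]; linarith [hs T a, hs U b]
    linarith
  · gcongr; exact Real.exp_one_lt_three.le

lemma ub_diag {p : ℕ} (hp : 2 ≤ p) :
    ubar p (gg h h) (sa true) (sb true) = ww p + ww p * (1 - ww p) * xi p h := by
  rw [ub_tt hp, xi_sq, sub_self, show xi p 0 = -1 by simp [xi]]; ring

lemma Dc_diag (hy : ∀ T, |y T| ≤ 1) {L : ℝ} (hL : 0 < L) (hs : ∀ T, y T ≠ 0 → lg q T ≤ L / 2)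
    (χ : Ch q) : ‖Dc q h h y y χ‖ ≤ 3 * (Zf q (2 * L⁻¹) * Pm q h) *
      ∏ i ∈ supp q χ, 12 * (q i : ℝ)⁻¹ := by
  simp only [Pm, Zf, ← prod_mul_distrib]
  refine Dc_le _ (fun i => (Real.exp_pos _).le) (by norm_num) (weight_diag hy hL hs) _ _
    (fun i => ?_) (fun i => ?_) χ
  · have h2 := two_le (q := q) i
    have h3 := ww_nonneg h2
    have h4 := ww_le_one h2
    obtain ⟨h5, h6⟩ := exp_diag (q := q) hL i
    rw [← h6]
    have h7 := Real.exp_pos (-L⁻¹ * Real.log (q i))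
    generalize Real.exp (-L⁻¹ * Real.log (q i)) = u at h5 h7
    have h9 : |ubar (q i) (gg h h) (sa true) (sb true)| ≤ ww (q i) + ww (q i) * |xi (q i) h| := by
      rw [ub_diag h2]
      refine (abs_add_le _ _).trans ?_
      rw [abs_mul, abs_of_nonneg h3, abs_of_nonneg (mul_nonneg h3 (by linarith))]
      gcongr
      exact mul_le_of_le_one_right h3 (by linarith)
    have h8 : 1 ≤ √(q i) := Real.one_le_sqrt.2 (by exact_mod_cast (hq i).out.one_le)
    have b1 : 0 ≤ ww (q i) * |xi (q i) h| := by positivity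
    have b2 : u ^ 2 ≤ 1 := pow_le_one₀ h7.le h5
    have b3 := mul_le_mul_of_nonneg_left h9 (sq_nonneg u)
    have b4 := mul_le_mul_of_nonneg_right h8 b1
    have b5 : 0 ≤ u ^ 2 * ww (q i) * (√(q i) * (ww (q i) * |xi (q i) h|)) := by positivity
    change _ ≤ (1 + u ^ 2 * ww (q i)) * _
    unfold mj
    nlinarith [mul_le_mul_of_nonneg_right h5 b1, mul_le_mul_of_nonneg_right b2 b1]
  · obtain ⟨h5, -⟩ := exp_diag (q := q) hL i
    have h7 := Real.exp_pos (-L⁻¹ * Real.log (q i))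
    generalize Real.exp (-L⁻¹ * Real.log (q i)) = u at h5 h7
    calc _ ≤ 3 * (4 / (q i : ℝ)) := by gcongr; nlinarith
      _ = _ := by ring

/-- the fluctuating part of the diagonal local matrix -/
def bt (w : ℝ) : Bool → Bool → ℝ
  | false, false => 0
  | true, true => w * (1 - w)
  | _, _ => -w

lemma ub_split {p : ℕ} [hp : Fact p.Prime] (t u : Bool) :
    ubar p (gg h h) (sa t) (sb u) = bt (ww p) t u * xi p h + dg (ww p) t u := by
  have h2 := hp.out.two_le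
  cases t <;> cases u
  · simpa [bt, dg, sa, sb] using ubar_empty
  · simp [ub_ft h2, bt, dg]
  · simp [ub_tf h2, bt, dg]
  · rw [ub_diag h2, bt, dg]; ring

lemma Tb_diag (hi : Function.Injective q) (hy : ∀ T, |y T| ≤ 1) {L : ℝ} (hL : 0 < L)
    (hs : ∀ T, y T ≠ 0 → lg q T ≤ L / 2) {H : Finset ℤ} {g : ℤ → ℝ} (hg : ∀ d, |g d| ≤ 1) {K : ℕ}
    (hH : ∀ d ∈ H, d ≠ 0 ∧ |d| ≤ K)
    (hX : ∀ V : Finset ι, V ≠ ∅ → |∑ d ∈ H, g d ^ 2 * Xi q V d| ≤ 5 * Real.exp (lg q V))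
    {Q : ℝ} (hQ : 0 < Q) :
    ∑ d ∈ H, g d ^ 2 * Tb q d d y y ≤ (∑ d ∈ H, g d ^ 2) * ∑ T, y T ^ 2 * wt q T +
      3 * Zf q (2 * L⁻¹) * (5 * Q ^ 3 * CE + 2 * CE ^ 2 * K / Q) := by
  set W : Finset ι → ℝ := fun V => ∑ T : Finset ι, ∑ U : Finset ι, y T * y U * ∏ i,
    if i ∈ V then bt (ww (q i)) (decide (i ∈ T)) (decide (i ∈ U)) else
      dg (ww (q i)) (decide (i ∈ T)) (decide (i ∈ U)) with hW
  have hw := fun i => ww_nonneg (two_le (q := q) i)
  have hw1 := fun i => ww_le_one (two_le (q := q) i)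
  have hq0 : ∀ i, (0 : ℝ) < q i := fun i => by exact_mod_cast (hq i).out.pos
  have e1 : ∀ d, Tb q d d y y = ∑ V, Xi q V d * W V := fun d => by
    simp only [Tb, ub_split, ← sum_prod_ite, hW, mul_sum]
    rw [sum_comm (t := (univ : Finset (Finset ι))) (f := fun V T => ∑ U, Xi q V d * _)]
    refine sum_congr rfl fun T _ => ?_
    rw [sum_comm]
    refine sum_congr rfl fun V _ => sum_congr rfl fun U _ => ?_
    rw [mul_left_comm, Xi, ← prod_ite_mem_eq V, ← prod_mul_distrib]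
    congr 1
    exact prod_congr rfl fun i _ => by split_ifs <;> ring
  have e2 : W ∅ = ∑ T, y T ^ 2 * wt q T := by
    simp only [hW, notMem_empty, if_false, prod_dg, mul_ite, mul_zero, sum_ite_eq, mem_univ,
      if_true, sq]
    rfl
  have hZ := one_le_Zf q two_le (2 * L⁻¹)
  have e3 : ∀ V, |W V| ≤ 3 * Zf q (2 * L⁻¹) * ∏ i ∈ V, 3 * ww (q i) := fun V => by
    refine le_trans ?_ ((pair_le y y _ (weight_diag hy hL hs) (fun i a b =>
      |if i ∈ V then bt (ww (q i)) a b else dg (ww (q i)) a b|) fun _ _ _ => abs_nonneg _).trans ?_)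
    · refine (abs_sum_le_sum_abs _ _).trans (sum_le_sum fun T _ => (abs_sum_le_sum_abs _ _).trans
        (sum_le_sum fun U _ => ?_))
      rw [abs_mul, abs_prod]
    · rw [mul_assoc, Zf, ← prod_ite_mem_eq V, ← prod_mul_distrib]
      refine mul_le_mul_of_nonneg_left (prod_le_prod (fun i _ => by positivity) fun i _ => ?_)
        (by norm_num)
      obtain ⟨h5, h6⟩ := exp_diag (q := q) hL i
      rw [← h6]
      have h7 := Real.exp_pos (-L⁻¹ * Real.log (q i))
      generalize Real.exp (-L⁻¹ * Real.log (q i)) = u at h5 h7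
      have h3 := hw i
      have h4 := hw1 i
      change _ ≤ (1 + u ^ 2 * ww (q i)) * _
      generalize ww (q i) = w at h3 h4
      have b2 : u ^ 2 ≤ 1 := pow_le_one₀ h7.le h5
      split_ifs
      · simp only [bt, abs_zero, abs_neg, abs_of_nonneg h3,
          abs_of_nonneg (mul_nonneg h3 (sub_nonneg.2 h4))]
        have b3 : 0 ≤ u ^ 2 * w * w := by positivity
        nlinarith [mul_le_mul_of_nonneg_right h5 h3, mul_le_mul_of_nonneg_right b2 h3]
      · simp [dg, abs_of_nonneg h3]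
  have e4 : ∀ V ∈ univ.erase (∅ : Finset ι), (∑ d ∈ H, g d ^ 2 * Xi q V d) * W V ≤
      3 * Zf q (2 * L⁻¹) * (5 * Q ^ 3 * ∏ i ∈ V, 3 * ww (q i) / √(q i) +
        (∑ d ∈ H, ∏ i ∈ V, 3 * ww (q i) * √(q i) * |xi (q i) d|) / Q) := fun V hV => by
    have a1 := hX V (ne_of_mem_erase hV)
    have a2 : |∑ d ∈ H, g d ^ 2 * Xi q V d| ≤ ∑ d ∈ H, ∏ i ∈ V, |xi (q i) d| := by
      refine (abs_sum_le_sum_abs _ _).trans (sum_le_sum fun d _ => ?_)
      rw [abs_mul, Xi, abs_prod, abs_pow]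
      exact mul_le_of_le_one_left (by positivity) (pow_le_one₀ (abs_nonneg _) (hg d))
    have a3 : 0 < ∏ i ∈ V, √(q i) := prod_pos fun i _ => Real.sqrt_pos.2 (hq0 i)
    have a4 : Real.exp (lg q V) = (∏ i ∈ V, √(q i)) ^ 2 := by
      rw [exp_lg, ← prod_pow]
      exact prod_congr rfl fun i _ => (Real.sq_sqrt (hq0 i).le).symm
    simp only [prod_mul_distrib (g := fun i => |xi (q i) _|),
      prod_mul_distrib (g := fun i => √(q i)), prod_div_distrib, ← mul_sum]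
    rw [a4] at a1
    have a5 : 0 ≤ ∑ d ∈ H, ∏ i ∈ V, |xi (q i) d| := (abs_nonneg _).trans a2
    have a6 : 0 ≤ ∏ i ∈ V, 3 * ww (q i) := prod_nonneg fun i _ => by have := hw i; positivity
    have a7 := e3 V
    generalize ∏ i ∈ V, √(q i) = P at a1 a3
    generalize ∑ d ∈ H, ∏ i ∈ V, |xi (q i) d| = S at a2 a5
    have a8 : |∑ d ∈ H, g d ^ 2 * Xi q V d| ≤ 5 * Q ^ 3 / P + P * S / Q := by
      rcases le_total P Q with h1 | h1
      · refine a1.trans (le_add_of_le_of_nonneg ?_ (by positivity))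
        rw [le_div_iff₀ a3]
        calc 5 * P ^ 2 * P = 5 * P ^ 3 := by ring
          _ ≤ _ := by gcongr
      · refine a2.trans (le_add_of_nonneg_of_le (by positivity) ?_)
        rw [le_div_iff₀ hQ, mul_comm]; gcongr
    refine (le_abs_self _).trans ?_
    rw [abs_mul]
    exact (mul_le_mul a8 a7 (abs_nonneg _) (by positivity)).trans_eq (by ring)
  have e5 : ∑ d ∈ H, g d ^ 2 * Tb q d d y y = ∑ V, (∑ d ∈ H, g d ^ 2 * Xi q V d) * W V := by
    simp only [sum_mul]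
    rw [sum_comm]
    exact sum_congr rfl fun d _ => by rw [e1, mul_sum]; simp only [mul_assoc]
  rw [e5, ← add_sum_erase _ _ (mem_univ ∅), e2]
  refine add_le_add (by simp [Xi]) ((sum_le_sum e4).trans ?_)
  rw [← mul_sum]
  refine mul_le_mul_of_nonneg_left ((sum_le_sum_of_subset_of_nonneg (erase_subset _ _)
    fun V _ _ => ?_).trans ?_) (by positivity)
  · have : 0 ≤ ∏ i ∈ V, 3 * ww (q i) / √(q i) := prod_nonneg fun i _ => by
      have := hw i; positivity
    have : 0 ≤ ∑ d ∈ H, ∏ i ∈ V, 3 * ww (q i) * √(q i) * |xi (q i) d| :=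
      sum_nonneg fun d _ => prod_nonneg fun i _ => by have := hw i; positivity
    positivity
  · rw [sum_add_distrib, ← mul_sum, ← sum_div, sum_comm, ← powerset_univ]
    simp only [← prod_one_add]
    gcongr
    · refine prod_le_CE hi _ (fun i => by have := hw i; positivity) fun i => ?_
      have := ww_le (two_le (q := q) i)
      have h1 := Real.sqrt_pos.2 (hq0 i)
      have h2 := Real.mul_self_sqrt (hq0 i).le
      have := hq0 i
      calc _ ≤ 3 * (2 / q i) / √(q i) := by gcongr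
        _ = 6 * √(q i) / (q i : ℝ) ^ 2 := by field_simp; nlinarith
        _ ≤ _ := by gcongr; norm_num
    · exact sum_Pm hi hH

end

end Pool.Agent.Lib.MP_c702b2_nt
end

-- part Pool.Agent.Lib.MP_c702b2_nt.Mom
section

/-! Second moments of the window statistic over integers and over primes. -/

set_option autoImplicit false
set_option linter.unusedSectionVars false

namespace Pool.Agent.Lib.MP_c702b2_nt

open Finset Filter Topology Pool.Agent.Lib.MP_fc51f7_nt BV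

noncomputable section

lemma off_diag {E : Type} [NormedAddCommGroup E] [NormedSpace ℝ E] (J : Finset ℤ) (a : ℤ → ℝ)
    (m : ℤ → ℤ → E) {β : ℝ} (hβ : 0 ≤ β) (h : ∀ d ∈ J, ∀ d' ∈ J, d ≠ d' → ‖m d d'‖ ≤ β) :
    ‖∑ d ∈ J, ∑ d' ∈ J, (a d * a d') • m d d' - ∑ d ∈ J, a d ^ 2 • m d d‖ ≤
      (∑ d ∈ J, |a d|) ^ 2 * β := by
  rw [← sum_sub_distrib, sq, sum_mul_sum, sum_mul]
  refine (norm_sum_le _ _).trans (sum_le_sum fun d hd => ?_)
  rw [← add_sum_erase _ _ hd, sq, add_sub_cancel_left, sum_mul]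
  refine (norm_sum_le _ _).trans ((sum_le_sum fun d' hd' => ?_).trans
    (sum_le_sum_of_subset_of_nonneg (erase_subset d J) fun _ _ _ => by positivity))
  rw [norm_smul, Real.norm_eq_abs, abs_mul]
  exact mul_le_mul_of_nonneg_left (h d hd d' (mem_of_mem_erase hd') (ne_of_mem_erase hd').symm)
    (by positivity)

/-- the sieve weights -/
def yy (x : ℕ) (a b : ℝ) (T : Finset (PP 1 x)) : ℝ :=
  if a < lg (qq 1 x) T / Real.log x ∧ lg (qq 1 x) T / Real.log x ≤ b then 1 else 0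

def GS (x : ℕ) (a b : ℝ) : ℝ := ∑ T, yy x a b T * wt (qq 1 x) T

lemma GS_tendsto {a b : ℝ} (ha : 0 < a) (hab : a ≤ b) :
    Tendsto (fun x : ℕ => GS x a b / Real.log x) atTop (𝓝 (b - a)) := by
  simpa only [GS, yy, ite_mul, one_mul, zero_mul, ← sum_filter] using wt_Ioc ha hab

lemma sum_yy_sq (x : ℕ) (a b : ℝ) : ∑ T, yy x a b T ^ 2 * wt (qq 1 x) T = GS x a b :=
  sum_congr rfl fun T _ => by unfold yy; split_ifs <;> simp

/-- the window statistic -/
def Zc (x : ℕ) (a b : ℝ) (H : Finset ℤ) (g : ℤ → ℝ) (c : ℝ) (n : ℤ) : ℝ :=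
  c + (Real.log x)⁻¹ * ∑ d ∈ H, g d * S0 (qq 1 x) (yy x a b) (n + d)

def at0 (x K : ℕ) (g : ℤ → ℝ) (c : ℝ) (d : ℤ) : ℝ := if d = K + 1 then c else (Real.log x)⁻¹ * g d

def YY (x K : ℕ) (a b : ℝ) (d : ℤ) (T : Finset (PP 1 x)) : ℝ :=
  if d = K + 1 then (if T = ∅ then 1 else 0) else yy x a b T

/-- admissible windows -/
structure Win (x K : ℕ) (H : Finset ℤ) (g : ℤ → ℝ) (c : ℝ) : Prop where
  hK : (K : ℝ) ≤ 3 * Real.log x
  hH : ∀ d ∈ H, d ≠ 0 ∧ |d| ≤ K
  hg : ∀ d, |g d| ≤ 1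
  hc : |c| ≤ 20

section

variable {x K : ℕ} {a b c : ℝ} {H : Finset ℤ} {g : ℤ → ℝ}

lemma Win.notMem (h : Win x K H g c) : (K + 1 : ℤ) ∉ H := fun h1 => by
  have := le_of_abs_le (h.hH _ h1).2; omega

lemma Win.sum_eq (h : Win x K H g c) {M : Type} [AddCommMonoid M] (f : ℝ → (Finset (PP 1 x) → ℝ) → ℤ → M) :
    ∑ d ∈ insert (K + 1 : ℤ) H, f (at0 x K g c d) (YY x K a b d) d =
      f c (fun T => if T = ∅ then 1 else 0) (K + 1) +
        ∑ d ∈ H, f ((Real.log x)⁻¹ * g d) (yy x a b) d := by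
  rw [sum_insert h.notMem]
  congr 1
  · congr 1
    · simp [at0]
    · funext T; simp [YY]
  · refine sum_congr rfl fun d hd => ?_
    have : d ≠ K + 1 := fun e => h.notMem (e ▸ hd)
    congr 1
    · simp [at0, this]
    · funext T; simp [YY, this]

lemma Win.Zc_eq (h : Win x K H g c) (n : ℤ) : Zc x a b H g c n =
    ∑ d ∈ insert (K + 1 : ℤ) H, at0 x K g c d * S0 (qq 1 x) (YY x K a b d) (n + d) := by
  rw [h.sum_eq fun t y d => t * S0 (qq 1 x) y (n + d), Zc, mul_sum]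
  simp [S0, Xi, mul_assoc]

lemma Win.sum_abs (h : Win x K H g c) (hL : 1 ≤ Real.log x) :
    (∑ d ∈ insert (K + 1 : ℤ) H, |at0 x K g c d|) ^ 2 ≤ 676 := by
  have h1 := card_dvd_int one_pos h.hH
  simp only [Nat.cast_one, one_dvd, filter_true, div_one] at h1
  have h2 : ∑ d ∈ H, |(Real.log x)⁻¹ * g d| ≤ 6 := by
    refine (sum_le_card_nsmul _ _ (Real.log x)⁻¹ fun d _ => ?_).trans ?_
    · rw [abs_mul, abs_of_nonneg (by positivity)]
      exact mul_le_of_le_one_right (by positivity) (h.hg d)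
    · rw [nsmul_eq_mul, ← div_eq_mul_inv, div_le_iff₀ (by linarith)]; linarith [h.hK]
  rw [h.sum_eq (a := 0) (b := 0) fun t _ _ => |t|, show (676 : ℝ) = 26 ^ 2 by norm_num]
  exact pow_le_pow_left₀ (by positivity) (by linarith [h.hc]) 2

lemma abs_YY (d : ℤ) (T : Finset (PP 1 x)) : |YY x K a b d T| ≤ 1 := by
  unfold YY yy; split_ifs <;> simp

lemma abs_yy (T : Finset (PP 1 x)) : |yy x a b T| ≤ 1 := by
  unfold yy; split_ifs <;> simp

lemma yy_supp (hL : 0 < Real.log x) {T : Finset (PP 1 x)} (h : yy x a b T ≠ 0) :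
    a * Real.log x ≤ lg (qq 1 x) T ∧ lg (qq 1 x) T ≤ b * Real.log x := by
  unfold yy at h
  split_ifs at h with h1
  · exact ⟨((lt_div_iff₀ hL).1 h1.1).le, (div_le_iff₀ hL).1 h1.2⟩
  · exact absurd rfl h

lemma YY_supp (hL : 0 < Real.log x) (hb : 0 ≤ b) (d : ℤ) (T : Finset (PP 1 x))
    (h : YY x K a b d T ≠ 0) : lg (qq 1 x) T ≤ b * Real.log x := by
  unfold YY at h
  split_ifs at h with h1 h2
  · rw [h2, lg, sum_empty]; positivity
  · exact absurd rfl h
  · exact (yy_supp hL h).2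

lemma YY_off (hL : 0 < Real.log x) {d d' : ℤ} (hd : d ≠ d') (T U : Finset (PP 1 x))
    (h : YY x K a b d T ≠ 0) (h' : YY x K a b d' U ≠ 0) :
    a * Real.log x ≤ lg (qq 1 x) T + lg (qq 1 x) U := by
  have h1 := lg_nonneg (qq 1 x) T
  have h2 := lg_nonneg (qq 1 x) U
  by_cases h3 : d = K + 1
  · rw [YY, if_neg fun e => hd (h3.trans e.symm)] at h'
    linarith [(yy_supp hL h').1]
  · rw [YY, if_neg h3] at h
    linarith [(yy_supp hL h).1]

lemma Win.Pm_le (h : Win x K H g c) (hL : 1 ≤ Real.log x) {d : ℤ} (h0 : d ≠ 0)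
    (h1 : |d| ≤ 2 * K + 2) : Pm (qq 1 x) d ≤ 16 * CE ^ 2 * Real.log x := by
  refine (MP_c702b2_nt.Pm_le (BV.qq_inj 1 x) (K := 2 * K + 2) h0 (by exact_mod_cast h1)).trans ?_
  push_cast
  nlinarith [mul_le_mul_of_nonneg_left h.hK (sq_nonneg CE),
    mul_le_mul_of_nonneg_left hL (sq_nonneg CE)]

lemma Win.mem (h : Win x K H g c) {d : ℤ} (hd : d ∈ insert (K + 1 : ℤ) H) :
    d ≠ 0 ∧ |d| ≤ K + 1 := by
  rcases mem_insert.1 hd with rfl | h1
  · exact ⟨by omega, (abs_of_nonneg (by omega)).le⟩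
  · exact ⟨(h.hH d h1).1, by linarith [(h.hH d h1).2]⟩

end

lemma decay_ev {a : ℝ} (ha : 0 < a) (C : ℝ) {e : ℝ} (he : 0 < e) : ∀ᶠ x : ℕ in atTop,
    Real.exp (-(a * Real.log x)) * (C * Real.log x) ^ 3 ≤ e := by
  filter_upwards [exp_ev ha (|C| ^ 3 / e), log_ev] with x h hL
  rw [Real.exp_neg, inv_mul_le_iff₀ (Real.exp_pos _), ← div_le_iff₀ he]
  refine le_trans ?_ h
  have : Real.log x ^ 3 ≤ Real.log x ^ 7 := pow_le_pow_right₀ hL (by norm_num)
  calc _ ≤ (|C| * Real.log x) ^ 3 / e := by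
        refine div_le_div_of_nonneg_right ((Odd.pow_le_pow (show Odd 3 by decide)).2
          (mul_le_mul_of_nonneg_right (le_abs_self C) (zero_le_one.trans hL))) he.le
    _ = |C| ^ 3 / e * Real.log x ^ 3 := by ring
    _ ≤ _ := by gcongr

theorem unif {a b e : ℝ} (ha : 0 < a) (hb0 : 0 ≤ b) (hb : b < 1 / 4) (he : 0 < e) :
    ∀ᶠ x : ℕ in atTop, ∀ (K : ℕ) (H : Finset ℤ) (g : ℤ → ℝ) (c : ℝ), Win x K H g c →
      ∀ N1 N2 : ℕ, N1 ≤ N2 → ∑ n ∈ Ioc N1 N2, Zc x a b H g c n ^ 2 ≤ ((N2 : ℝ) - N1) *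
        (c ^ 2 + (∑ d ∈ H, g d ^ 2) * GS x a b / Real.log x ^ 2 + e) + e * x := by
  filter_upwards [log_ev, decay_ev (a := a / 4) (by positivity) (16 * CE ^ 2) (e := e / 676)
    (by positivity), small_ev (a := 1 - 4 * b) (by linarith) (ε := e / 2704) (by positivity)]
    with x hL h1 h2 K H g c h N1 N2 hN
  have hL0 : 0 < Real.log x := by linarith
  set J := insert (K + 1 : ℤ) H with hJ
  set m : ℤ → ℤ → ℝ := fun d d' => ∑ T, YY x K a b d T * YY x K a b d' T *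
    ∏ i ∈ T, -(ww (qq 1 x i) * xi (qq 1 x i) (d - d')) with hm
  have h3 := h.sum_abs hL
  have h4 := off_diag J (at0 x K g c) m (β := e / 676) (by positivity) fun d hd d' hd' hne => by
    have a1 := h.Pm_le hL (sub_ne_zero.2 hne) ((abs_sub _ _).trans
      (by linarith [(h.mem hd).2, (h.mem hd').2]))
    have a2 := one_le_Pm (q := qq 1 x) (d - d')
    refine le_trans ?_ (le_trans (mul_le_mul_of_nonneg_left ((le_self_pow₀ a2 three_ne_zero).trans
      (pow_le_pow_left₀ (by linarith) a1 3)) (Real.exp_pos _).le) h1)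
    simp only [Pm, mj]
    rw [prod_one_add, powerset_univ, mul_sum]
    refine (abs_sum_le_sum_abs _ _).trans (sum_le_sum fun T _ => ?_)
    rw [abs_mul, abs_prod]
    refine (mul_le_mul_of_nonneg_right (weight (q := qq 1 x) (A := -(a / 4 * Real.log x))
      (s := 1 / 4) (abs_YY d) (abs_YY d') (fun T U c1 c2 => by linarith [YY_off hL0 hne T U c1 c2])
      T T) (by positivity)).trans ?_
    rw [mul_assoc, ← prod_mul_distrib, ← prod_mul_distrib]
    refine mul_le_mul_of_nonneg_left (prod_le_prod (fun i _ => by positivity) fun i _ => ?_)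
      (Real.exp_pos _).le
    have a3 := ww_nonneg (two_le (q := qq 1 x) i)
    rw [← Real.exp_add, abs_neg, abs_mul, abs_of_nonneg a3, Real.sqrt_eq_rpow,
      Real.rpow_def_of_pos (by exact_mod_cast (Fact.out : (qq 1 x i).Prime).pos),
      show 1 / 4 * Real.log (qq 1 x i) + 1 / 4 * Real.log (qq 1 x i) =
        Real.log (qq 1 x i) * (1 / 2) by ring]
    have : 0 ≤ Real.exp (Real.log (qq 1 x i) * (1 / 2)) *
      (ww (qq 1 x i) * |xi (qq 1 x i) (d - d')|) := by positivity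
    linarith
  have h5 : ∑ d ∈ J, at0 x K g c d ^ 2 • m d d =
      c ^ 2 + (∑ d ∈ H, g d ^ 2) * GS x a b / Real.log x ^ 2 := by
    simp only [hm, sub_self, xi, dvd_zero, if_true, mul_neg, mul_one, neg_neg, ← sq, smul_eq_mul]
    rw [h.sum_eq fun t y _ => t ^ 2 * ∑ T, y T ^ 2 * ∏ i ∈ T, ww (qq 1 x i), ← sum_yy_sq, sum_mul,
      sum_div]
    congr 1
    · simp
    · exact sum_congr rfl fun d _ => by rw [mul_pow]; field_simp; rfl
  have h6 : ∑ n ∈ Ioc N1 N2, Zc x a b H g c n ^ 2 ≤ ∑ d ∈ J, ∑ d' ∈ J,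
      (((N2 : ℝ) - N1) * ((at0 x K g c d * at0 x K g c d') • m d d') +
        |at0 x K g c d| * |at0 x K g c d'| * (4 * Real.exp (4 * (b * Real.log x)))) := by
    simp only [h.Zc_eq, sq, sum_mul_sum]
    rw [sum_comm]
    refine sum_le_sum fun d _ => ?_
    rw [sum_comm]
    refine sum_le_sum fun d' _ => ?_
    have := corr_sum (BV.qq_inj 1 x) d d' (abs_YY (K := K) (a := a) (b := b) d)
      (abs_YY (K := K) (a := a) (b := b) d') (YY_supp hL0 hb0 d) (YY_supp hL0 hb0 d') hN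
    simp only [mul_mul_mul_comm (at0 x K g c d), ← mul_sum]
    rw [← sub_le_iff_le_add', smul_eq_mul, mul_left_comm, ← mul_sub, ← abs_mul]
    refine (le_abs_self _).trans ?_
    rw [abs_mul]
    exact mul_le_mul_of_nonneg_left this (abs_nonneg _)
  simp only [sum_add_distrib, ← mul_sum, ← sum_mul, ← sq] at h6
  rw [h5] at h4
  have h7 := (le_abs_self _).trans h4
  have h8 : (0 : ℝ) ≤ N2 - N1 := sub_nonneg.2 (by exact_mod_cast hN)
  refine h6.trans (add_le_add (mul_le_mul_of_nonneg_left (by nlinarith) h8) ?_)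
  have h9 : Real.exp (4 * (b * Real.log x)) ≤ e / 2704 * x := by
    refine le_trans ?_ h2
    rw [show (1 - (1 - 4 * b)) * Real.log x = 4 * (b * Real.log x) by ring]
    exact le_mul_of_one_le_left (by positivity) (one_le_pow₀ hL)
  calc _ ≤ 676 * (4 * (e / 2704 * x)) := by gcongr
    _ = _ := by ring

lemma Dc_const {ι : Type} [Fintype ι] [DecidableEq ι] {q : ι → ℕ} [hq : ∀ i, Fact (q i).Prime]
    (d : ℤ) (v : ι → ℝ) (hv : ∀ i, 0 ≤ v i) (χ : Ch q) :
    ‖Dc q d d (fun T => if T = ∅ then 1 else 0) (fun T => if T = ∅ then 1 else 0) χ‖ ≤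
      ∏ i ∈ supp q χ, v i := by
  simpa using Dc_le (q := q) (h := d) (h' := d) (y := fun T => if T = ∅ then 1 else 0)
    (y' := fun T => if T = ∅ then 1 else 0) (fun _ => 0) (fun _ => le_rfl) zero_le_one
    (fun T U => by split_ifs with h1 h2 <;> simp [*]) (fun _ => 1) v (by simp) (by simpa) χ

theorem palm {a b e : ℝ} (ha : 0 < a) (hb0 : 0 ≤ b) (hb : b < 1 / 4) (he : 0 < e) :
    ∀ᶠ x : ℕ in atTop, ∀ (K : ℕ) (H : Finset ℤ) (g : ℤ → ℝ) (c : ℝ), Win x K H g c →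
      (∀ V : Finset (PP 1 x), V ≠ ∅ →
        |∑ d ∈ H, g d ^ 2 * Xi (qq 1 x) V d| ≤ 5 * Real.exp (lg (qq 1 x) V)) →
      ∀ N : ℕ, √x ≤ N → ∑ p ∈ Ioc N x with p.Prime, Real.log p * Zc x a b H g c p ^ 2 ≤
        ((c ^ 2 + (∑ d ∈ H, g d ^ 2) * GS x a b / Real.log x ^ 2 + e) * (1 + e) + e) * x := by
  classical
  obtain ⟨κ, hκ, hκ1, hapl⟩ := apl (η0 := 1 / 2 - 2 * b) (by linarith) (by linarith) he
  obtain ⟨Cκ, hCκ, hC⟩ := pow_card_le' (half_pos hκ)
  have hCE := CE_pos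
  filter_upwards [hapl (Cκ * (400 + 36 * CE ^ 2 + e / 4)) (by positivity), log_ev,
    decay_ev (a := κ / 4 * a) (by positivity) (16 * CE ^ 2) (e := e / 2704) (by positivity),
    Zf_ev 1 one_le_two, eventually_gt_atTop 0,
    Meas.tendsto_L.eventually_ge_atTop (120 * (72 * CE ^ 2 / e) ^ 3 * CE / e)]
    with x hx hL h1 hZ hx0 hL2 K H g c h hX N hN
  have hL0 : 0 < Real.log x := by linarith
  set J := insert (K + 1 : ℤ) H with hJ
  set v : Ch (qq 1 x) → ℝ := fun χ => ∏ i ∈ supp (qq 1 x) χ, 12 * (qq 1 x i : ℝ) ^ (2 * (κ / 4) - 1)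
    with hv
  have hv0 : ∀ χ, 0 ≤ v χ := fun χ => prod_nonneg fun i _ => by positivity
  have h3 := h.sum_abs hL
  have h4 : ∀ χ, ‖∑ d ∈ J, ∑ d' ∈ J, (at0 x K g c d * at0 x K g c d') •
      Dc (qq 1 x) d d' (YY x K a b d) (YY x K a b d') χ - ∑ d ∈ J, at0 x K g c d ^ 2 •
        Dc (qq 1 x) d d (YY x K a b d) (YY x K a b d) χ‖ ≤ e / 4 * v χ := fun χ => by
    have := hv0 χ
    refine (off_diag J _ _ (β := e / 2704 * v χ) (by positivity) fun d hd d' hd' hne => ?_).trans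
      ((mul_le_mul_of_nonneg_right h3 (by positivity)).trans_eq (by ring))
    have a1 := h.Pm_le hL (sub_ne_zero.2 hne) ((abs_sub _ _).trans
      (by linarith [(h.mem hd).2, (h.mem hd').2]))
    have a2 := h.Pm_le hL (h.mem hd).1 (by have := (h.mem hd).2; omega)
    have a3 := h.Pm_le hL (h.mem hd').1 (by have := (h.mem hd').2; omega)
    have a4 := one_le_Pm (q := qq 1 x) (d - d')
    have a5 := one_le_Pm (q := qq 1 x) d'
    refine (Dc_off (abs_YY d) (abs_YY d') (s := κ / 4) (by positivity) (by linarith)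
      (YY_off hL0 hne) χ).trans (mul_le_mul_of_nonneg_right (le_trans ?_ h1) this)
    rw [← mul_assoc (κ / 4), pow_three']
    gcongr
  have hys : ∀ T, yy x a b T ≠ 0 → lg (qq 1 x) T ≤ Real.log x / 2 := fun T h =>
    (yy_supp hL0 h).2.trans (by nlinarith)
  have hP := sum_Pm (BV.qq_inj 1 x) h.hH
  have hK := h.hK
  have hc2 : c ^ 2 ≤ 400 := by have := h.hc; rw [← sq_abs]; nlinarith [abs_nonneg c]
  have h5 : ∀ χ, ‖∑ d ∈ J, at0 x K g c d ^ 2 • Dc (qq 1 x) d d (YY x K a b d) (YY x K a b d) χ‖ ≤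
      (400 + 36 * CE ^ 2) * v χ := fun χ => by
    have := hv0 χ
    rw [h.sum_eq fun t y d => t ^ 2 • Dc (qq 1 x) d d y y χ, add_mul]
    refine (norm_add_le _ _).trans (add_le_add ?_ ((norm_sum_le _ _).trans ?_))
    · rw [norm_smul, Real.norm_of_nonneg (sq_nonneg _)]
      exact mul_le_mul hc2 (Dc_const _ _ (fun i => by positivity) χ) (norm_nonneg _) (by norm_num)
    · have a1 : ∏ i ∈ supp (qq 1 x) χ, 12 * (qq 1 x i : ℝ)⁻¹ ≤ v χ :=
        prod_le_prod (fun i _ => by positivity) fun i _ => by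
          rw [← Real.rpow_neg_one]
          exact mul_le_mul_of_nonneg_left (Real.rpow_le_rpow_of_exponent_le
            (by exact_mod_cast (Fact.out : (qq 1 x i).Prime).one_le) (by linarith)) (by norm_num)
      calc _ ≤ ∑ d ∈ H, (Real.log x)⁻¹ ^ 2 * (3 * (2 * Real.log x * Pm (qq 1 x) d) * v χ) := by
            refine sum_le_sum fun d _ => ?_
            have a2 := one_le_Pm (q := qq 1 x) d
            rw [norm_smul, Real.norm_of_nonneg (sq_nonneg _), mul_pow, ← sq_abs (g d)]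
            refine mul_le_mul (mul_le_of_le_one_right (sq_nonneg _)
              (pow_le_one₀ (abs_nonneg _) (h.hg d))) ((Dc_diag abs_yy hL0 hys χ).trans ?_)
              (norm_nonneg _) (sq_nonneg _)
            gcongr
        _ = 6 * (∑ d ∈ H, Pm (qq 1 x) d) / Real.log x * v χ := by
            rw [mul_sum, sum_div, sum_mul]
            exact sum_congr rfl fun d _ => by field_simp; ring
        _ ≤ 6 * (2 * CE ^ 2 * (3 * Real.log x)) / Real.log x * v χ := by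
            gcongr; exact hP.trans (by gcongr)
        _ = _ := by field_simp; ring
  have h6 : ∀ χ, v χ ≤ Cκ * (MP_fc51f7_nt.cond (qq 1 x) χ : ℝ) ^ (κ - 1) := fun χ => by
    have a1 := hC _ _ (BV.qq_inj 1 x) (fun i => Fact.out) (supp (qq 1 x) χ)
    have a2 : (0 : ℝ) < MP_fc51f7_nt.cond (qq 1 x) χ := by exact_mod_cast cond_pos χ
    simp only [hv]
    rw [prod_mul_distrib, prod_const, Real.finsetProd_rpow _ _ fun _ _ => Nat.cast_nonneg _,
      ← Nat.cast_prod, show κ - 1 = κ / 2 + (2 * (κ / 4) - 1) by ring, Real.rpow_add a2, ← mul_assoc]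
    exact mul_le_mul_of_nonneg_right ((pow_le_pow_left₀ (by norm_num) (by norm_num) _).trans a1)
      (by positivity)
  set c1 := ∑ d ∈ J, ∑ d' ∈ J, at0 x K g c d * at0 x K g c d' *
    Tb (qq 1 x) d d' (YY x K a b d) (YY x K a b d') with hc1
  set c2 := c ^ 2 + (∑ d ∈ H, g d ^ 2) * GS x a b / Real.log x ^ 2 + e with hc2'
  have h7 : c1 ≤ c2 := by
    have a1 := h4 1
    have a2 : v 1 = 1 := by simp [hv, supp]
    simp only [Dc_one, a2, mul_one, Complex.real_smul, ← Complex.ofReal_mul, ← Complex.ofReal_sum,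
      ← Complex.ofReal_sub, Complex.norm_real, Real.norm_eq_abs] at a1
    have a3 := (le_abs_self _).trans a1
    rw [h.sum_eq fun t y d => t ^ 2 * Tb (qq 1 x) d d y y] at a3
    have a4 := Dc_const (q := qq 1 x) (K + 1) (fun _ => 1) (fun _ => zero_le_one) 1
    rw [Dc_one, Complex.norm_real, prod_const_one] at a4
    have a5 := mul_le_of_le_one_right (sq_nonneg c) ((le_abs_self _).trans a4)
    have a6 := Tb_diag (BV.qq_inj 1 x) abs_yy hL0 hys h.hg h.hH hX (Q := 72 * CE ^ 2 / e)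
      (by positivity)
    rw [sum_yy_sq] at a6
    have a7 : 3 * Zf (qq 1 x) (2 * (Real.log x)⁻¹) * (5 * (72 * CE ^ 2 / e) ^ 3 * CE +
        2 * CE ^ 2 * K / (72 * CE ^ 2 / e)) ≤ 3 / 4 * e * Real.log x ^ 2 := by
      rw [div_le_iff₀ he] at hL2
      calc _ ≤ 3 * (2 * Real.log x) * (Real.log x * e / 24 +
            2 * CE ^ 2 * (3 * Real.log x) / (72 * CE ^ 2 / e)) := by gcongr; linarith
        _ = _ := by field_simp; ring
    have a8 : ∑ d ∈ H, ((Real.log x)⁻¹ * g d) ^ 2 * Tb (qq 1 x) d d (yy x a b) (yy x a b) ≤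
        (∑ d ∈ H, g d ^ 2) * GS x a b / Real.log x ^ 2 + 3 / 4 * e := by
      calc _ = (∑ d ∈ H, g d ^ 2 * Tb (qq 1 x) d d (yy x a b) (yy x a b)) / Real.log x ^ 2 := by
            rw [sum_div]; exact sum_congr rfl fun d _ => by field_simp
        _ ≤ ((∑ d ∈ H, g d ^ 2) * GS x a b + 3 / 4 * e * Real.log x ^ 2) / Real.log x ^ 2 := by
            gcongr; linarith
        _ = _ := by field_simp
    linarith
  have h8 : 0 ≤ c2 := by
    have : 0 ≤ GS x a b := sum_yy_sq x a b ▸ sum_nonneg fun T _ =>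
      mul_nonneg (sq_nonneg _) (wt_nonneg _ two_le T)
    positivity
  have h9 := hx (fun n => ∑ d ∈ J, ∑ d' ∈ J, at0 x K g c d * at0 x K g c d' *
    T0 (qq 1 x) d d' (YY x K a b d) (YY x K a b d') n + (c2 - c1)) c2
    ⟨fun χ => ∑ d ∈ J, ∑ d' ∈ J, (at0 x K g c d * at0 x K g c d') •
      Dc (qq 1 x) d d' (YY x K a b d) (YY x K a b d') χ, fun n => ?_, fun χ => ?_, fun χ h0 => ?_⟩
    (fun n => add_nonneg (T0_pos _ _ _ _) (sub_nonneg.2 h7)) h8 N hN
  · refine le_trans (sum_le_sum fun p hp => mul_le_mul_of_nonneg_left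
      (le_add_of_le_of_nonneg (le_of_eq ?_) (sub_nonneg.2 h7)) (Real.log_natCast_nonneg p)) h9
    simp only [mem_filter, mem_Ioc] at hp
    have a1 : ∀ d T, YY x K a b d T ≠ 0 → ∀ i ∈ T, ¬ qq 1 x i ∣ p := fun d T h0 i hi hd => by
      have b1 := (single_le_sum (f := fun i => Real.log (qq 1 x i))
        (fun _ _ => Real.log_natCast_nonneg _) hi).trans (YY_supp hL0 hb0 d T h0)
      rw [(Nat.prime_dvd_prime_iff_eq Fact.out hp.2).1 hd] at b1
      have b2 : √x < p := hN.trans_lt (by exact_mod_cast hp.1.1)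
      have b3 := Real.log_lt_log (Real.sqrt_pos.2 (by exact_mod_cast hx0)) b2
      rw [Real.log_sqrt (Nat.cast_nonneg _)] at b3
      nlinarith
    rw [h.Zc_eq, sq, sum_mul_sum]
    exact sum_congr rfl fun d _ => sum_congr rfl fun d' _ => by
      rw [T0_cop (a1 d) (a1 d')]; ring
  · simp only [hc1, Complex.ofReal_add, Complex.ofReal_sub, Complex.ofReal_sum, Complex.ofReal_mul,
      T0_eq, mul_add, sum_add_distrib, Complex.real_smul, sum_mul, mul_sum, mul_assoc]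
    rw [sum_comm (s := univ.erase _)]
    simp only [sum_comm (s := univ.erase (1 : Ch (qq 1 x)))]
    ring
  · have a1 := (norm_sub_norm_le _ _).trans (h4 χ)
    have a2 := mul_le_mul_of_nonneg_left (h6 χ) (show 0 ≤ 400 + 36 * CE ^ 2 + e / 4 by positivity)
    linarith [h5 χ]
  · obtain ⟨d, -, h0⟩ := exists_ne_zero_of_sum_ne_zero h0
    obtain ⟨d', -, h0⟩ := exists_ne_zero_of_sum_ne_zero h0
    exact Dc_support (fun T U c1 c2 => by linarith [YY_supp hL0 hb0 d T c1, YY_supp hL0 hb0 d' U c2])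
      (right_ne_zero_of_smul h0)

end

end Pool.Agent.Lib.MP_c702b2_nt
end

-- part Pool.Agent.Lib.MP_c702b2_nt.Gap
section

/-! The lower bound for the sum of squared prime gaps. -/

set_option autoImplicit false
set_option linter.unusedSectionVars false

namespace Pool.Agent.Lib.MP_c702b2_nt

open Finset Filter Topology Pool.Agent.Lib.MP_fc51f7_nt BV

noncomputable section

def SG (x : ℕ) : ℝ := ∑ n ∈ Ico 1 (Nat.primeCounting x),
  ((Nat.nth Nat.Prime n : ℝ) - (Nat.nth Nat.Prime (n - 1) : ℝ)) ^ 2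

/-- distance to the next prime -/
def tau (n : ℕ) : ℕ := Nat.nth Nat.Prime (Nat.primeCounting n) - n

lemma lt_next (n : ℕ) : n < Nat.nth Nat.Prime (Nat.primeCounting n) :=
  Nat.le_nth_count Nat.infinite_setOfPred_prime (n + 1)

lemma tau_spec (n : ℕ) : 0 < tau n ∧ (n + tau n).Prime := by
  have := lt_next n
  refine ⟨Nat.sub_pos_of_lt this, ?_⟩
  rw [tau, Nat.add_sub_cancel' this.le]
  exact Nat.prime_nth_prime _

lemma odd_sum (d A : ℕ) : ∑ n ∈ Ico A (A + d), (2 * (((A + d : ℕ) : ℝ) - n) - 1) = d ^ 2 := by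
  induction d generalizing A with
  | zero => simp
  | succ d ih =>
    rw [sum_eq_sum_Ico_succ_bot (by omega), show A + (d + 1) = (A + 1) + d by ring, ih]
    push_cast; ring

lemma gap_sum {N1 N2 x : ℕ} (h1 : 1 ≤ N1) (h2 : Nat.primeCounting N2 < Nat.primeCounting x) :
    ∑ n ∈ Ioc N1 N2, (2 * (tau n : ℝ) - 1) ≤ SG x := by
  rw [← sum_fiberwise_of_maps_to (t := Ico 1 (Nat.primeCounting x)) (g := Nat.primeCounting)
    fun n hn => mem_Ico.2 ⟨(Nat.monotone_primeCounting (show 2 ≤ n by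
      have := (mem_Ioc.1 hn).1; omega)).trans' (by decide),
      (Nat.monotone_primeCounting (mem_Ioc.1 hn).2).trans_lt h2⟩]
  refine sum_le_sum fun k hk => ?_
  obtain ⟨d, hd⟩ := Nat.exists_eq_add_of_le
    (Nat.nth_monotone Nat.infinite_setOfPred_prime (Nat.sub_le k 1))
  have e : ((Nat.nth Nat.Prime k : ℝ) - (Nat.nth Nat.Prime (k - 1) : ℝ)) ^ 2 = d ^ 2 := by
    rw [hd]; push_cast; ring
  rw [e, ← odd_sum d (Nat.nth Nat.Prime (k - 1)), ← hd]
  refine (sum_congr rfl fun n hn => ?_).trans_le (sum_le_sum_of_subset_of_nonneg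
    (fun n hn => ?_) fun n hn _ => ?_)
  · rw [tau, Nat.cast_sub (lt_next n).le, (mem_filter.1 hn).2]
  · have h3 := (mem_filter.1 hn).2
    have h4 := (mem_Ico.1 hk).1
    refine mem_Ico.2 ⟨Nat.lt_succ_iff.1 ((Nat.lt_nth_iff_count_lt Nat.infinite_setOfPred_prime).1 ?_),
      h3 ▸ lt_next n⟩
    change k - 1 < Nat.primeCounting n
    omega
  · have : (n : ℝ) + 1 ≤ Nat.nth Nat.Prime k := by exact_mod_cast (mem_Ico.1 hn).2
    linarith

def Hh (M h : ℕ) : Finset ℤ := ((Ioc 0 M).erase h).image fun k : ℕ => (k : ℤ) - h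

def gw (M h : ℕ) (d : ℤ) : ℝ := if d + h ≤ M then 1 else 1 / 2

lemma sum_Hh (M M1 h : ℕ) (f : ℝ → ℤ → ℝ) : ∑ d ∈ Hh M h, f (gw M1 h d) d =
    ∑ k ∈ (Ioc 0 M).erase h, f (if k ≤ M1 then 1 else 1 / 2) (k - h) := by
  rw [Hh, sum_image fun a _ b _ e => by simpa using e]
  simp [gw]

lemma sum_two {M1 M : ℕ} (hM : M1 ≤ M) (f : ℕ → ℝ) :
    ∑ k ∈ Ioc 0 M, (if k ≤ M1 then 1 else 1 / 2 : ℝ) ^ 2 * f k =
      1 / 4 * ∑ k ∈ Ioc 0 M, f k + 3 / 4 * ∑ k ∈ Ioc 0 M1, f k := by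
  rw [← sum_Ioc_consecutive _ (Nat.zero_le _) hM, ← sum_Ioc_consecutive f (Nat.zero_le _) hM,
    sum_congr rfl fun k hk => by rw [if_pos (mem_Ioc.1 hk).2],
    sum_congr (s₁ := Ioc M1 M) rfl fun k hk => by rw [if_neg (mem_Ioc.1 hk).1.not_ge]]
  simp only [← mul_sum]; ring

lemma win {x K M M1 h : ℕ} {c : ℝ} (hK : (K : ℝ) ≤ 3 * Real.log x) (hM : M ≤ K) (hh : h ≤ K)
    (hc : |c| ≤ 20) : Win x K (Hh M h) (gw M1 h) c := by
  refine ⟨hK, fun d hd => ?_, fun d => ?_, hc⟩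
  · obtain ⟨k, hk, rfl⟩ := mem_image.1 hd
    simp only [mem_erase, mem_Ioc] at hk
    rw [abs_le]; omega
  · unfold gw; split_ifs <;> norm_num [abs_of_pos]

lemma sum_gw {M1 M : ℕ} (hM : M1 ≤ M) (h : ℕ) :
    ∑ d ∈ Hh M h, gw M1 h d ^ 2 ≤ 1 / 4 * M + 3 / 4 * M1 := by
  rw [sum_Hh M M1 h fun t _ => t ^ 2]
  have := sum_two hM fun _ => 1
  simp only [mul_one, sum_const, Nat.card_Ioc, Nat.sub_zero, nsmul_eq_mul] at this
  rw [← this]
  exact sum_le_sum_of_subset_of_nonneg (erase_subset _ _) fun _ _ _ => sq_nonneg _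

lemma sum_gw_Xi {ι : Type} [Fintype ι] [DecidableEq ι] {q : ι → ℕ} [hq : ∀ i, Fact (q i).Prime]
    (hi : Function.Injective q) {M1 M : ℕ} (hM : M1 ≤ M) (h : ℕ) (V : Finset ι) (hV : V ≠ ∅) :
    |∑ d ∈ Hh M h, gw M1 h d ^ 2 * Xi q V d| ≤ 5 * Real.exp (lg q V) := by
  have h1 : ∀ N : ℕ, |∑ k ∈ Ioc 0 N, Xi q V (k - h)| ≤ 4 * Real.exp (lg q V) := fun N => by
    simpa [hV, Xi, lg, sub_eq_add_neg] using corr hi (-h) 0 V ∅ (Nat.zero_le N)
  have h2 := Real.one_le_exp (lg_nonneg q V)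
  have h3 : |∑ k ∈ Ioc 0 M, (if k ≤ M1 then 1 else 1 / 2 : ℝ) ^ 2 * Xi q V (k - h)| ≤
      4 * Real.exp (lg q V) := by
    rw [sum_two hM fun k => Xi q V (k - h)]
    have a1 := abs_le.1 (h1 M)
    have a2 := abs_le.1 (h1 M1)
    rw [abs_le]; constructor <;> linarith [a1.1, a1.2, a2.1, a2.2]
  rw [sum_Hh M M1 h fun t d => t ^ 2 * Xi q V d]
  by_cases h4 : h ∈ Ioc 0 M
  · rw [sum_erase_eq_sub h4]
    refine (abs_sub _ _).trans ?_
    have : |(if h ≤ M1 then 1 else 1 / 2 : ℝ) ^ 2 * Xi q V (h - h)| ≤ 1 := by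
      rw [abs_mul, Xi, abs_prod]
      exact mul_le_one₀ (by split_ifs <;> norm_num [abs_of_pos]) (by positivity)
        (prod_le_one (fun _ _ => abs_nonneg _) fun i _ => MP_fc51f7_nt.abs_xi_le (two_le i) _)
    linarith
  · rw [erase_eq_of_notMem h4]; linarith

lemma Zc_shift (x : ℕ) (a b c : ℝ) (M M1 h n : ℕ) : Zc x a b (Hh M 0) (gw M1 0) c n =
    Zc x a b (Hh M h) (gw M1 h) (c + (if h ∈ Ioc 0 M then (if h ≤ M1 then 1 else 1 / 2) else 0) *
      (S0 (qq 1 x) (yy x a b) (n + h : ℕ) / Real.log x)) (n + h : ℕ) := by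
  rw [Zc, Zc, sum_Hh M M1 0 fun t d => t * S0 (qq 1 x) (yy x a b) (n + d),
    sum_Hh M M1 h fun t d => t * S0 (qq 1 x) (yy x a b) ((n + h : ℕ) + d),
    erase_eq_of_notMem (by simp)]
  simp only [Nat.cast_zero, sub_zero, Nat.cast_add, add_assoc]
  by_cases h1 : h ∈ Ioc 0 M
  · rw [← add_sum_erase _ _ h1, if_pos h1]
    simp only [show ∀ k : ℕ, (h : ℤ) + (k - h) = k from fun k => by ring]
    ring
  · rw [erase_eq_of_notMem h1, if_neg h1]
    simp only [show ∀ k : ℕ, (h : ℤ) + (k - h) = k from fun k => by ring]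
    ring

def jj (L : ℝ) (h : ℕ) : ℕ := ⌈1000 * h / L⌉₊

def MM (L : ℝ) (J : ℕ) : ℕ := ⌊J * L / 1000⌋₊

lemma jj_le {L : ℝ} (hL : 0 < L) {h J : ℕ} : jj L h ≤ J ↔ h ≤ MM L J := by
  rw [jj, MM, Nat.ceil_le, Nat.le_floor_iff (by positivity), div_le_iff₀ hL,
    le_div_iff₀ (by norm_num), mul_comm]

lemma MM_le {L : ℝ} (hL : 0 < L) (J : ℕ) : (MM L J : ℝ) ≤ J * L / 1000 :=
  Nat.floor_le (by positivity)

lemma MM_mono {L : ℝ} (hL : 0 < L) {J J' : ℕ} (h : J ≤ J') : MM L J ≤ MM L J' :=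
  Nat.floor_le_floor (by gcongr)

lemma sum_jj {L : ℝ} (hL : 0 < L) (J : ℕ) (f : ℕ → ℝ) (hf : ∀ j, 0 ≤ f j) :
    ∑ h ∈ Ioc 0 (MM L J), f (jj L h) ≤ (L / 1000 + 1) * ∑ j ∈ range (J + 1), f j := by
  induction J with
  | zero => simp [MM]; have := hf 0; positivity
  | succ J ih =>
    rw [← sum_Ioc_consecutive _ (Nat.zero_le _) (MM_mono hL (Nat.le_succ J)), sum_range_succ,
      mul_add, sum_congr (s₁ := Ioc (MM L J) _) rfl fun h hh => by
        rw [show jj L h = J + 1 from le_antisymm ((jj_le hL).2 (mem_Ioc.1 hh).2)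
          (not_le.1 fun h1 => (mem_Ioc.1 hh).1.not_ge ((jj_le hL).1 h1))],
      sum_const, Nat.card_Ioc, nsmul_eq_mul, Nat.cast_sub (MM_mono hL (Nat.le_succ J))]
    refine add_le_add ih (mul_le_mul_of_nonneg_right ?_ (hf _))
    have h1 := MM_le hL (J + 1)
    have h2 : J * L / 1000 < MM L J + 1 := Nat.lt_floor_add_one _
    push_cast at h1
    linarith

/-- the statistic -/
def Y0 (x : ℕ) (c : ℝ) (n : ℕ) : ℝ := Zc x (1 / 20000) (4999 / 20000) (Hh (MM (Real.log x) 1110) 0)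
  (gw (MM (Real.log x) 880) 0) c n

lemma var_ev : ∀ᶠ x : ℕ in atTop, |GS x (1 / 20000) (4999 / 20000) / Real.log x - 2499 / 10000| ≤
    1 / 10 ^ 6 ∧ ∀ h, (∑ d ∈ Hh (MM (Real.log x) 1110) h, gw (MM (Real.log x) 880) h d ^ 2) *
      GS x (1 / 20000) (4999 / 20000) / Real.log x ^ 2 + 1 / 10 ^ 6 ≤ vq := by
  have h := Metric.tendsto_nhds.1 (GS_tendsto (a := 1 / 20000) (b := 4999 / 20000) (by norm_num)
    (by norm_num)) (1 / 10 ^ 6) (by norm_num)
  filter_upwards [h, log_ev] with x h hL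
  have hL0 : 0 < Real.log x := by linarith
  rw [Real.dist_eq, show (4999 / 20000 - 1 / 20000 : ℝ) = 2499 / 10000 by norm_num] at h
  refine ⟨h.le, fun k => ?_⟩
  have h1 := sum_gw (MM_mono hL0 (show 880 ≤ 1110 by norm_num)) k
  have h2 := MM_le hL0 880
  have h3 := MM_le hL0 1110
  have h4 := abs_le.1 h.le
  have h5 : (∑ d ∈ Hh (MM (Real.log x) 1110) k, gw (MM (Real.log x) 880) k d ^ 2) / Real.log x ≤
      15 / 16 := by
    rw [div_le_iff₀ hL0]; push_cast at h2 h3; linarith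
  rw [sq, ← div_mul_div_comm, vq]
  push_cast
  gcongr
  · linarith [h4.1]
  · linarith [h4.2]

lemma perh : ∀ᶠ x : ℕ in atTop, ∀ N1 N2 : ℕ, Real.exp ((1 - 1 / 10 ^ 6) * Real.log x) ≤ N1 →
    N2 + MM (Real.log x) 2010 ≤ x → ∀ h ∈ Ioc 0 (MM (Real.log x) 2010),
      ∑ n ∈ Ioc N1 N2 with (n + h).Prime, Y0 x (-be (jj (Real.log x) h)) n ^ 2 ≤
        x / Real.log x * kap (jj (Real.log x) h) := by
  filter_upwards [palm (a := 1 / 20000) (b := 4999 / 20000) (e := 1 / 10 ^ 6) (by norm_num)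
    (by norm_num) (by norm_num) (by norm_num), var_ev, log_ev, eventually_gt_atTop 0]
    with x hp ⟨v1, v2⟩ hL hx N1 N2 h1 h2 h hh
  have hL0 : 0 < Real.log x := by linarith
  have hx0 : (0 : ℝ) < x := by exact_mod_cast hx
  have hh' := mem_Ioc.1 hh
  have j1 := (jj_le hL0).2 hh'.2
  have j0 : 0 < jj (Real.log x) h := not_le.1 fun h3 => by
    have := (jj_le hL0).1 h3
    simp only [MM, Nat.cast_zero, zero_mul, zero_div, Nat.floor_zero] at this; omega
  have e1 : (if h ∈ Ioc 0 (MM (Real.log x) 1110) then (if h ≤ MM (Real.log x) 880 then 1 else 1 / 2)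
      else 0 : ℝ) = gq (jj (Real.log x) h) := by
    have := MM_mono hL0 (show 880 ≤ 1110 by norm_num)
    simp only [gq, jj_le hL0, mem_Ioc, hh'.1, true_and]
    split_ifs <;> first | omega | norm_num
  have b1 : (0 : ℝ) ≤ be (jj (Real.log x) h) := by exact_mod_cast be_nonneg _
  have b2 : (be (jj (Real.log x) h) : ℝ) ≤ 10 := by exact_mod_cast (chk1 _ j0 j1).2
  have g1 : (0 : ℝ) ≤ gq (jj (Real.log x) h) ∧ (gq (jj (Real.log x) h) : ℝ) ≤ 1 := by
    unfold gq; split_ifs <;> norm_num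
  set c := -(be (jj (Real.log x) h) : ℝ) + gq (jj (Real.log x) h) *
    (GS x (1 / 20000) (4999 / 20000) / Real.log x) with hc
  have c1 : |c| ≤ |(be (jj (Real.log x) h) : ℝ) - 2499 / 10000 * gq (jj (Real.log x) h)| +
      1 / 10 ^ 6 := by
    rw [show c = gq (jj (Real.log x) h) * (GS x (1 / 20000) (4999 / 20000) / Real.log x -
      2499 / 10000) - ((be (jj (Real.log x) h) : ℝ) - 2499 / 10000 * gq (jj (Real.log x) h)) by
      rw [hc]; ring]
    refine (abs_sub _ _).trans ?_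
    rw [abs_mul, abs_of_nonneg g1.1]
    linarith [mul_le_mul g1.2 v1 (abs_nonneg _) zero_le_one]
  have c2 : |c| ≤ 20 := c1.trans (by
    have : |(be (jj (Real.log x) h) : ℝ) - 2499 / 10000 * gq (jj (Real.log x) h)| ≤ 10 := by
      rw [abs_le]; constructor <;> linarith [g1.1, g1.2]
    linarith)
  have s1 : √x ≤ N1 := by
    refine le_trans ?_ h1
    rw [← Real.exp_log hx0, ← Real.exp_half, Real.log_exp]
    exact Real.exp_le_exp.2 (by linarith)
  have h3 := hp _ _ _ c (win (M1 := MM (Real.log x) 880) ((MM_le hL0 2010).trans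
    (by push_cast; linarith)) (MM_mono hL0 (show 1110 ≤ 2010 by norm_num)) hh'.2 c2)
    (sum_gw_Xi (BV.qq_inj 1 x) (MM_mono hL0 (by norm_num)) h) N1 s1
  have h4 : (1 - 1 / 10 ^ 6) * Real.log x *
      ∑ n ∈ Ioc N1 N2 with (n + h).Prime, Y0 x (-be (jj (Real.log x) h)) n ^ 2 ≤
      ∑ p ∈ Ioc N1 x with p.Prime, Real.log p * Zc x (1 / 20000) (4999 / 20000)
        (Hh (MM (Real.log x) 1110) h) (gw (MM (Real.log x) 880) h) c p ^ 2 := by
    rw [mul_sum]
    refine le_trans ?_ (sum_le_sum_of_subset_of_nonneg (s := ((Ioc N1 N2).filter fun n =>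
      (n + h).Prime).image (· + h)) (fun n hn => ?_)
      fun p _ _ => mul_nonneg (Real.log_natCast_nonneg _) (sq_nonneg _))
    swap
    · obtain ⟨m, hm, rfl⟩ := mem_image.1 hn
      simp only [mem_filter, mem_Ioc] at hm ⊢
      exact ⟨by omega, hm.2⟩
    rw [sum_image fun a _ b _ e => by simpa using e]
    refine sum_le_sum fun n hn => ?_
    · simp only [mem_filter, mem_Ioc] at hn
      have a1 : (1 - 1 / 10 ^ 6) * Real.log x ≤ Real.log (n + h : ℕ) := by
        rw [Real.le_log_iff_exp_le (by exact_mod_cast hn.2.pos)]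
        exact h1.trans (by exact_mod_cast (by omega : N1 ≤ n + h))
      rw [Y0, Zc_shift _ _ _ _ _ _ h, e1, S0_cop fun T h0 i hi hd => ?_]
      · exact mul_le_mul_of_nonneg_right a1 (sq_nonneg _)
      · have a2 := (single_le_sum (f := fun i => Real.log (qq 1 x i))
          (fun _ _ => Real.log_natCast_nonneg _) hi).trans (yy_supp hL0 h0).2
        rw [(Nat.prime_dvd_prime_iff_eq Fact.out hn.2).1 hd] at a2
        linarith
  have h5 := v2 h
  have h6 : c ^ 2 ≤ (|(be (jj (Real.log x) h) : ℝ) - 2499 / 10000 * gq (jj (Real.log x) h)| +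
      1 / 10 ^ 6) ^ 2 := by rw [← sq_abs]; gcongr
  rw [← le_div_iff₀' (by positivity)] at h4
  refine h4.trans ((div_le_div_of_nonneg_right h3 (by positivity)).trans ?_)
  rw [kap]
  push_cast
  rw [div_mul_div_comm, mul_comm (Real.log x), mul_comm (x : ℝ), add_assoc (c ^ 2)]
  gcongr

lemma ptw {x : ℕ} (hL : 0 < Real.log x) (n : ℕ) :
    201 / 100 - 318 / 10000 * Y0 x (5528 / 1000) n ^ 2 - ∑ h ∈ Ioc 0 (MM (Real.log x) 2010),
      bq (jj (Real.log x) h) * (if (n + h).Prime then Y0 x (-be (jj (Real.log x) h)) n ^ 2 else 0)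
      ≤ tau n / Real.log x := by
  have h0 : ∀ h ∈ Ioc 0 (MM (Real.log x) 2010), 0 ≤ (bq (jj (Real.log x) h) : ℝ) *
      (if (n + h).Prime then Y0 x (-be (jj (Real.log x) h)) n ^ 2 else 0) := fun h _ => by
    have : (0 : ℝ) ≤ bq (jj (Real.log x) h) := by exact_mod_cast bq_nonneg _
    positivity
  obtain ⟨t1, t2⟩ := tau_spec n
  rcases le_or_gt (tau n) (MM (Real.log x) 2010) with h | h
  · have h1 := single_le_sum h0 (mem_Ioc.2 ⟨t1, h⟩)
    rw [if_pos t2] at h1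
    have j1 := (jj_le hL).2 h
    have j0 : 0 < jj (Real.log x) (tau n) := not_le.1 fun h3 => by
      have := (jj_le hL).1 h3
      simp only [MM, Nat.cast_zero, zero_mul, zero_div, Nat.floor_zero] at this; omega
    have j2 : (jj (Real.log x) (tau n) : ℝ) < 1000 * tau n / Real.log x + 1 :=
      Nat.ceil_lt_add_one (by positivity)
    have k1 := (Rat.cast_le (K := ℝ)).2 (chk1 _ j0 j1).1
    push_cast at k1
    have k2 : (0 : ℝ) ≤ bq (jj (Real.log x) (tau n)) := by exact_mod_cast bq_nonneg _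
    have e : Y0 x (5528 / 1000) n = Y0 x (-be (jj (Real.log x) (tau n))) n +
        (5528 / 1000 + be (jj (Real.log x) (tau n))) := by simp only [Y0, Zc]; ring
    rw [e]
    rw [mul_div_assoc] at j2
    generalize Y0 x (-be (jj (Real.log x) (tau n))) n = y at *
    generalize (5528 / 1000 + be (jj (Real.log x) (tau n)) : ℝ) = s at *
    generalize (bq (jj (Real.log x) (tau n)) : ℝ) = b at *
    have k3 : (2011 - (jj (Real.log x) (tau n) : ℝ)) / 1000 ≤ 318 / 10000 * (y + s) ^ 2 + b * y ^ 2 :=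
      le_of_mul_le_mul_right (k1.trans (by nlinarith [sq_nonneg (318 / 10000 * (y + s) + b * y)]))
        (show 0 < 318 / 10000 + b by positivity)
    linarith
  · have h1 := sum_nonneg h0
    have h2 : ((2010 : ℕ) : ℝ) * Real.log x / 1000 < tau n := Nat.lt_of_floor_lt h
    have h3 : 201 / 100 ≤ (tau n : ℝ) / Real.log x := by
      rw [le_div_iff₀ hL]; push_cast at h2; linarith
    nlinarith [sq_nonneg (Y0 x (5528 / 1000) n)]

lemma prime_ev : ∀ᶠ x : ℕ in atTop,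
    Nat.primeCounting ⌊(1 - 1 / 10 ^ 6 : ℝ) * x⌋₊ < Nat.primeCounting x := by
  have h1 := (Pool.Agent.Shared.PNT.pnt_theta.comp tendsto_natCast_atTop_atTop).eventually_const_lt
    (show (1 - 1 / 10 ^ 7 : ℝ) < 1 by norm_num)
  have h2 := (Pool.Agent.Shared.PNT.pnt_theta.comp (tendsto_natCast_atTop_atTop.const_mul_atTop
    (show (0 : ℝ) < 1 - 1 / 10 ^ 6 by norm_num))).eventually_lt_const
    (show (1 : ℝ) < 1 + 1 / 10 ^ 7 by norm_num)
  filter_upwards [h1, h2, eventually_gt_atTop 0] with x h1 h2 hx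
  have hx0 : (0 : ℝ) < x := by exact_mod_cast hx
  simp only [Function.comp] at h1 h2
  rw [lt_div_iff₀ hx0] at h1
  rw [div_lt_iff₀ (by positivity)] at h2
  have h3 : Chebyshev.theta ((1 - 1 / 10 ^ 6 : ℝ) * x) < Chebyshev.theta x := by linarith
  by_contra h4
  refine h3.not_ge (sum_le_sum_of_subset_of_nonneg (fun p hp => ?_)
    fun p _ _ => Real.log_natCast_nonneg p)
  simp only [mem_filter, mem_Ioc, Nat.floor_natCast] at hp ⊢
  refine ⟨⟨hp.1.1, not_lt.1 fun h5 => h4 ?_⟩, hp.2⟩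
  exact (Nat.count_strict_mono hp.2 (Nat.lt_succ_of_le hp.1.2)).trans_le'
    (Nat.count_monotone _ h5)

theorem main_nat : ∀ᶠ x : ℕ in atTop, 10701 / 10000 * (x * Real.log x) ≤ SG x := by
  filter_upwards [unif (a := 1 / 20000) (b := 4999 / 20000) (e := 1 / 10 ^ 6) (by norm_num)
    (by norm_num) (by norm_num) (by norm_num), var_ev, perh, prime_ev, eventually_gt_atTop 0,
    small_ev (a := 1 / 10 ^ 6) (by norm_num) (ε := 1 / 10 ^ 7) (by norm_num),
    Meas.tendsto_L.eventually_ge_atTop (10 ^ 9)] with x hu ⟨_, v2⟩ hp hπ hx hs hL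
  have hL0 : 0 < Real.log x := by linarith
  have hx0 : (0 : ℝ) < x := by exact_mod_cast hx
  set N1 := ⌈Real.exp ((1 - 1 / 10 ^ 6) * Real.log x)⌉₊ with hN1
  set N2 := ⌊(1 - 1 / 10 ^ 6 : ℝ) * x⌋₊ with hN2
  have hE := Real.one_le_exp (show 0 ≤ (1 - 1 / 10 ^ 6) * Real.log x by positivity)
  have hL7 : Real.log x ≤ Real.log x ^ 7 := le_self_pow₀ (by linarith) (by norm_num)
  have hs1 := (mul_le_mul_of_nonneg_right hL7 (Real.exp_pos _).le).trans hs
  have a1 : (N1 : ℝ) < Real.exp ((1 - 1 / 10 ^ 6) * Real.log x) + 1 :=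
    Nat.ceil_lt_add_one (by positivity)
  have a2 : (N2 : ℝ) ≤ (1 - 1 / 10 ^ 6 : ℝ) * x := Nat.floor_le (by positivity)
  have a3 : (1 - 1 / 10 ^ 6 : ℝ) * x < N2 + 1 := Nat.lt_floor_add_one _
  have a4 := MM_le hL0 2010
  have a5 := mul_le_mul_of_nonneg_left hE hL0.le
  have a6 := mul_le_mul_of_nonneg_right (show 1 ≤ Real.log x by linarith)
    (zero_le_one.trans hE)
  push_cast at a4
  have a7 : (1 - 3 / 10 ^ 6 : ℝ) * x ≤ N2 - N1 := by linarith
  have a8 : N1 ≤ N2 := by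
    have : (N1 : ℝ) ≤ N2 := by linarith
    exact_mod_cast this
  have a9 : N2 + MM (Real.log x) 2010 ≤ x := by
    have : (N2 : ℝ) + MM (Real.log x) 2010 ≤ x := by linarith
    exact_mod_cast this
  have b1 := hu _ _ _ (5528 / 1000) (win (M1 := MM (Real.log x) 880) (a4.trans (by linarith))
    (MM_mono hL0 (show 1110 ≤ 2010 by norm_num)) (Nat.zero_le _) (by norm_num [abs_of_pos]))
    N1 N2 a8
  have b2 := v2 0
  have b3 := sum_le_sum fun n (_ : n ∈ Ioc N1 N2) => ptw hL0 n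
  rw [sum_sub_distrib, sum_sub_distrib, sum_const, Nat.card_Ioc, nsmul_eq_mul, Nat.cast_sub a8,
    ← mul_sum, sum_comm, ← sum_div] at b3
  simp only [← mul_sum, ← sum_filter] at b3
  have hk : ∀ j, (0 : ℝ) ≤ (bq j * kap j : ℚ) := fun j => by
    have := bq_nonneg j
    have : 0 ≤ kap j := by unfold kap vq; positivity
    positivity
  have b4 := (sum_le_sum fun h hh => mul_le_mul_of_nonneg_left (hp N1 N2 (Nat.le_ceil _) a9 h hh)
    (show (0 : ℝ) ≤ bq (jj (Real.log x) h) by exact_mod_cast bq_nonneg _))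
  have b5 := sum_jj hL0 2010 (fun j => (bq j * kap j : ℚ)) hk
  have b6 := (Rat.cast_le (K := ℝ)).2 chk2
  rw [Rat.cast_sum] at b6
  have b7 : ∑ h ∈ Ioc 0 (MM (Real.log x) 2010), (bq (jj (Real.log x) h) : ℝ) *
      (x / Real.log x * kap (jj (Real.log x) h)) ≤ (1 + 1 / 10 ^ 6) * (4957 / 10000) * x := by
    calc _ = x / Real.log x * ∑ h ∈ Ioc 0 (MM (Real.log x) 2010),
          ((bq (jj (Real.log x) h) * kap (jj (Real.log x) h) : ℚ) : ℝ) := by
          rw [mul_sum]; exact sum_congr rfl fun h _ => by push_cast; ring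
      _ ≤ x / Real.log x * (((1 + 1 / 10 ^ 6) * Real.log x / 1000) * (4957 / 10)) := by
          gcongr
          refine b5.trans (mul_le_mul (by linarith) (by simpa using b6)
            (sum_nonneg fun j _ => hk j) (by positivity))
      _ = _ := by field_simp; ring
  have b8 := gap_sum (N1 := N1) (Nat.one_le_ceil_iff.2 (Real.exp_pos _)) hπ
  rw [sum_sub_distrib, ← mul_sum, sum_const, Nat.card_Ioc, nsmul_eq_mul, Nat.cast_sub a8] at b8
  have b9 : ∑ n ∈ Ioc N1 N2, Y0 x (5528 / 1000) n ^ 2 ≤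
      ((5528 / 1000) ^ 2 + vq + 1 / 10 ^ 6) * x := by
    have c1 : (N2 : ℝ) - N1 ≤ x := by linarith [(Nat.cast_nonneg N1 : (0 : ℝ) ≤ N1)]
    have c2 : (0 : ℝ) ≤ vq := by unfold vq; positivity
    refine b1.trans ?_
    have c3 : (0 : ℝ) ≤ N2 - N1 := by linarith
    nlinarith [mul_le_mul_of_nonneg_left b2 c3, mul_le_mul_of_nonneg_right c1 c2]
  rw [vq] at b9
  push_cast at b9
  have c4 : 53507 / 100000 * x ≤ (∑ n ∈ Ioc N1 N2, (tau n : ℝ)) / Real.log x := by linarith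
  rw [le_div_iff₀ hL0] at c4
  nlinarith [mul_le_mul_of_nonneg_left hL hx0.le, (Nat.cast_nonneg N1 : (0 : ℝ) ≤ N1)]

theorem main : ∀ᶠ x : ℝ in atTop, 107 / 100 * (x * Real.log x) ≤ SG ⌊x⌋₊ := by
  filter_upwards [tendsto_nat_floor_atTop.eventually main_nat,
    tendsto_nat_floor_atTop.eventually (Meas.tendsto_L.eventually_ge_atTop (10 ^ 5)),
    eventually_ge_atTop (10 ^ 5 + 1)] with x h1 h2 h3
  have h4 := Nat.lt_floor_add_one x
  have h5 : x ≤ (1 + 1 / 10 ^ 5) * ⌊x⌋₊ := by linarith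
  have h6 : Real.log x ≤ (1 + 1 / 10 ^ 5) * Real.log ⌊x⌋₊ := by
    have a1 := Real.log_le_log (by linarith) (show x ≤ 2 * ⌊x⌋₊ by linarith)
    rw [Real.log_mul two_ne_zero (by linarith)] at a1
    linarith [Real.log_two_lt_d9]
  have h7 := mul_le_mul h5 h6 (Real.log_nonneg (by linarith)) (by linarith)
  nlinarith [mul_nonneg (Nat.cast_nonneg ⌊x⌋₊ : (0 : ℝ) ≤ _) (Real.log_natCast_nonneg ⌊x⌋₊)]

end

end Pool.Agent.Lib.MP_c702b2_nt
end
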